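import Pool.Agent.AutoConv.Defs

/-!
# Autoconvolutions of densities on the unit interval: analytic part

A density `f` on the unit interval with `f * f ≤ M` almost everywhere gives a probability
measure `μ` for which the law of a sum of two independent points has density at most `M`,
and the law of a difference has a density whose square has integral at most `M`.
-/

open MeasureTheory Set
open scoped ENNReal

namespace Pool.Agent.AutoConv

/-- Data extracted from a density: a measurable `G ≥ 0` with values in `[0,∞]`. -/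
structure Dens (M : ℝ) (G : ℝ → ℝ≥0∞) : Prop where
  meas : Measurable G
  zero : ∀ x, x ∉ Icc (0:ℝ) 1 → G x = 0
  one : ∫⁻ x, G x = 1
  bdd : ∀ᵐ x, ∫⁻ t, G t * G (x - t) ≤ ENNReal.ofReal M

section lint
variable {G : ℝ → ℝ≥0∞}

lemma lint_sum (hG : Measurable G) {Φ : ℝ → ℝ≥0∞} (hΦ : Measurable Φ) :
    ∫⁻ x, ∫⁻ y, Φ (x + y) * (G x * G y) = ∫⁻ z, Φ z * ∫⁻ x, G x * G (z - x) := by
  have h1 : ∀ x, ∫⁻ y, Φ (x + y) * (G x * G y) = ∫⁻ z, Φ z * (G x * G (z - x)) := by
    intro x
    rw [← lintegral_sub_right_eq_self (fun y => Φ (x + y) * (G x * G y)) x]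
    congr 1; ext z; simp
  simp_rw [h1]
  rw [lintegral_lintegral_swap]
  · congr 1; ext z
    rw [lintegral_const_mul _ (by fun_prop)]
  · apply Measurable.aemeasurable
    unfold Function.uncurry
    fun_prop

lemma lint_diff (hG : Measurable G) {Φ : ℝ → ℝ≥0∞} (hΦ : Measurable Φ) :
    ∫⁻ x, ∫⁻ y, Φ (x - y) * (G x * G y) = ∫⁻ t, Φ t * ∫⁻ x, G x * G (x - t) := by
  have h1 : ∀ x, ∫⁻ y, Φ (x - y) * (G x * G y) = ∫⁻ t, Φ t * (G x * G (x - t)) := by
    intro x
    rw [← lintegral_sub_left_eq_self (fun y => Φ (x - y) * (G x * G y)) x]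
    congr 1; ext z; simp
  simp_rw [h1]
  rw [lintegral_lintegral_swap]
  · congr 1; ext z
    rw [lintegral_const_mul _ (by fun_prop)]
  · apply Measurable.aemeasurable
    unfold Function.uncurry
    fun_prop

/-- the two quadruple integrals agree. -/
lemma lint_sq (hG : Measurable G) :
    ∫⁻ t, (∫⁻ x, G x * G (x - t)) * (∫⁻ y, G y * G (y - t)) =
      ∫⁻ s, (∫⁻ x, G x * G (s - x)) * (∫⁻ y, G y * G (s - y)) := by
  have key1 : ∀ (g : ℝ → ℝ → ℝ≥0∞), Measurable (Function.uncurry g) →
      ∫⁻ t, (∫⁻ x, G x * g x t) * (∫⁻ y, G y * g y t) =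
        ∫⁻ x, ∫⁻ y, G x * G y * ∫⁻ t, g x t * g y t := by
    intro g hg
    have hg1 : ∀ x, Measurable (g x) := fun x => hg.comp measurable_prodMk_left
    have hg2 : ∀ t, Measurable (fun x => g x t) := fun t => hg.comp measurable_prodMk_right
    have hgA : Measurable (fun p : ℝ × ℝ => g p.1 p.2) := hg
    have e1 : ∀ t, (∫⁻ x, G x * g x t) * (∫⁻ y, G y * g y t) =
        ∫⁻ x, ∫⁻ y, (G x * G y) * (g x t * g y t) := by
      intro t
      have m1 : Measurable (fun x => G x * g x t) := hG.mul (hg2 t)
      rw [← lintegral_mul_const _ m1]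
      congr 1; ext x
      rw [← lintegral_const_mul _ m1]
      congr 1; ext y
      ring
    simp_rw [e1]
    have mm : Measurable (fun p : ℝ × ℝ × ℝ => G p.1 * G p.2.1 * (g p.1 p.2.2 * g p.2.1 p.2.2)) := by
      apply Measurable.mul
      · fun_prop
      · apply Measurable.mul
        · exact hgA.comp (measurable_fst.prodMk (measurable_snd.comp measurable_snd))
        · exact hgA.comp ((measurable_fst.comp measurable_snd).prodMk
            (measurable_snd.comp measurable_snd))
    rw [lintegral_lintegral_swap]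
    · congr 1; ext x
      rw [lintegral_lintegral_swap]
      · congr 1; ext y
        rw [lintegral_const_mul]
        exact (hg1 x).mul (hg1 y)
      · apply Measurable.aemeasurable
        exact mm.comp (measurable_const.prodMk (measurable_snd.prodMk measurable_fst))
    · apply Measurable.aemeasurable
      apply Measurable.lintegral_prod_right'
        (f := fun q : (ℝ × ℝ) × ℝ => G q.1.2 * G q.2 * (g q.1.2 q.1.1 * g q.2 q.1.1))
      exact mm.comp ((measurable_snd.comp measurable_fst).prodMk
        (measurable_snd.prodMk (measurable_fst.comp measurable_fst)))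
  rw [key1 (fun x t => G (x - t)) (by unfold Function.uncurry; fun_prop),
    key1 (fun x s => G (s - x)) (by unfold Function.uncurry; fun_prop)]
  congr 1; ext x; congr 1; ext y; congr 1
  rw [← lintegral_sub_left_eq_self (fun s => G (s - x) * G (s - y)) (x + y)]
  congr 1; ext t
  rw [mul_comm]
  congr 2 <;> ring

end lint

section meas
variable {M : ℝ} {G : ℝ → ℝ≥0∞}

/-- the probability measure with density `G`. -/
noncomputable def mu (G : ℝ → ℝ≥0∞) : Measure ℝ := volume.withDensity G

/-- the density of the sum. -/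
noncomputable def hG (G : ℝ → ℝ≥0∞) (z : ℝ) : ℝ≥0∞ := ∫⁻ x, G x * G (z - x)

/-- the density of the difference. -/
noncomputable def aG (G : ℝ → ℝ≥0∞) (t : ℝ) : ℝ≥0∞ := ∫⁻ x, G x * G (x - t)

lemma meas_hG (hm : Measurable G) : Measurable (hG G) := by
  apply Measurable.lintegral_prod_right' (f := fun q : ℝ × ℝ => G q.2 * G (q.1 - q.2))
  fun_prop

lemma meas_aG (hm : Measurable G) : Measurable (aG G) := by
  apply Measurable.lintegral_prod_right' (f := fun q : ℝ × ℝ => G q.2 * G (q.2 - q.1))
  fun_prop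

lemma prob_mu (h : Dens M G) : IsProbabilityMeasure (mu G) :=
  ⟨by rw [mu, withDensity_apply _ MeasurableSet.univ]; simpa using h.one⟩

lemma lint_prod (h : Dens M G) {Ψ : ℝ × ℝ → ℝ≥0∞} (hΨ : Measurable Ψ) :
    ∫⁻ p, Ψ p ∂((mu G).prod (mu G)) = ∫⁻ x, ∫⁻ y, Ψ (x, y) * (G x * G y) := by
  have := prob_mu h
  rw [lintegral_prod _ hΨ.aemeasurable, mu, lintegral_withDensity_eq_lintegral_mul _ h.meas]
  · congr 1; ext x
    simp only [Pi.mul_apply]
    have hx : Measurable (fun y => Ψ (x, y)) := hΨ.comp measurable_prodMk_left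
    rw [lintegral_withDensity_eq_lintegral_mul _ h.meas hx,
      ← lintegral_const_mul _ (h.meas.mul hx)]
    congr 1; ext y
    simp only [Pi.mul_apply]
    ring
  · exact Measurable.lintegral_prod_right' hΨ

lemma map_add_mu (h : Dens M G) :
    Measure.map (fun p : ℝ × ℝ => p.1 + p.2) ((mu G).prod (mu G)) = volume.withDensity (hG G) := by
  ext s hs
  have hf : Measurable (fun p : ℝ × ℝ => p.1 + p.2) := by fun_prop
  rw [← lintegral_indicator_one hs, lintegral_map (measurable_one.indicator hs) hf,
    lint_prod h (Ψ := fun p => s.indicator 1 (p.1 + p.2)) ((measurable_one.indicator hs).comp hf),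
    lint_sum h.meas (measurable_one.indicator hs), withDensity_apply _ hs,
    ← lintegral_indicator hs]
  congr 1; ext z
  by_cases hz : z ∈ s <;> simp [hz, hG]

lemma map_sub_mu (h : Dens M G) :
    Measure.map (fun p : ℝ × ℝ => p.1 - p.2) ((mu G).prod (mu G)) = volume.withDensity (aG G) := by
  ext s hs
  have hf : Measurable (fun p : ℝ × ℝ => p.1 - p.2) := by fun_prop
  rw [← lintegral_indicator_one hs, lintegral_map (measurable_one.indicator hs) hf,
    lint_prod h (Ψ := fun p => s.indicator 1 (p.1 - p.2)) ((measurable_one.indicator hs).comp hf),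
    lint_diff h.meas (measurable_one.indicator hs), withDensity_apply _ hs,
    ← lintegral_indicator hs]
  congr 1; ext z
  by_cases hz : z ∈ s <;> simp [hz, aG]

lemma lint_hG (h : Dens M G) : ∫⁻ z, hG G z = 1 := by
  have := prob_mu h
  have h1 := congrArg (fun ν : Measure ℝ => ν univ) (map_add_mu h)
  rw [Measure.map_apply (by fun_prop) MeasurableSet.univ, withDensity_apply _ MeasurableSet.univ] at h1
  simp at h1
  exact h1.symm

lemma lint_aG (h : Dens M G) : ∫⁻ z, aG G z = 1 := by
  have := prob_mu h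
  have h1 := congrArg (fun ν : Measure ℝ => ν univ) (map_sub_mu h)
  rw [Measure.map_apply (by fun_prop) MeasurableSet.univ, withDensity_apply _ MeasurableSet.univ] at h1
  simp at h1
  exact h1.symm

lemma hG_zero (h : Dens M G) {z : ℝ} (hz : z ∉ Icc (0:ℝ) 2) : hG G z = 0 := by
  unfold hG
  have : ∀ x, G x * G (z - x) = 0 := by
    intro x
    by_cases hx : x ∈ Icc (0:ℝ) 1
    · have : z - x ∉ Icc (0:ℝ) 1 := by
        intro h2
        apply hz
        simp only [mem_Icc] at *
        constructor <;> linarith [h2.1, h2.2, hx.1, hx.2]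
      rw [h.zero _ this, mul_zero]
    · rw [h.zero _ hx, zero_mul]
  simp [this]

lemma aG_zero (h : Dens M G) {z : ℝ} (hz : z ∉ Icc (-1:ℝ) 1) : aG G z = 0 := by
  unfold aG
  have : ∀ x, G x * G (x - z) = 0 := by
    intro x
    by_cases hx : x ∈ Icc (0:ℝ) 1
    · have : x - z ∉ Icc (0:ℝ) 1 := by
        intro h2
        apply hz
        simp only [mem_Icc] at *
        constructor <;> linarith [h2.1, h2.2, hx.1, hx.2]
      rw [h.zero _ this, mul_zero]
    · rw [h.zero _ hx, zero_mul]
  simp [this]

/-- the density of the sum is bounded by `M`. -/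
lemma int_sum_le (h : Dens M G) {Φ : ℝ → ℝ} (hc : Continuous Φ)
    (hp : ∀ x ∈ Icc (0:ℝ) 2, 0 ≤ Φ x) :
    ∫ p, Φ (p.1 + p.2) ∂((mu G).prod (mu G)) ≤ M * ∫ x in (0:ℝ)..2, Φ x := by
  have hf : Measurable (fun p : ℝ × ℝ => p.1 + p.2) := by fun_prop
  rw [← integral_map hf.aemeasurable hc.aestronglyMeasurable, map_add_mu h,
    integral_withDensity_eq_integral_toReal_smul (meas_hG h.meas)
      (ae_lt_top (meas_hG h.meas) (by rw [lint_hG h]; simp)),
    intervalIntegral.integral_of_le (by norm_num), ← integral_Icc_eq_integral_Ioc,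
    ← integral_const_mul]
  have e1 : ∫ x, (hG G x).toReal • Φ x = ∫ x in Icc (0:ℝ) 2, (hG G x).toReal • Φ x := by
    rw [setIntegral_eq_integral_of_forall_compl_eq_zero]
    intro x hx
    rw [hG_zero h hx]; simp
  rw [e1]
  apply integral_mono_of_nonneg
  · filter_upwards [ae_restrict_mem measurableSet_Icc] with x hx
    simp only [Pi.zero_apply, smul_eq_mul]
    exact mul_nonneg ENNReal.toReal_nonneg (hp x hx)
  · exact (hc.integrableOn_Icc).const_mul M
  · have h2 : ∀ᵐ x ∂(volume.restrict (Icc (0:ℝ) 2)), hG G x ≤ ENNReal.ofReal M :=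
      ae_restrict_of_ae h.bdd
    filter_upwards [ae_restrict_mem measurableSet_Icc, h2] with x hx hb
    simp only [smul_eq_mul]
    apply mul_le_mul_of_nonneg_right _ (hp x hx)
    have hM : 0 ≤ M := by
      by_contra hM
      push Not at hM
      have h3 : ∀ᵐ x : ℝ, hG G x = 0 := by
        filter_upwards [h.bdd] with x hx
        rw [ENNReal.ofReal_of_nonpos hM.le] at hx
        exact nonpos_iff_eq_zero.mp hx
      have h4 := lint_hG h
      rw [lintegral_congr_ae h3] at h4
      simp at h4
    exact ENNReal.toReal_le_of_le_ofReal hM hb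

lemma M_nonneg (h : Dens M G) : 0 ≤ M := by
  by_contra hM
  push Not at hM
  have h3 : ∀ᵐ x : ℝ, hG G x = 0 := by
    filter_upwards [h.bdd] with x hx
    rw [ENNReal.ofReal_of_nonpos hM.le] at hx
    exact nonpos_iff_eq_zero.mp hx
  have h4 := lint_hG h
  rw [lintegral_congr_ae h3] at h4
  simp at h4

lemma lint_aG_sq (h : Dens M G) : ∫⁻ t, aG G t * aG G t ≤ ENNReal.ofReal M := by
  have h1 : ∫⁻ t, aG G t * aG G t = ∫⁻ s, hG G s * hG G s := lint_sq h.meas
  rw [h1]
  calc ∫⁻ s, hG G s * hG G s ≤ ∫⁻ s, ENNReal.ofReal M * hG G s := by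
        apply lintegral_mono_ae
        filter_upwards [h.bdd] with x hx
        exact mul_le_mul' hx le_rfl
    _ = ENNReal.ofReal M := by
        rw [lintegral_const_mul _ (meas_hG h.meas), lint_hG h, mul_one]

/-- the difference part. -/
lemma int_diff_le (h : Dens M G) {Φ : ℝ → ℝ} (hc : Continuous Φ) :
    2 * ∫ p, Φ (p.1 - p.2) ∂((mu G).prod (mu G)) ≤ (∫ x in (-1:ℝ)..1, Φ x ^ 2) + M := by
  have hf : Measurable (fun p : ℝ × ℝ => p.1 - p.2) := by fun_prop
  have hM := M_nonneg h
  rw [← integral_map hf.aemeasurable hc.aestronglyMeasurable, map_sub_mu h,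
    integral_withDensity_eq_integral_toReal_smul (meas_aG h.meas)
      (ae_lt_top (meas_aG h.meas) (by rw [lint_aG h]; simp)),
    intervalIntegral.integral_of_le (by norm_num), ← integral_Icc_eq_integral_Ioc]
  have e1 : ∫ x, (aG G x).toReal • Φ x = ∫ x in Icc (-1:ℝ) 1, (aG G x).toReal • Φ x := by
    rw [setIntegral_eq_integral_of_forall_compl_eq_zero]
    intro x hx
    rw [aG_zero h hx]; simp
  have hfin : ∀ᵐ x, aG G x < ∞ := ae_lt_top (meas_aG h.meas) (by rw [lint_aG h]; simp)
  have hsq : ∫⁻ t, ENNReal.ofReal ((aG G t).toReal ^ 2) ≤ ENNReal.ofReal M := by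
    refine le_trans (le_of_eq ?_) (lint_aG_sq h)
    apply lintegral_congr_ae
    filter_upwards [hfin] with x hx
    rw [sq, ENNReal.ofReal_mul ENNReal.toReal_nonneg, ENNReal.ofReal_toReal hx.ne]
  have hm2 : Measurable (fun t => (aG G t).toReal ^ 2) := (meas_aG h.meas).ennreal_toReal.pow_const 2
  have hint : Integrable (fun t => (aG G t).toReal ^ 2) := by
    refine ⟨hm2.aestronglyMeasurable, ?_⟩
    rw [hasFiniteIntegral_iff_ofReal (Filter.Eventually.of_forall fun x => by positivity)]
    exact lt_of_le_of_lt hsq ENNReal.ofReal_lt_top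
  have hsq' : ∫ t in Icc (-1:ℝ) 1, (aG G t).toReal ^ 2 ≤ M := by
    calc ∫ t in Icc (-1:ℝ) 1, (aG G t).toReal ^ 2 ≤ ∫ t, (aG G t).toReal ^ 2 := by
          apply setIntegral_le_integral hint
          exact Filter.Eventually.of_forall fun x => by positivity
      _ ≤ M := by
          rw [integral_eq_lintegral_of_nonneg_ae (Filter.Eventually.of_forall fun x => by positivity)
            hm2.aestronglyMeasurable]
          exact ENNReal.toReal_le_of_le_ofReal hM hsq
  rw [e1, ← integral_const_mul]
  calc ∫ x in Icc (-1:ℝ) 1, 2 * ((aG G x).toReal • Φ x)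
      ≤ ∫ x in Icc (-1:ℝ) 1, (Φ x ^ 2 + (aG G x).toReal ^ 2) := by
        have hI : IntegrableOn (fun x => Φ x ^ 2 + (aG G x).toReal ^ 2) (Icc (-1:ℝ) 1) :=
          ((hc.pow 2).integrableOn_Icc).add hint.integrableOn
        apply integral_mono_ae _ hI
        · apply Filter.Eventually.of_forall
          intro x
          simp only [smul_eq_mul]
          nlinarith [sq_nonneg (Φ x - (aG G x).toReal)]
        · apply Integrable.mono' hI
          · apply Measurable.aestronglyMeasurable
            exact (((meas_aG h.meas).ennreal_toReal).smul hc.measurable).const_mul 2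
          · apply Filter.Eventually.of_forall
            intro x
            simp only [smul_eq_mul, Real.norm_eq_abs]
            rw [abs_le]
            constructor <;> nlinarith [sq_nonneg (Φ x - (aG G x).toReal),
              sq_nonneg (Φ x + (aG G x).toReal)]
    _ = (∫ x in Icc (-1:ℝ) 1, Φ x ^ 2) + ∫ x in Icc (-1:ℝ) 1, (aG G x).toReal ^ 2 := by
        exact integral_add (f := fun x => Φ x ^ 2) ((hc.pow 2).integrableOn_Icc) hint.integrableOn
    _ ≤ _ := by linarith

end meas

end Pool.Agent.AutoConv
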