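import Pool.Agent.AutoConv.Basic

/-!
# The Brownian bridge kernel

`bb u w = min u w - u * w` is a positive definite kernel on `[0, 1]`.
-/

open MeasureTheory Set
open scoped ENNReal

namespace Pool.Agent.AutoConv

/-- the Brownian bridge kernel. -/
noncomputable def bb (u w : ℝ) : ℝ := min u w - u * w

/-- the centred step function. -/
noncomputable def st (u t : ℝ) : ℝ := (Iio u).indicator (fun _ => (1:ℝ)) t - u

lemma st_abs {u : ℝ} (hu : u ∈ Icc (0:ℝ) 1) (t : ℝ) : |st u t| ≤ 1 := by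
  unfold st
  by_cases h : t ∈ Iio u
  · rw [indicator_of_mem h, abs_le]; constructor <;> linarith [hu.1, hu.2]
  · rw [indicator_of_notMem h, abs_le]; constructor <;> linarith [hu.1, hu.2]

lemma integral_ind {u : ℝ} (hu : u ∈ Icc (0:ℝ) 1) :
    ∫ t in Icc (0:ℝ) 1, (Iio u).indicator (fun _ => (1:ℝ)) t = u := by
  rw [integral_indicator measurableSet_Iio, Measure.restrict_restrict measurableSet_Iio]
  simp only [integral_const, smul_eq_mul, mul_one]
  have : Iio u ∩ Icc (0:ℝ) 1 = Ico 0 u := by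
    ext t; simp only [mem_inter_iff, mem_Iio, mem_Icc, mem_Ico]
    constructor
    · rintro ⟨h1, h2, _⟩; exact ⟨h2, h1⟩
    · rintro ⟨h1, h2⟩; exact ⟨h2, h1, by linarith [hu.2]⟩
  rw [this]
  simp [Measure.real, hu.1]

lemma integrableOn_ind (u : ℝ) :
    IntegrableOn (fun t => (Iio u).indicator (fun _ => (1:ℝ)) t) (Icc (0:ℝ) 1) :=
  (integrable_const (1:ℝ)).indicator measurableSet_Iio

lemma integral_st {u w : ℝ} (hu : u ∈ Icc (0:ℝ) 1) (hw : w ∈ Icc (0:ℝ) 1) :
    ∫ t in Icc (0:ℝ) 1, st u t * st w t = bb u w := by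
  have e : ∀ t, st u t * st w t = (Iio (min u w)).indicator (fun _ => (1:ℝ)) t
      - u * (Iio w).indicator (fun _ => (1:ℝ)) t - w * (Iio u).indicator (fun _ => (1:ℝ)) t
      + u * w := by
    intro t
    unfold st
    by_cases h1 : t < u <;> by_cases h2 : t < w <;> simp [indicator, h1, h2] <;> ring
  simp_rw [e]
  have hm : min u w ∈ Icc (0:ℝ) 1 := ⟨le_min hu.1 hw.1, (min_le_left _ _).trans hu.2⟩
  rw [integral_add, integral_sub, integral_sub, integral_const_mul, integral_const_mul,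
    integral_ind hm, integral_ind hw, integral_ind hu]
  · simp [bb]; ring
  · exact integrableOn_ind _
  · exact (integrableOn_ind _).const_mul _
  · exact (integrableOn_ind _).sub ((integrableOn_ind _).const_mul _)
  · exact (integrableOn_ind _).const_mul _
  · exact ((integrableOn_ind _).sub ((integrableOn_ind _).const_mul _)).sub
      ((integrableOn_ind _).const_mul _)
  · exact integrable_const _

section
variable {μ : Measure ℝ} [IsProbabilityMeasure μ]

lemma meas_st {u : ℝ → ℝ} (hu : Measurable u) :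
    Measurable (fun p : ℝ × ℝ => st (u p.2) p.1) := by
  unfold st
  apply Measurable.sub
  · have : (fun p : ℝ × ℝ => (Iio (u p.2)).indicator (fun _ => (1:ℝ)) p.1) =
        ({p : ℝ × ℝ | p.1 < u p.2}).indicator (fun _ => (1:ℝ)) := by
      ext p
      by_cases h : p.1 < u p.2 <;> simp [indicator, h]
    rw [this]
    apply Measurable.indicator measurable_const
    exact measurableSet_lt measurable_fst (hu.comp measurable_snd)
  · exact hu.comp measurable_snd

/-- the averaged step function. -/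
noncomputable def rr (μ : Measure ℝ) (φ u : ℝ → ℝ) (t : ℝ) : ℝ := ∫ x, φ x * st (u x) t ∂μ

lemma meas_rr {φ u : ℝ → ℝ} (hφ : Measurable φ) (hu : Measurable u) :
    StronglyMeasurable (rr μ φ u) := by
  apply StronglyMeasurable.integral_prod_right'
    (f := fun p : ℝ × ℝ => φ p.2 * st (u p.2) p.1)
  exact ((hφ.comp measurable_snd).mul (meas_st hu)).stronglyMeasurable

lemma rr_abs {φ u : ℝ → ℝ} (hφ1 : ∀ x, |φ x| ≤ 1)
    (hu1 : ∀ x, u x ∈ Icc (0:ℝ) 1) (t : ℝ) : |rr μ φ u t| ≤ 1 := by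
  unfold rr
  have h1 : ∀ x, ‖φ x * st (u x) t‖ ≤ 1 := by
    intro x
    rw [norm_mul, Real.norm_eq_abs, Real.norm_eq_abs]
    have := hφ1 x
    have h2 := st_abs (hu1 x) t
    nlinarith [abs_nonneg (φ x), abs_nonneg (st (u x) t)]
  have := norm_integral_le_of_norm_le_const (μ := μ) (Filter.Eventually.of_forall h1)
  simpa using this

lemma bb_rep {φ ψ u v : ℝ → ℝ} (hφ : Measurable φ) (hψ : Measurable ψ) (hu : Measurable u)
    (hv : Measurable v) (hφ1 : ∀ x, |φ x| ≤ 1) (hψ1 : ∀ x, |ψ x| ≤ 1)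
    (hu1 : ∀ x, u x ∈ Icc (0:ℝ) 1) (hv1 : ∀ x, v x ∈ Icc (0:ℝ) 1) :
    ∫ p, φ p.1 * ψ p.2 * bb (u p.1) (v p.2) ∂(μ.prod μ) =
      ∫ t in Icc (0:ℝ) 1, rr μ φ u t * rr μ ψ v t := by
  have e1 : ∀ t, rr μ φ u t * rr μ ψ v t =
      ∫ p, (φ p.1 * st (u p.1) t) * (ψ p.2 * st (v p.2) t) ∂(μ.prod μ) := by
    intro t
    rw [integral_prod_mul (fun x => φ x * st (u x) t) (fun x => ψ x * st (v x) t)]
    rfl
  simp_rw [e1]
  rw [integral_integral_swap]
  · apply integral_congr_ae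
    apply Filter.Eventually.of_forall
    intro p
    simp only
    rw [← integral_st (hu1 p.1) (hv1 p.2), ← integral_const_mul]
    apply integral_congr_ae
    apply Filter.Eventually.of_forall
    intro t
    simp only
    ring
  · apply Integrable.of_bound (C := 1)
    · apply Measurable.aestronglyMeasurable
      have m1 : Measurable (fun q : ℝ × (ℝ × ℝ) => φ q.2.1 * st (u q.2.1) q.1) :=
        ((hφ.comp measurable_snd).mul (meas_st hu)).comp
          (measurable_fst.prodMk (measurable_fst.comp measurable_snd))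
      have m2 : Measurable (fun q : ℝ × (ℝ × ℝ) => ψ q.2.2 * st (v q.2.2) q.1) :=
        ((hψ.comp measurable_snd).mul (meas_st hv)).comp
          (measurable_fst.prodMk (measurable_snd.comp measurable_snd))
      exact m1.mul m2
    · apply Filter.Eventually.of_forall
      rintro ⟨t, x, y⟩
      simp only [Function.uncurry, norm_mul, Real.norm_eq_abs]
      have a1 := hφ1 x
      have a2 := st_abs (hu1 x) t
      have a3 := hψ1 y
      have a4 := st_abs (hv1 y) t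
      have b1 : |φ x| * |st (u x) t| ≤ 1 := by
        nlinarith [abs_nonneg (φ x), abs_nonneg (st (u x) t)]
      have b2 : |ψ y| * |st (v y) t| ≤ 1 := by
        nlinarith [abs_nonneg (ψ y), abs_nonneg (st (v y) t)]
      have b3 : 0 ≤ |φ x| * |st (u x) t| := by positivity
      have b4 : 0 ≤ |ψ y| * |st (v y) t| := by positivity
      nlinarith

lemma integrable_rr {φ ψ u v : ℝ → ℝ} (hφ : Measurable φ) (hψ : Measurable ψ) (hu : Measurable u)
    (hv : Measurable v) (hφ1 : ∀ x, |φ x| ≤ 1) (hψ1 : ∀ x, |ψ x| ≤ 1)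
    (hu1 : ∀ x, u x ∈ Icc (0:ℝ) 1) (hv1 : ∀ x, v x ∈ Icc (0:ℝ) 1) :
    IntegrableOn (fun t => rr μ φ u t * rr μ ψ v t) (Icc (0:ℝ) 1) := by
  apply Integrable.of_bound (C := 1)
  · exact ((meas_rr hφ hu).mul (meas_rr hψ hv)).aestronglyMeasurable
  · apply Filter.Eventually.of_forall
    intro t
    rw [norm_mul, Real.norm_eq_abs, Real.norm_eq_abs]
    have a1 := rr_abs (μ := μ) hφ1 hu1 t
    have a2 := rr_abs (μ := μ) hψ1 hv1 t
    nlinarith [abs_nonneg (rr μ φ u t), abs_nonneg (rr μ ψ v t)]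

/-- Cauchy–Schwarz for the bridge kernel. -/
lemma bb_cs {φ ψ u v : ℝ → ℝ} (hφ : Measurable φ) (hψ : Measurable ψ) (hu : Measurable u)
    (hv : Measurable v) (hφ1 : ∀ x, |φ x| ≤ 1) (hψ1 : ∀ x, |ψ x| ≤ 1)
    (hu1 : ∀ x, u x ∈ Icc (0:ℝ) 1) (hv1 : ∀ x, v x ∈ Icc (0:ℝ) 1) :
    2 * ∫ p, φ p.1 * ψ p.2 * bb (u p.1) (v p.2) ∂(μ.prod μ) ≤
      (∫ p, φ p.1 * φ p.2 * bb (u p.1) (u p.2) ∂(μ.prod μ)) +
      ∫ p, ψ p.1 * ψ p.2 * bb (v p.1) (v p.2) ∂(μ.prod μ) := by
  rw [bb_rep hφ hψ hu hv hφ1 hψ1 hu1 hv1, bb_rep hφ hφ hu hu hφ1 hφ1 hu1 hu1,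
    bb_rep hψ hψ hv hv hψ1 hψ1 hv1 hv1, ← integral_const_mul,
    ← integral_add (integrable_rr hφ hφ hu hu hφ1 hφ1 hu1 hu1)
      (integrable_rr hψ hψ hv hv hψ1 hψ1 hv1 hv1)]
  apply integral_mono ((integrable_rr hφ hψ hu hv hφ1 hψ1 hu1 hv1).const_mul 2)
    ((integrable_rr hφ hφ hu hu hφ1 hφ1 hu1 hu1).add (integrable_rr hψ hψ hv hv hψ1 hψ1 hv1 hv1))
  intro t
  simp only [Pi.add_apply]
  nlinarith [sq_nonneg (rr μ φ u t - rr μ ψ v t)]

lemma bb_nonneg {φ u : ℝ → ℝ} (hφ : Measurable φ) (hu : Measurable u)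
    (hφ1 : ∀ x, |φ x| ≤ 1) (hu1 : ∀ x, u x ∈ Icc (0:ℝ) 1) :
    0 ≤ ∫ p, φ p.1 * φ p.2 * bb (u p.1) (u p.2) ∂(μ.prod μ) := by
  rw [bb_rep hφ hφ hu hu hφ1 hφ1 hu1 hu1]
  exact integral_nonneg fun t => mul_self_nonneg _

end

lemma bb_reflect (u w : ℝ) : bb (1 - u) (1 - w) = bb u w := by
  unfold bb
  rcases le_total u w with h | h
  · rw [min_eq_left h, min_eq_right (by linarith)]; ring
  · rw [min_eq_right h, min_eq_left (by linarith)]; ring

end Pool.Agent.AutoConv
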