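import Pool.Agent.AutoConv.Final

/-!
# Autoconvolutions: the certificate checker (definitions)

Numbers are packed in base `2 ^ 64`.
-/

namespace Pool.Agent.AutoConv

/-- the lowest `t` bits of each of the lowest `n` blocks of `s` bits. -/
def mask (t s n : ℕ) : ℕ :=
  Nat.mul (Nat.sub (Nat.pow 2 t) 1) (Nat.div (Nat.sub (Nat.pow 2 (Nat.mul s n)) 1)
    (Nat.sub (Nat.pow 2 s) 1))

def m21 : ℕ := mask 21 2112 33
def m22 : ℕ := mask 22 2112 33
def m9 : ℕ := mask 9 2112 33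
def m10 : ℕ := mask 10 2112 33
/-- multiplier spreading digits of `22` bits to blocks of `2112` bits. -/
def c22 : ℕ := Nat.div (Nat.sub (Nat.pow 2 (Nat.mul 2090 33)) 1) (Nat.sub (Nat.pow 2 2090) 1)
def mu24 : ℕ := mask 24 2112 33
def cu24 : ℕ := Nat.div (Nat.sub (Nat.pow 2 (Nat.mul 2088 33)) 1) (Nat.sub (Nat.pow 2 2088) 1)
def c10 : ℕ := Nat.div (Nat.sub (Nat.pow 2 (Nat.mul 2102 33)) 1) (Nat.sub (Nat.pow 2 2102) 1)
def dd : ℕ := Nat.sub (Nat.pow 2 2112) (Nat.pow 2 64)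
def bn : ℕ := Nat.pow 2 2112
/-- multiplier spreading `65` digits of `24` bits to blocks of `4160` bits. -/
def c24 : ℕ := Nat.div (Nat.sub (Nat.pow 2 (Nat.mul 4136 65)) 1) (Nat.sub (Nat.pow 2 4136) 1)
def m24 : ℕ := mask 24 4160 65
def dd2 : ℕ := Nat.sub (Nat.pow 2 4160) (Nat.pow 2 64)
def e2 : ℕ := mask 1 64 1089
def m63 : ℕ := mask 63 64 1089
/-- mask for 65 digits below `2 ^ 24` in base `2 ^ 64`. -/
def k24 : ℕ := mask 24 64 65

def zB (Y : ℕ) : ℤ := Int.sub (Int.ofNat (Nat.mul 2 (Nat.land Y m21))) (Int.ofNat (Nat.land Y m22))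
def xB (Y : ℕ) : ℤ := Int.sub (Int.ofNat (Nat.mul 2 (Nat.mod (Nat.land Y m21) dd)))
  (Int.ofNat (Nat.mod (Nat.land Y m22) dd))

def zL (Y : ℕ) : ℤ := Int.sub (Int.ofNat (Nat.mul 2 (Nat.land Y m9))) (Int.ofNat (Nat.land Y m10))
def xL (Y : ℕ) : ℤ := Int.sub (Int.ofNat (Nat.mul 2 (Nat.mod (Nat.land Y m9) dd)))
  (Int.ofNat (Nat.mod (Nat.land Y m10) dd))

def colsum : List ℕ → ℕ → ℤ
  | [], _ => 0
  | c :: cs, sh => Int.add (Int.mul (xB (Nat.mul c sh)) (zB (Nat.mul c sh)))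
      (colsum cs (Nat.shiftLeft sh 22))

/-- signed constraint vector, compact and spaced form. -/
def lx (p : Bool × ℕ) : ℤ := match p.1 with
  | true => xL (Nat.mul p.2 c10)
  | false => Int.neg (xL (Nat.mul p.2 c10))

def lz (p : Bool × ℕ) : ℤ := match p.1 with
  | true => zL (Nat.mul p.2 c10)
  | false => Int.neg (zL (Nat.mul p.2 c10))

def wx : List (Bool × ℕ) → ℕ → ℤ
  | [], _ => 0
  | p :: ps, w => Int.add (Int.mul (Int.ofNat (Nat.mod w 16777216)) (lx p))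
      (wx ps (Nat.shiftRight w 24))

def wz : List (Bool × ℕ) → ℕ → ℤ
  | [], _ => 0
  | p :: ps, w => Int.add (Int.mul (Int.ofNat (Nat.mod w 16777216)) (lz p))
      (wz ps (Nat.shiftRight w 24))

/-- contribution of the constraints. -/
def consum : List (Bool × ℕ) → List (ℕ × ℕ) → ℤ
  | p :: ps, uw :: us =>
    Int.add (Int.add
      (Int.mul (lx p) (Int.add (Int.ofNat (Nat.mul 256 (Nat.land (Nat.mul uw.1 cu24) mu24)))
        (wz (p :: ps) uw.2)))
      (Int.mul (lz p) (Int.add (Int.ofNat (Nat.mul 256 (Nat.mod (Nat.land (Nat.mul uw.1 cu24) mu24) dd)))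
        (wx (p :: ps) uw.2))))
      (consum ps us)
  | _, _ => 0

/-- base `2 ^ 64` version of a compact vector of 65 digits below `2 ^ 24`. -/
def exp24 (g : ℕ) : ℕ := Nat.land (Nat.mod (Nat.land (Nat.mul g c24) m24) dd2) k24

def rows (gx kx : ℕ) : ℕ → ℕ
  | 0 => 0
  | j + 1 => Nat.add (rows gx kx j)
      (Nat.shiftLeft (Nat.add (Nat.mod (Nat.shiftRight gx (Nat.mul 64 j)) bn)
        (Nat.mul 2 (Nat.mod (Nat.shiftRight kx (Nat.mul 64 (Nat.sub 32 j))) bn)))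
        (Nat.mul 2112 j))

def dg (x k : ℕ) : ℕ := Nat.mod (Nat.shiftRight x (Nat.mul 64 k)) 18446744073709551616

def dc (x k : ℕ) : ℕ := Nat.mod (Nat.shiftRight x (Nat.mul 24 k)) 16777216

def sumF (F : ℕ → ℕ) : ℕ → ℕ
  | 0 => 0
  | k + 1 => Nat.add (sumF F k) (F k)

def allF (F : ℕ → Bool) : ℕ → Bool
  | 0 => true
  | k + 1 => match F k with
    | true => allF F k
    | false => false

def isOk : ℤ → Bool
  | .ofNat a => Nat.beq (Nat.land a m63) a
  | .negSucc _ => false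

/-- matrix part of the check. -/
def matOk (path : List (Bool × ℕ)) (B : List ℕ) (uw : List (ℕ × ℕ)) (gx kx v : ℕ) : Bool :=
  isOk (Int.sub (Int.sub (Int.sub (Int.ofNat (Nat.mul 262144 (rows gx kx 33)))
    (Int.ofNat (Nat.mul 262144 (Nat.mul (Nat.add 25165824 v) e2)))) (colsum B c22))
    (consum path uw))

def cond1 (gx G k : ℕ) : Bool := Nat.ble (dg gx k) (dc G k)

def cond2 (gx G k : ℕ) : Bool :=
  Nat.ble (Nat.add (Nat.add (dg gx k) (Nat.mul 2 (dg gx (Nat.succ k)))) (dg gx (Nat.succ (Nat.succ k))))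
    (Nat.mul 4 (dc G (Nat.succ k)))

def cond0 (G k : ℕ) : Bool := Nat.ble 8388608 (dc G k)

def sqf (κ k : ℕ) : ℕ :=
  Nat.add (Nat.add (Nat.mul (dc κ k) (dc κ k)) (Nat.mul (dc κ k) (dc κ (Nat.succ k))))
    (Nat.mul (dc κ (Nat.succ k)) (dc κ (Nat.succ k)))

def linf (κ k : ℕ) : ℕ := Nat.add (dc κ k) (dc κ (Nat.succ k))

def objOk (MN MD G κ v : ℕ) : Bool :=
  Nat.blt
    (Nat.add (Nat.add (Nat.mul (Nat.mul 786432 MN) (sumF (linf G) 64)) (Nat.mul (Nat.mul 192 MN) 68719476736))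
      (Nat.mul (Nat.mul 2 MD) (Nat.add (sumF (sqf κ) 64) 13510798882111488)))
    (Nat.add (Nat.add (Nat.mul (Nat.mul 50331648 MD) v) (Nat.mul (Nat.mul 786432 MN) 1073741824))
      (Nat.mul (Nat.mul (Nat.mul 2 MD) 25165824) (sumF (linf κ) 64)))

def vecOk (gx kx G κ : ℕ) : Bool :=
  and (allF (cond1 gx G) 65) (and (allF (cond0 G) 65) (and (allF (cond2 gx G) 63)
    (and (allF (cond1 kx κ) 65) (allF (cond2 kx κ) 63))))

/-- the leaf check. -/
def leafOk (MN MD : ℕ) (path : List (Bool × ℕ)) (B : List ℕ) (uw : List (ℕ × ℕ))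
    (g k G κ v : ℕ) : Bool :=
  and (Nat.ble v 16777216) (and (Nat.ble path.length 60) (and (Nat.ble B.length 64)
    (and (objOk MN MD G κ v) (and (vecOk (exp24 g) (exp24 k) G κ)
      (matOk path B uw (exp24 g) (exp24 k) v)))))

end Pool.Agent.AutoConv
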