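import Pool.Agent.AutoConv.Disc2

/-!
# Autoconvolutions: refined discretisation, conclusion
-/

open MeasureTheory Set Finset
open scoped ENNReal

namespace Pool.Agent.AutoConv

theorem good2_of_dens {N : ℕ} (hN : 1 ≤ N) {M : ℝ} {D : ℝ → ℝ≥0∞} (h : Dens M D) :
    Good2 N M (fun i => ∫ x, hat (N * x - i) ∂(mu D)) := by
  have := prob_mu h
  have hold := good_of_dens hN h
  refine ⟨hold.1, hold.2.1, ?_⟩
  set μ := mu D with hμ
  have hbI : ∀ (i : ℕ), Integrable (fun x : ℝ => hat (N * x - i)) μ := by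
    intro i
    apply Integrable.of_bound (C := 1)
    · apply Continuous.aestronglyMeasurable; fun_prop
    · apply Filter.Eventually.of_forall
      intro x
      rw [Real.norm_eq_abs, abs_of_nonneg (hat_nonneg _)]
      exact hat_le_one _
  have hae1 : ∀ᵐ p ∂(μ.prod μ), p.1 ∈ Set.Icc (0:ℝ) 1 :=
    Measure.quasiMeasurePreserving_fst.ae (ae_mu h)
  have hae2 : ∀ᵐ p ∂(μ.prod μ), p.2 ∈ Set.Icc (0:ℝ) 1 :=
    Measure.quasiMeasurePreserving_snd.ae (ae_mu h)
  have hN0 : (0:ℝ) < N := by exact_mod_cast hN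
  intro g G K κ cG cK hG0 hgG hcG hgG2 hK hcK hcK0 hK2 hbud
  have key : ∀ c : ℕ → ℕ → ℝ, ∑ i ∈ range (N + 1), ∑ j ∈ range (N + 1),
      c i j * ((∫ x, hat (N * x - i) ∂μ) * (∫ x, hat (N * x - j) ∂μ)) =
      ∫ p, ∑ i ∈ range (N + 1), ∑ j ∈ range (N + 1),
        c i j * (hat (N * p.1 - i) * hat (N * p.2 - j)) ∂(μ.prod μ) := by
    intro c
    have hI : ∀ i j : ℕ, Integrable
        (fun p : ℝ × ℝ => c i j * (hat (N * p.1 - i) * hat (N * p.2 - j))) (μ.prod μ) := by
      intro i j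
      exact ((hbI i).mul_prod (hbI j)).const_mul _
    rw [integral_finsetSum _ (fun i _ => integrable_finsetSum _ (fun j _ => hI i j))]
    refine Finset.sum_congr rfl fun i _ => ?_
    rw [integral_finsetSum _ (fun j _ => hI i j)]
    refine Finset.sum_congr rfl fun j _ => ?_
    rw [integral_const_mul, integral_prod_mul (fun x => hat (N * x - i))
      (fun x => hat (N * x - j))]
  have keyI : ∀ c : ℕ → ℕ → ℝ, Integrable (fun p : ℝ × ℝ => ∑ i ∈ range (N + 1),
      ∑ j ∈ range (N + 1), c i j * (hat (N * p.1 - i) * hat (N * p.2 - j))) (μ.prod μ) := by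
    intro c
    refine integrable_finsetSum _ fun i _ => integrable_finsetSum _ fun j _ => ?_
    exact ((hbI i).mul_prod (hbI j)).const_mul _
  have hbd : ∀ (n : ℕ) (c : ℕ → ℝ) (s : ℝ), ‖hs n c s‖ ≤ ∑ k ∈ range n, |c k| := by
    intro n c s
    unfold hs
    refine le_trans (norm_sum_le _ _) (Finset.sum_le_sum fun k _ => ?_)
    rw [norm_mul, Real.norm_eq_abs, Real.norm_eq_abs, abs_of_nonneg (hat_nonneg _)]
    nlinarith [hat_le_one (s - k), abs_nonneg (c k)]
  -- the two analytic bounds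
  have P1 : ∫ p, hs (2 * N + 1) G (N * (p.1 + p.2)) ∂(μ.prod μ) ≤
      M * ((∑ k ∈ range (2 * N), (G k + G (k + 1))) / (2 * N)) := by
    rw [← int_hs hN G]
    refine int_sum_le h (Φ := fun x => hs (2 * N + 1) G (N * x))
      ((continuous_hs _ _).comp (by fun_prop)) ?_
    intro x _
    apply hs_nonneg
    intro k hk
    exact hG0 k (by omega)
  have P2 : 2 * ∫ p, hs (2 * N + 1) κ (N * (p.1 - p.2 + 1)) ∂(μ.prod μ) ≤
      (∑ k ∈ range (2 * N), (κ k ^ 2 + κ k * κ (k + 1) + κ (k + 1) ^ 2)) / (3 * N) + M := by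
    rw [← int_hs_sq hN κ]
    have e3 : ∫ x in (0:ℝ)..2, hs (2 * N + 1) κ (N * x) ^ 2 =
        ∫ x in (-1:ℝ)..1, hs (2 * N + 1) κ (N * (x + 1)) ^ 2 := by
      rw [intervalIntegral.integral_comp_add_right (fun x => hs (2 * N + 1) κ (N * x) ^ 2)]
      norm_num
    rw [e3]
    exact int_diff_le h (Φ := fun x => hs (2 * N + 1) κ (N * (x + 1)))
      ((continuous_hs _ _).comp (by fun_prop))
  have I1 : Integrable (fun p : ℝ × ℝ => hs (2 * N + 1) G (N * (p.1 + p.2))) (μ.prod μ) := by
    apply Integrable.of_bound (C := ∑ k ∈ range (2 * N + 1), |G k|)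
    · apply Continuous.aestronglyMeasurable
      exact (continuous_hs _ _).comp (by fun_prop)
    · exact Filter.Eventually.of_forall fun p => hbd _ _ _
  have I2 : Integrable (fun p : ℝ × ℝ => hs (2 * N + 1) κ (N * (p.1 - p.2 + 1))) (μ.prod μ) := by
    apply Integrable.of_bound (C := ∑ k ∈ range (2 * N + 1), |κ k|)
    · apply Continuous.aestronglyMeasurable
      exact (continuous_hs _ _).comp (by fun_prop)
    · exact Filter.Eventually.of_forall fun p => hbd _ _ _
  set eG : ℕ → ℝ := fun k => 4 * G (k + 1) - (g k + 2 * g (k + 1) + g (k + 2)) with heG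
  set eK : ℕ → ℝ := fun k => 4 * κ (k + 1) - (K k + 2 * K (k + 1) + K (k + 2)) with heK
  have hdef := defect_nonneg μ hN eG eK cG cK hcG
    (fun k hk => by simp only [heG]; linarith [hgG2 k hk]) hcK hcK0
    (fun k hk hk2 => by simp only [heK]; linarith [hK2 k hk hk2])
    (fun a ha => by
      refine le_trans (hbud a ha) (le_of_eq ?_)
      have e1 : N - 1 + 1 = N := by omega
      have e2 : N - 1 + 2 = N + 1 := by omega
      simp only [heK, e1, e2])
  -- the defect as an integral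
  have I4 : ∀ a b : ℕ, Integrable (fun p : ℝ × ℝ =>
      eG (a + b) * (ph N a p.1 * ph N b p.2 * bb (uu N p.1) (1 - uu N p.2)) +
        2 * eK (a + (N - 1 - b)) * (ph N a p.1 * ph N b p.2 * bb (uu N p.1) (uu N p.2)))
        (μ.prod μ) := fun a b =>
    ((ga_int μ N a b).const_mul _).add ((be_int μ N a b).const_mul _)
  have e8 : ∑ a ∈ range N, ∑ b ∈ range N,
      (eG (a + b) * ga μ N a b + 2 * eK (a + (N - 1 - b)) * be μ N a b) =
      ∫ p, ∑ a ∈ range N, ∑ b ∈ range N,
        (eG (a + b) * (ph N a p.1 * ph N b p.2 * bb (uu N p.1) (1 - uu N p.2)) +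
          2 * eK (a + (N - 1 - b)) * (ph N a p.1 * ph N b p.2 * bb (uu N p.1) (uu N p.2)))
        ∂(μ.prod μ) := by
    rw [integral_finsetSum _ (fun a _ => integrable_finsetSum _ (fun b _ => I4 a b))]
    refine Finset.sum_congr rfl fun a _ => ?_
    rw [integral_finsetSum _ (fun b _ => I4 a b)]
    refine Finset.sum_congr rfl fun b _ => ?_
    rw [integral_add ((ga_int μ N a b).const_mul _) ((be_int μ N a b).const_mul _),
      integral_const_mul, integral_const_mul]
    rfl
  have I3 : Integrable (fun p : ℝ × ℝ => ∑ a ∈ range N, ∑ b ∈ range N,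
        (eG (a + b) * (ph N a p.1 * ph N b p.2 * bb (uu N p.1) (1 - uu N p.2)) +
          2 * eK (a + (N - 1 - b)) * (ph N a p.1 * ph N b p.2 * bb (uu N p.1) (uu N p.2))))
        (μ.prod μ) :=
    integrable_finsetSum _ (fun a _ => integrable_finsetSum _ (fun b _ => I4 a b))
  have hpt : ∀ᵐ p ∂(μ.prod μ),
      (∑ a ∈ range N, ∑ b ∈ range N,
        (eG (a + b) * (ph N a p.1 * ph N b p.2 * bb (uu N p.1) (1 - uu N p.2)) +
          2 * eK (a + (N - 1 - b)) * (ph N a p.1 * ph N b p.2 * bb (uu N p.1) (uu N p.2)))) +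
      (∑ i ∈ range (N + 1), ∑ j ∈ range (N + 1),
        (g (i + j) + 2 * K (i + (N - j))) * (hat (N * p.1 - i) * hat (N * p.2 - j))) ≤
      hs (2 * N + 1) G (N * (p.1 + p.2)) + 2 * hs (2 * N + 1) κ (N * (p.1 - p.2 + 1)) := by
    filter_upwards [hae1, hae2] with p hp1 hp2
    have c1 := cc_spec hN hp1
    have c2 := cc_spec hN hp2
    have c3 := cc_lt hN p.1
    have c4 := cc_lt hN p.2
    have q1 := pointwise2 g G hgG c3 c4 c1.1 c1.2 c2.1 c2.2
    have hb' : ((N - 1 - cc N p.2 : ℕ) : ℝ) = N - 1 - cc N p.2 := by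
      rw [Nat.cast_sub (by omega), Nat.cast_sub hN]; simp
    have q2 := pointwise2 (N := N) (s := N * p.1) (t := N * (1 - p.2)) (a := cc N p.1)
      (b := N - 1 - cc N p.2) K κ hK c3 (by omega) c1.1 c1.2
      (by rw [hb']; linarith [c2.2]) (by rw [hb']; linarith [c2.1])
    rw [hb'] at q2
    have e4 : (N:ℝ) * (p.1 - p.2 + 1) = N * p.1 + N * (1 - p.2) := by ring
    have e5 : (N:ℝ) * (p.1 + p.2) = N * p.1 + N * p.2 := by ring
    rw [e4, e5]
    have e6 : ∑ i ∈ range (N + 1), ∑ j ∈ range (N + 1),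
        K (i + j) * (hat (N * p.1 - i) * hat (N * (1 - p.2) - j)) =
        ∑ i ∈ range (N + 1), ∑ j ∈ range (N + 1),
        K (i + (N - j)) * (hat (N * p.1 - i) * hat (N * p.2 - j)) := by
      refine Finset.sum_congr rfl fun i _ => ?_
      rw [← Finset.sum_range_reflect]
      refine Finset.sum_congr rfl fun j hj => ?_
      have hj' : j ≤ N := by simpa [Nat.lt_succ_iff] using hj
      have e6 : ((N + 1 - 1 - j : ℕ) : ℝ) = N - j := by
        rw [Nat.add_sub_cancel, Nat.cast_sub hj']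
      have e7 : N + 1 - 1 - j = N - j := by omega
      rw [e6, e7]
      congr 2
      rw [hat_sub_comm]
      congr 1
      ring
    rw [e6] at q2
    have e7 : ∑ a ∈ range N, ∑ b ∈ range N,
        (eG (a + b) * (ph N a p.1 * ph N b p.2 * bb (uu N p.1) (1 - uu N p.2)) +
          2 * eK (a + (N - 1 - b)) * (ph N a p.1 * ph N b p.2 * bb (uu N p.1) (uu N p.2))) =
        eG (cc N p.1 + cc N p.2) * bb (uu N p.1) (1 - uu N p.2) +
          2 * eK (cc N p.1 + (N - 1 - cc N p.2)) * bb (uu N p.1) (uu N p.2) := by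
      rw [← ph_sum hN (fun a b => eG (a + b) * bb (uu N p.1) (1 - uu N p.2) +
          2 * eK (a + (N - 1 - b)) * bb (uu N p.1) (uu N p.2)) p.1 p.2]
      refine Finset.sum_congr rfl fun a _ => Finset.sum_congr rfl fun b _ => ?_
      ring
    rw [e7, uu_eq hN hp1, uu_eq hN hp2]
    have e9 : (1:ℝ) - (N * (1 - p.2) - (N - 1 - cc N p.2)) = N * p.2 - cc N p.2 := by ring
    rw [e9] at q2
    have e10 : ∑ i ∈ range (N + 1), ∑ j ∈ range (N + 1),
        (g (i + j) + 2 * K (i + (N - j))) * (hat (N * p.1 - i) * hat (N * p.2 - j)) =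
        (∑ i ∈ range (N + 1), ∑ j ∈ range (N + 1),
          g (i + j) * (hat (N * p.1 - i) * hat (N * p.2 - j))) +
        2 * ∑ i ∈ range (N + 1), ∑ j ∈ range (N + 1),
          K (i + (N - j)) * (hat (N * p.1 - i) * hat (N * p.2 - j)) := by
      rw [Finset.mul_sum, ← Finset.sum_add_distrib]
      refine Finset.sum_congr rfl fun i _ => ?_
      rw [Finset.mul_sum, ← Finset.sum_add_distrib]
      refine Finset.sum_congr rfl fun j _ => ?_
      ring
    rw [e10]
    simp only [heG, heK]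
    linarith
  have hint := integral_mono_ae (I3.add (keyI (fun i j => g (i + j) + 2 * K (i + (N - j)))))
    (I1.add (I2.const_mul 2)) hpt
  rw [integral_add' I3 (keyI _), integral_add' I1 (I2.const_mul 2), integral_const_mul,
    ← key, ← e8] at hint
  simp only
  linarith

end Pool.Agent.AutoConv
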