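import Pool.Agent.AutoConv.Sound2
import Pool.Agent.AutoConv.Disc3

/-!
# Autoconvolutions: the certificate checker for the refined discretisation
-/

namespace Pool.Agent.AutoConv

/-- nonnegativity of the first `m` signed digits of an integer in base `2 ^ 64`. -/
def nnOk (m : ℕ) : ℤ → Bool
  | .ofNat a => Nat.beq (Nat.land a (mask 63 64 m)) a
  | .negSucc _ => false

/-- digits `s, …, s + m - 1`. -/
def low (x s m : ℕ) : ℕ := Nat.mod (Nat.shiftRight x (Nat.mul 64 s)) (Nat.pow 2 (Nat.mul 64 m))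

/-- spaced form of a compact vector of 65 digits below `2 ^ 24`. -/
def spc (g : ℕ) : ℕ := Nat.land (Nat.mul g c24) m24

/-- base `2 ^ 64` form. -/
def cmp (g : ℕ) : ℕ := Nat.mod (spc g) dd2

/-- `x - y` as an integer. -/
def isub (x y : ℕ) : ℤ := Int.sub (Int.ofNat x) (Int.ofNat y)

/-- second difference condition `x₀ + 2 x₁ + x₂ ≤ 4 X₁ + (S₁ - S₀) + big` for 63 digits. -/
def d2Ok (x X S big : ℕ) : Bool :=
  nnOk 63 (isub (Nat.add (Nat.add (Nat.mul 4 (low X 1 63)) (low S 1 63)) big)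
    (Nat.add (Nat.add (Nat.add (low x 0 63) (Nat.mul 2 (low x 1 63))) (low x 2 63)) (low S 0 63)))

/-- `x ≤ X` digitwise. -/
def leOk (x X : ℕ) : Bool := nnOk 65 (isub (low X 0 65) (low x 0 65))

/-- `2 ^ 23 ≤ X` digitwise. -/
def posOk (X : ℕ) : Bool := nnOk 65 (isub (low X 0 65) (Nat.mul 8388608 (mask 1 64 65)))

/-- `S` is increasing (64 digits). -/
def monoOk (S : ℕ) : Bool := nnOk 63 (isub (low S 1 63) (low S 0 63))

/-- the budget condition. -/
def budOk (k κ SG SK : ℕ) : Bool :=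
  nnOk 32 (isub (Nat.add (Nat.add (Nat.mul (Nat.mul 8 (dg κ 32)) (mask 1 64 32)) (low SG 0 32))
      (Nat.mul 2 (low SK 0 32)))
    (Nat.add (Nat.add (Nat.mul (Nat.add (Nat.mul 2 (dg k 31)) (Nat.add (Nat.mul 4 (dg k 32))
      (Nat.mul 2 (dg k 33)))) (mask 1 64 32)) (low SG 32 32)) (Nat.mul 2 (low SK 32 32))))

/-- the increments of `S` are symmetric, with zero increment in the middle. -/
def palF (S k : ℕ) : Bool := Nat.beq (Nat.add (dg S k) (dg S (Nat.sub 63 k))) (dg S 63)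

def palOk (S : ℕ) : Bool := and (allF (palF S) 32) (Nat.beq (dg S 31) (dg S 32))

/-- sum of the 65 digits. -/
def sumD (x : ℕ) : ℕ := Nat.mod x 18446744073709551615

/-- sum of the squares of the digits. -/
def sumQ (z x : ℕ) : ℕ := Nat.mod (Nat.land (Nat.mul x z) (mask 64 4224 65))
  (Nat.sub (Nat.pow 2 4224) 1)

/-- sum of the products of consecutive digits. -/
def sumP (z x : ℕ) : ℕ := Nat.mod (Nat.land (Nat.shiftRight (Nat.mul x z) 64) (mask 64 4224 64))
  (Nat.sub (Nat.pow 2 4224) 1)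

/-- the objective test. -/
def obj3 (MN MD G κz κx v : ℕ) : Bool :=
  Nat.blt
    (Nat.add (Nat.add (Nat.add (Nat.mul (Nat.mul 786432 MN) (Nat.mul 2 (sumD G)))
      (Nat.mul (Nat.mul 192 MN) 68719476736))
      (Nat.mul (Nat.mul 2 MD) (Nat.add (Nat.add (Nat.mul 2 (sumQ κz κx)) (sumP κz κx))
        13510798882111488)))
      (Nat.mul (Nat.mul (Nat.mul 2 MD) 25165824) (Nat.add (dg κx 0) (dg κx 64))))
    (Nat.add (Nat.add (Nat.add (Nat.add (Nat.mul (Nat.mul 50331648 MD) v)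
      (Nat.mul (Nat.mul 786432 MN) 1073741824))
      (Nat.mul (Nat.mul (Nat.mul 2 MD) 25165824) (Nat.mul 2 (sumD κx))))
      (Nat.mul (Nat.mul 786432 MN) (Nat.add (dg G 0) (dg G 64))))
      (Nat.mul (Nat.mul 2 MD) (Nat.add (Nat.mul (dg κx 0) (dg κx 0)) (Nat.mul (dg κx 64) (dg κx 64)))))

def big3 : ℕ := Nat.pow 2 2024

/-- the vector part of the check. -/
def vec3 (MN MD gx kx Gx κz κx SG SK v : ℕ) : Bool :=
  and (leOk gx Gx) (and (posOk Gx) (and (monoOk SG) (and (d2Ok gx Gx SG 0)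
    (and (leOk kx κx) (and (monoOk SK) (and (palOk SK) (and (d2Ok kx κx SK big3)
      (and (budOk kx κx SG SK) (obj3 MN MD Gx κz κx v)))))))))

/-- the leaf check. -/
def leaf3 (MN MD : ℕ) (path : List (Bool × ℕ)) (B : List ℕ) (uw : List (ℕ × ℕ))
    (g k G κ SG SK v : ℕ) : Bool :=
  and (Nat.ble v 16777216) (and (Nat.ble path.length 60) (and (Nat.ble B.length 64)
    (and (vec3 MN MD (cmp g) (cmp k) (cmp G) (spc κ) (cmp κ) (cmp SG) (cmp SK) v)
      (matOk path B uw (cmp g) (cmp k) v))))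

end Pool.Agent.AutoConv
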