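import Mathlib

/-!
# Autoconvolutions of densities on the unit interval: definitions
-/

open MeasureTheory Set
open scoped ENNReal

namespace Pool.Agent.AutoConv

/-- `f` is a unit-interval density: Lebesgue integrable, nonnegative, zero outside the unit
interval and of integral one. -/
structure IsUnitIntervalDensity (f : ℝ → ℝ) : Prop where
  integrable : Integrable f
  nonneg : ∀ x, 0 ≤ f x
  eq_zero : ∀ x, x ∉ Icc (0:ℝ) 1 → f x = 0
  integral_eq_one : ∫ x, f x = 1

/-- the autoconvolution `(f * f) (x) = ∫ f (t) f (x - t) dt`. -/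
noncomputable def autoconv (f : ℝ → ℝ) (x : ℝ) : ℝ := ∫ t, f t * f (x - t)

/-- `c(p)`: the infimum of the `L^p` norms (in `[0,∞]`) of the autoconvolutions of
unit-interval densities. -/
noncomputable def minNorm (p : ℝ≥0∞) : ℝ≥0∞ :=
  ⨅ (f : ℝ → ℝ) (_ : IsUnitIntervalDensity f), eLpNorm (autoconv f) p volume

end Pool.Agent.AutoConv
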