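import Pool.Agent.AutoConv.Basic

/-!
# Autoconvolutions: discretisation by hat functions
-/

open MeasureTheory Set Finset
open scoped ENNReal

namespace Pool.Agent.AutoConv

/-- the hat function. -/
noncomputable def hat (s : ℝ) : ℝ := max 0 (1 - |s|)

/-- piecewise linear interpolation of `c` at the nodes `0, …, n - 1`. -/
noncomputable def hs (n : ℕ) (c : ℕ → ℝ) (s : ℝ) : ℝ := ∑ k ∈ range n, c k * hat (s - k)

lemma hat_nonneg (s : ℝ) : 0 ≤ hat s := le_max_left _ _

lemma hat_le_one (s : ℝ) : hat s ≤ 1 := by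
  unfold hat
  apply max_le (by norm_num)
  linarith [abs_nonneg s]

lemma hat_neg (s : ℝ) : hat (-s) = hat s := by simp [hat]

lemma hat_sub_comm (s t : ℝ) : hat (s - t) = hat (t - s) := by
  rw [← hat_neg]; congr 1; ring

@[fun_prop]
lemma continuous_hat : Continuous hat := by
  unfold hat
  fun_prop

lemma continuous_hs (n : ℕ) (c : ℕ → ℝ) : Continuous (hs n c) := by
  unfold hs
  fun_prop

lemma hs_cell {n : ℕ} (c : ℕ → ℝ) {k : ℕ} (hk : k + 1 < n) {s : ℝ} (h0 : (k:ℝ) ≤ s)
    (h1 : s ≤ k + 1) : hs n c s = (k + 1 - s) * c k + (s - k) * c (k + 1) := by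
  unfold hs
  have : ∀ i ∈ range n, c i * hat (s - i) =
      (if i = k then (k + 1 - s) * c k else 0) + (if i = k + 1 then (s - k) * c (k + 1) else 0) := by
    intro i _
    by_cases hi : i = k
    · subst hi
      have : hat (s - i) = i + 1 - s := by
        unfold hat
        rw [abs_of_nonneg (by linarith), max_eq_right (by linarith)]
        ring
      rw [this]
      simp [mul_comm]
    · by_cases hi2 : i = k + 1
      · subst hi2
        have : hat (s - (k + 1 : ℕ)) = s - k := by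
          unfold hat
          push_cast
          rw [abs_of_nonpos (by linarith), max_eq_right (by linarith)]
          ring
        rw [this]
        simp [mul_comm]
      · have : hat (s - i) = 0 := by
          unfold hat
          apply max_eq_left
          rcases lt_or_gt_of_ne hi with h | h
          · have : (i:ℝ) + 1 ≤ k := by exact_mod_cast h
            have := le_abs_self (s - i)
            linarith
          · have : (k:ℝ) + 2 ≤ i := by
              have : k + 2 ≤ i := by omega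
              exact_mod_cast this
            have := neg_abs_le (s - i)
            linarith
        rw [this]
        simp [hi, hi2]
  rw [Finset.sum_congr rfl this, Finset.sum_add_distrib, Finset.sum_ite_eq', Finset.sum_ite_eq']
  rw [if_pos (by simp; omega), if_pos (by simp; omega)]

lemma exists_cell {N : ℕ} (hN : 1 ≤ N) {s : ℝ} (h0 : 0 ≤ s) (h1 : s ≤ N) :
    ∃ k < N, (k:ℝ) ≤ s ∧ s ≤ k + 1 := by
  rcases lt_or_eq_of_le h1 with h | h
  · refine ⟨⌊s⌋₊, ?_, Nat.floor_le h0, (Nat.lt_floor_add_one s).le⟩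
    exact (Nat.floor_lt h0).2 h
  · refine ⟨N - 1, by omega, ?_, ?_⟩
    · rw [h]; exact_mod_cast Nat.sub_le N 1
    · rw [h]
      have : N = (N - 1) + 1 := by omega
      exact_mod_cast this.le

lemma hs_one {N : ℕ} (hN : 1 ≤ N) {s : ℝ} (h0 : 0 ≤ s) (h1 : s ≤ N) :
    ∑ i ∈ range (N + 1), hat (s - i) = 1 := by
  obtain ⟨k, hk, hk0, hk1⟩ := exists_cell hN h0 h1
  have := hs_cell (n := N + 1) (fun _ => 1) (by omega) hk0 hk1
  unfold hs at this
  simp only [one_mul] at this
  rw [this]; ring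

/-- the discretised bilinear form is below the piecewise linear function. -/
lemma pointwise {N : ℕ} (hN : 1 ≤ N) (g G : ℕ → ℝ) (h0 : ∀ k ≤ 2 * N, g k ≤ G k)
    (h1 : ∀ k, k + 2 ≤ 2 * N → g k + 2 * g (k + 1) + g (k + 2) ≤ 4 * G (k + 1))
    {s t : ℝ} (hs0 : 0 ≤ s) (hs1 : s ≤ N) (ht0 : 0 ≤ t) (ht1 : t ≤ N) :
    ∑ i ∈ range (N + 1), ∑ j ∈ range (N + 1), g (i + j) * (hat (s - i) * hat (t - j)) ≤
      hs (2 * N + 1) G (s + t) := by
  obtain ⟨a, ha, ha0, ha1⟩ := exists_cell hN hs0 hs1
  obtain ⟨b, hb, hb0, hb1⟩ := exists_cell hN ht0 ht1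
  have e1 : ∑ i ∈ range (N + 1), ∑ j ∈ range (N + 1), g (i + j) * (hat (s - i) * hat (t - j)) =
      hs (N + 1) (fun i => hs (N + 1) (fun j => g (i + j)) t) s := by
    unfold hs
    refine Finset.sum_congr rfl fun i _ => ?_
    rw [Finset.sum_mul]
    refine Finset.sum_congr rfl fun j _ => ?_
    ring
  rw [e1, hs_cell _ (by omega) ha0 ha1, hs_cell _ (by omega) hb0 hb1,
    hs_cell _ (by omega) hb0 hb1]
  have r1 : a + 1 + b = a + b + 1 := by ring
  have r2 : a + 1 + (b + 1) = a + b + 2 := by ring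
  have r3 : a + (b + 1) = a + b + 1 := by ring
  rw [r1, r2, r3]
  set u : ℝ := s - a with hu
  set w : ℝ := t - b with hw
  have hu0 : 0 ≤ u := by linarith
  have hu1 : u ≤ 1 := by linarith
  have hw0 : 0 ≤ w := by linarith
  have hw1 : w ≤ 1 := by linarith
  have hsu : (a:ℝ) + 1 - s = 1 - u := by rw [hu]; ring
  have htw : (b:ℝ) + 1 - t = 1 - w := by rw [hw]; ring
  rw [hsu, htw]
  have g0 := h0 (a + b) (by omega)
  have g1 := h0 (a + b + 1) (by omega)
  have g2 := h0 (a + b + 2) (by omega)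
  have g3 := h1 (a + b) (by omega)
  have hst : s + t = (a + b : ℕ) + (u + w) := by push_cast; rw [hu, hw]; ring
  rcases le_total (u + w) 1 with h | h
  · rw [hs_cell (n := 2 * N + 1) G (k := a + b) (by omega) (by rw [hst]; linarith)
      (by rw [hst]; linarith)]
    rw [hst]
    have e : ((a + b : ℕ) : ℝ) + 1 - ((a + b : ℕ) + (u + w)) = 1 - (u + w) := by ring
    have e' : ((a + b : ℕ) : ℝ) + (u + w) - (a + b : ℕ) = u + w := by ring
    rw [e, e']
    generalize g (a + b) = x at *
    generalize g (a + b + 1) = y at *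
    generalize g (a + b + 2) = z at *
    generalize G (a + b) = X at *
    generalize G (a + b + 1) = Y at *
    have huw : 4 * (u * w) ≤ u + w := by nlinarith [sq_nonneg (u - w)]
    have huw0 : 0 ≤ u * w := mul_nonneg hu0 hw0
    have k1 : (1 - (u + w)) * x ≤ (1 - (u + w)) * X := mul_le_mul_of_nonneg_left g0 (by linarith)
    have k2 : 0 ≤ (u + w - 4 * (u * w)) * (Y - y) :=
      mul_nonneg (by linarith) (by linarith)
    have k3 : 0 ≤ (u * w) * (4 * Y - (x + 2 * y + z)) := mul_nonneg huw0 (by linarith)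
    linarith
  · have hk : a + b + 1 + 1 < 2 * N + 1 := by omega
    rw [hs_cell (n := 2 * N + 1) G (k := a + b + 1) hk (by rw [hst]; push_cast; linarith)
      (by rw [hst]; push_cast; linarith)]
    rw [hst]
    have e : ((a + b + 1 : ℕ) : ℝ) + 1 - ((a + b : ℕ) + (u + w)) = 2 - (u + w) := by
      push_cast; ring
    have e' : ((a + b : ℕ) : ℝ) + (u + w) - (a + b + 1 : ℕ) = u + w - 1 := by
      push_cast; ring
    rw [e, e']
    generalize g (a + b) = x at *
    generalize g (a + b + 1) = y at *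
    generalize g (a + b + 2) = z at *
    generalize G (a + b + 1) = Y at *
    have : G (a + b + 1 + 1) = G (a + b + 2) := rfl
    rw [this]
    generalize G (a + b + 2) = Z at *
    set p := 1 - u with hp
    set q := 1 - w with hq
    have hu' : u = 1 - p := by rw [hp]; ring
    have hw' : w = 1 - q := by rw [hq]; ring
    have hp0 : 0 ≤ p := by linarith
    have hq0 : 0 ≤ q := by linarith
    have hpq1 : p + q ≤ 1 := by linarith
    rw [hu', hw']
    have huw : 4 * (p * q) ≤ p + q := by nlinarith [sq_nonneg (p - q)]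
    have huw0 : 0 ≤ p * q := mul_nonneg hp0 hq0
    have k1 : (1 - (p + q)) * z ≤ (1 - (p + q)) * Z := mul_le_mul_of_nonneg_left g2 (by linarith)
    have k2 : 0 ≤ (p + q - 4 * (p * q)) * (Y - y) :=
      mul_nonneg (by linarith) (by linarith)
    have k3 : 0 ≤ (p * q) * (4 * Y - (x + 2 * y + z)) := mul_nonneg huw0 (by linarith)
    linarith

lemma int_lin (a b α β : ℝ) :
    ∫ x in a..b, (α + β * (x - a)) = α * (b - a) + β * (b - a) ^ 2 / 2 := by
  have h : ∀ x ∈ Set.uIcc a b, HasDerivAt (fun x => α * (x - a) + β * (x - a) ^ 2 / 2)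
      (α + β * (x - a)) x := by
    intro x _
    have h1 : HasDerivAt (fun x => x - a) 1 x := (hasDerivAt_id x).sub_const a
    have h2 := (h1.const_mul α).add (((h1.pow 2).const_mul β).div_const 2)
    refine h2.congr_deriv ?_
    push_cast
    ring
  rw [intervalIntegral.integral_eq_sub_of_hasDerivAt h]
  · ring
  · apply Continuous.intervalIntegrable; fun_prop

lemma int_lin_sq (a b α β : ℝ) :
    ∫ x in a..b, (α + β * (x - a)) ^ 2 =
      α ^ 2 * (b - a) + α * β * (b - a) ^ 2 + β ^ 2 * (b - a) ^ 3 / 3 := by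
  have h : ∀ x ∈ Set.uIcc a b, HasDerivAt
      (fun x => α ^ 2 * (x - a) + α * β * (x - a) ^ 2 + β ^ 2 * (x - a) ^ 3 / 3)
      ((α + β * (x - a)) ^ 2) x := by
    intro x _
    have h1 : HasDerivAt (fun x => x - a) 1 x := (hasDerivAt_id x).sub_const a
    have h2 := ((h1.const_mul (α ^ 2)).add ((h1.pow 2).const_mul (α * β))).add
      (((h1.pow 3).const_mul (β ^ 2)).div_const 3)
    refine h2.congr_deriv ?_
    push_cast
    ring
  rw [intervalIntegral.integral_eq_sub_of_hasDerivAt h]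
  · ring
  · apply Continuous.intervalIntegrable; fun_prop

lemma cell_eq {N : ℕ} (hN : 1 ≤ N) (G : ℕ → ℝ) {k : ℕ} (hk : k < 2 * N) {x : ℝ}
    (hx : x ∈ Set.uIcc ((k:ℝ) / N) (((k + 1 : ℕ):ℝ) / N)) :
    hs (2 * N + 1) G (N * x) = G k + (N * (G (k + 1) - G k)) * (x - (k:ℝ) / N) := by
  have hN0 : (0:ℝ) < N := by exact_mod_cast hN
  rw [Set.uIcc_of_le (by apply div_le_div_of_nonneg_right _ hN0.le; push_cast; linarith)] at hx
  have h0 : (k:ℝ) ≤ N * x := by
    have := (div_le_iff₀ hN0).1 hx.1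
    linarith
  have h1 : N * x ≤ (k:ℝ) + 1 := by
    have := (le_div_iff₀ hN0).1 hx.2
    push_cast at this
    linarith
  rw [hs_cell G (by omega) h0 h1]
  field_simp
  ring

lemma int_hs {N : ℕ} (hN : 1 ≤ N) (G : ℕ → ℝ) :
    ∫ x in (0:ℝ)..2, hs (2 * N + 1) G (N * x) =
      (∑ k ∈ range (2 * N), (G k + G (k + 1))) / (2 * N) := by
  have hN0 : (0:ℝ) < N := by exact_mod_cast hN
  have h := intervalIntegral.sum_integral_adjacent_intervals
    (f := fun x => hs (2 * N + 1) G (N * x)) (μ := volume) (a := fun k : ℕ => (k:ℝ) / N)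
    (n := 2 * N) (fun k _ => ((continuous_hs _ _).comp (by fun_prop)).intervalIntegrable _ _)
  have e2 : ((2 * N : ℕ):ℝ) / N = 2 := by push_cast; field_simp
  have e0 : ((0 : ℕ):ℝ) / N = 0 := by simp
  rw [e2, e0] at h
  rw [← h, Finset.sum_div]
  refine Finset.sum_congr rfl fun k hk => ?_
  rw [intervalIntegral.integral_congr (fun x hx => cell_eq hN G (by simpa using hk) hx), int_lin]
  push_cast
  field_simp
  ring

lemma int_hs_sq {N : ℕ} (hN : 1 ≤ N) (G : ℕ → ℝ) :
    ∫ x in (0:ℝ)..2, hs (2 * N + 1) G (N * x) ^ 2 =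
      (∑ k ∈ range (2 * N), (G k ^ 2 + G k * G (k + 1) + G (k + 1) ^ 2)) / (3 * N) := by
  have hN0 : (0:ℝ) < N := by exact_mod_cast hN
  have h := intervalIntegral.sum_integral_adjacent_intervals
    (f := fun x => hs (2 * N + 1) G (N * x) ^ 2) (μ := volume) (a := fun k : ℕ => (k:ℝ) / N)
    (n := 2 * N) (fun k _ => (((continuous_hs _ _).comp (by fun_prop)).pow 2).intervalIntegrable _ _)
  have e2 : ((2 * N : ℕ):ℝ) / N = 2 := by push_cast; field_simp
  have e0 : ((0 : ℕ):ℝ) / N = 0 := by simp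
  rw [e2, e0] at h
  rw [← h, Finset.sum_div]
  refine Finset.sum_congr rfl fun k hk => ?_
  rw [intervalIntegral.integral_congr (g := fun x => (G k + (N * (G (k + 1) - G k)) *
    (x - (k:ℝ) / N)) ^ 2) (fun x hx => by
      simp only
      rw [cell_eq hN G (by simpa using hk) hx]), int_lin_sq]
  push_cast
  field_simp
  ring

/-- The discrete consequences: `m` is a probability vector on `N + 1` nodes satisfying all
the bilinear inequalities. -/
def Good (N : ℕ) (M : ℝ) (m : ℕ → ℝ) : Prop :=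
  (∀ i, 0 ≤ m i) ∧ (∑ i ∈ range (N + 1), m i = 1) ∧
  ∀ g G K κ : ℕ → ℝ,
    (∀ k ≤ 2 * N, 0 ≤ G k) → (∀ k ≤ 2 * N, g k ≤ G k) →
    (∀ k, k + 2 ≤ 2 * N → g k + 2 * g (k + 1) + g (k + 2) ≤ 4 * G (k + 1)) →
    (∀ k ≤ 2 * N, K k ≤ κ k) →
    (∀ k, k + 2 ≤ 2 * N → K k + 2 * K (k + 1) + K (k + 2) ≤ 4 * κ (k + 1)) →
    ∑ i ∈ range (N + 1), ∑ j ∈ range (N + 1), (g (i + j) + 2 * K (i + (N - j))) * (m i * m j) ≤
      M * ((∑ k ∈ range (2 * N), (G k + G (k + 1))) / (2 * N)) + M +
        (∑ k ∈ range (2 * N), (κ k ^ 2 + κ k * κ (k + 1) + κ (k + 1) ^ 2)) / (3 * N)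

lemma hs_nonneg {n : ℕ} {c : ℕ → ℝ} (h : ∀ k < n, 0 ≤ c k) (s : ℝ) : 0 ≤ hs n c s := by
  unfold hs
  apply Finset.sum_nonneg
  intro k hk
  exact mul_nonneg (h k (by simpa using hk)) (hat_nonneg _)

lemma ae_mu {M : ℝ} {G : ℝ → ℝ≥0∞} (h : Dens M G) : ∀ᵐ x ∂(mu G), x ∈ Icc (0:ℝ) 1 := by
  unfold mu
  rw [ae_withDensity_iff h.meas]
  apply Filter.Eventually.of_forall
  intro x hx
  by_contra hx'
  exact hx (h.zero x hx')

theorem good_of_dens {N : ℕ} (hN : 1 ≤ N) {M : ℝ} {D : ℝ → ℝ≥0∞} (h : Dens M D) :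
    Good N M (fun i => ∫ x, hat (N * x - i) ∂(mu D)) := by
  have := prob_mu h
  set μ := mu D with hμ
  have hbI : ∀ (i : ℕ), Integrable (fun x : ℝ => hat (N * x - i)) μ := by
    intro i
    apply Integrable.of_bound (C := 1)
    · apply Continuous.aestronglyMeasurable; fun_prop
    · apply Filter.Eventually.of_forall
      intro x
      rw [Real.norm_eq_abs, abs_of_nonneg (hat_nonneg _)]
      exact hat_le_one _
  have hae1 : ∀ᵐ p ∂(μ.prod μ), p.1 ∈ Icc (0:ℝ) 1 :=
    Measure.quasiMeasurePreserving_fst.ae (ae_mu h)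
  have hae2 : ∀ᵐ p ∂(μ.prod μ), p.2 ∈ Icc (0:ℝ) 1 :=
    Measure.quasiMeasurePreserving_snd.ae (ae_mu h)
  have hN0 : (0:ℝ) < N := by exact_mod_cast hN
  have hdiv : ∀ x ∈ Icc (0:ℝ) 1, 0 ≤ (N:ℝ) * x ∧ (N:ℝ) * x ≤ N := by
    intro x hx
    exact ⟨mul_nonneg hN0.le hx.1, by nlinarith [hx.2]⟩
  refine ⟨fun i => integral_nonneg fun x => hat_nonneg _, ?_, ?_⟩
  · rw [← integral_finsetSum _ (fun i _ => hbI i)]
    have : ∀ᵐ x ∂μ, ∑ i ∈ range (N + 1), hat (N * x - i) = 1 := by
      filter_upwards [ae_mu h] with x hx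
      exact hs_one hN (hdiv x hx).1 (hdiv x hx).2
    rw [integral_congr_ae this]
    simp
  · intro g G K κ hG0 hgG hgG2 hK hK2
    have key : ∀ c : ℕ → ℕ → ℝ, ∑ i ∈ range (N + 1), ∑ j ∈ range (N + 1),
        c i j * ((∫ x, hat (N * x - i) ∂μ) * (∫ x, hat (N * x - j) ∂μ)) =
        ∫ p, ∑ i ∈ range (N + 1), ∑ j ∈ range (N + 1),
          c i j * (hat (N * p.1 - i) * hat (N * p.2 - j)) ∂(μ.prod μ) := by
      intro c
      have hI : ∀ i j : ℕ, Integrable
          (fun p : ℝ × ℝ => c i j * (hat (N * p.1 - i) * hat (N * p.2 - j))) (μ.prod μ) := by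
        intro i j
        exact ((hbI i).mul_prod (hbI j)).const_mul _
      rw [integral_finsetSum _ (fun i _ => integrable_finsetSum _ (fun j _ => hI i j))]
      refine Finset.sum_congr rfl fun i _ => ?_
      rw [integral_finsetSum _ (fun j _ => hI i j)]
      refine Finset.sum_congr rfl fun j _ => ?_
      rw [integral_const_mul, integral_prod_mul (fun x => hat (N * x - i))
        (fun x => hat (N * x - j))]
    have keyI : ∀ c : ℕ → ℕ → ℝ, Integrable (fun p : ℝ × ℝ => ∑ i ∈ range (N + 1),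
        ∑ j ∈ range (N + 1), c i j * (hat (N * p.1 - i) * hat (N * p.2 - j))) (μ.prod μ) := by
      intro c
      refine integrable_finsetSum _ fun i _ => integrable_finsetSum _ fun j _ => ?_
      exact ((hbI i).mul_prod (hbI j)).const_mul _
    have hbd : ∀ (n : ℕ) (c : ℕ → ℝ) (s : ℝ), ‖hs n c s‖ ≤ ∑ k ∈ range n, |c k| := by
      intro n c s
      unfold hs
      refine le_trans (norm_sum_le _ _) (Finset.sum_le_sum fun k _ => ?_)
      rw [norm_mul, Real.norm_eq_abs, Real.norm_eq_abs, abs_of_nonneg (hat_nonneg _)]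
      nlinarith [hat_le_one (s - k), abs_nonneg (c k)]
    -- sum part
    have P1 : ∑ i ∈ range (N + 1), ∑ j ∈ range (N + 1),
        g (i + j) * ((∫ x, hat (N * x - i) ∂μ) * (∫ x, hat (N * x - j) ∂μ)) ≤
        M * ((∑ k ∈ range (2 * N), (G k + G (k + 1))) / (2 * N)) := by
      rw [key (fun i j => g (i + j)), ← int_hs hN G]
      refine le_trans ?_ (int_sum_le h (Φ := fun x => hs (2 * N + 1) G (N * x))
        ((continuous_hs _ _).comp (by fun_prop)) ?_)
      · apply integral_mono_ae (keyI _)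
        · apply Integrable.of_bound (C := ∑ k ∈ range (2 * N + 1), |G k|)
          · apply Continuous.aestronglyMeasurable
            exact (continuous_hs _ _).comp (by fun_prop)
          · exact Filter.Eventually.of_forall fun p => hbd _ _ _
        · filter_upwards [hae1, hae2] with p hp1 hp2
          have := pointwise hN g G hgG hgG2 (hdiv _ hp1).1 (hdiv _ hp1).2 (hdiv _ hp2).1
            (hdiv _ hp2).2
          rw [mul_add]
          exact this
      · intro x _
        apply hs_nonneg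
        intro k hk
        exact hG0 k (by omega)
    have P2 : 2 * ∑ i ∈ range (N + 1), ∑ j ∈ range (N + 1),
        K (i + (N - j)) * ((∫ x, hat (N * x - i) ∂μ) * (∫ x, hat (N * x - j) ∂μ)) ≤
        (∑ k ∈ range (2 * N), (κ k ^ 2 + κ k * κ (k + 1) + κ (k + 1) ^ 2)) / (3 * N) + M := by
      rw [key (fun i j => K (i + (N - j))), ← int_hs_sq hN κ]
      have e3 : ∫ x in (0:ℝ)..2, hs (2 * N + 1) κ (N * x) ^ 2 =
          ∫ x in (-1:ℝ)..1, hs (2 * N + 1) κ (N * (x + 1)) ^ 2 := by
        rw [intervalIntegral.integral_comp_add_right (fun x => hs (2 * N + 1) κ (N * x) ^ 2)]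
        norm_num
      rw [e3]
      refine le_trans ?_ (int_diff_le h (Φ := fun x => hs (2 * N + 1) κ (N * (x + 1)))
        ((continuous_hs _ _).comp (by fun_prop)))
      apply mul_le_mul_of_nonneg_left _ (by norm_num)
      apply integral_mono_ae (keyI _)
      · apply Integrable.of_bound (C := ∑ k ∈ range (2 * N + 1), |κ k|)
        · apply Continuous.aestronglyMeasurable
          exact (continuous_hs _ _).comp (by fun_prop)
        · exact Filter.Eventually.of_forall fun p => hbd _ _ _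
      · filter_upwards [hae1, hae2] with p hp1 hp2
        have hp2' : (1 - p.2) ∈ Icc (0:ℝ) 1 := ⟨by linarith [hp2.2], by linarith [hp2.1]⟩
        have := pointwise hN K κ hK hK2 (hdiv _ hp1).1 (hdiv _ hp1).2 (hdiv _ hp2').1
            (hdiv _ hp2').2
        have e4 : (N:ℝ) * (p.1 - p.2 + 1) = N * p.1 + N * (1 - p.2) := by ring
        rw [e4]
        refine le_trans (le_of_eq ?_) this
        refine Finset.sum_congr rfl fun i _ => ?_
        rw [← Finset.sum_range_reflect]
        refine Finset.sum_congr rfl fun j hj => ?_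
        have hj' : j ≤ N := by simpa [Nat.lt_succ_iff] using hj
        have e5 : N - (N + 1 - 1 - j) = j := by omega
        have e6 : ((N + 1 - 1 - j : ℕ) : ℝ) = N - j := by
          rw [Nat.add_sub_cancel, Nat.cast_sub hj']
        rw [e5, e6]
        congr 2
        rw [hat_sub_comm]
        congr 1
        ring
    have e7 : ∑ i ∈ range (N + 1), ∑ j ∈ range (N + 1), (g (i + j) + 2 * K (i + (N - j))) *
        ((fun i : ℕ => ∫ x, hat (N * x - i) ∂μ) i * (fun i : ℕ => ∫ x, hat (N * x - i) ∂μ) j) =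
        (∑ i ∈ range (N + 1), ∑ j ∈ range (N + 1),
          g (i + j) * ((∫ x, hat (N * x - i) ∂μ) * (∫ x, hat (N * x - j) ∂μ))) +
        2 * ∑ i ∈ range (N + 1), ∑ j ∈ range (N + 1),
          K (i + (N - j)) * ((∫ x, hat (N * x - i) ∂μ) * (∫ x, hat (N * x - j) ∂μ)) := by
      rw [Finset.mul_sum, ← Finset.sum_add_distrib]
      refine Finset.sum_congr rfl fun i _ => ?_
      rw [Finset.mul_sum, ← Finset.sum_add_distrib]
      refine Finset.sum_congr rfl fun j _ => ?_
      ring
    rw [e7]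
    linarith

end Pool.Agent.AutoConv
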