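import Pool.Agent.AutoConv.Disc
import Pool.Agent.AutoConv.Bridge

/-!
# Autoconvolutions: refined discretisation

The defect of the bilinear interpolation inside a pair of cells is a multiple of the
Brownian bridge kernel; the defects of different cell pairs are compared by Cauchy–Schwarz.
-/

open MeasureTheory Set Finset
open scoped ENNReal

namespace Pool.Agent.AutoConv

/-- the bilinear interpolation is below the piecewise linear function, with a defect which is
at least a multiple of the bridge kernel. -/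
lemma pointwise2 {N : ℕ} (g G : ℕ → ℝ) (h0 : ∀ k ≤ 2 * N, g k ≤ G k)
    {s t : ℝ} {a b : ℕ} (ha : a < N) (hb : b < N) (ha0 : (a:ℝ) ≤ s) (ha1 : s ≤ a + 1)
    (hb0 : (b:ℝ) ≤ t) (hb1 : t ≤ b + 1) :
    ∑ i ∈ range (N + 1), ∑ j ∈ range (N + 1), g (i + j) * (hat (s - i) * hat (t - j)) +
      (4 * G (a + b + 1) - (g (a + b) + 2 * g (a + b + 1) + g (a + b + 2))) *
        bb (s - a) (1 - (t - b)) ≤
      hs (2 * N + 1) G (s + t) := by
  have e1 : ∑ i ∈ range (N + 1), ∑ j ∈ range (N + 1), g (i + j) * (hat (s - i) * hat (t - j)) =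
      hs (N + 1) (fun i => hs (N + 1) (fun j => g (i + j)) t) s := by
    unfold hs
    refine Finset.sum_congr rfl fun i _ => ?_
    rw [Finset.sum_mul]
    refine Finset.sum_congr rfl fun j _ => ?_
    ring
  rw [e1, hs_cell _ (by omega) ha0 ha1, hs_cell _ (by omega) hb0 hb1,
    hs_cell _ (by omega) hb0 hb1]
  have r1 : a + 1 + b = a + b + 1 := by ring
  have r2 : a + 1 + (b + 1) = a + b + 2 := by ring
  have r3 : a + (b + 1) = a + b + 1 := by ring
  rw [r1, r2, r3]
  set u : ℝ := s - a with hu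
  set w : ℝ := t - b with hw
  have hu0 : 0 ≤ u := by linarith
  have hu1 : u ≤ 1 := by linarith
  have hw0 : 0 ≤ w := by linarith
  have hw1 : w ≤ 1 := by linarith
  have hsu : (a:ℝ) + 1 - s = 1 - u := by rw [hu]; ring
  have htw : (b:ℝ) + 1 - t = 1 - w := by rw [hw]; ring
  rw [hsu, htw]
  have g0 := h0 (a + b) (by omega)
  have g1 := h0 (a + b + 1) (by omega)
  have g2 := h0 (a + b + 2) (by omega)
  have hst : s + t = (a + b : ℕ) + (u + w) := by push_cast; rw [hu, hw]; ring
  unfold bb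
  rcases le_total (u + w) 1 with h | h
  · rw [hs_cell (n := 2 * N + 1) G (k := a + b) (by omega) (by rw [hst]; linarith)
      (by rw [hst]; linarith)]
    rw [hst, min_eq_left (by linarith : u ≤ 1 - w)]
    have e : ((a + b : ℕ) : ℝ) + 1 - ((a + b : ℕ) + (u + w)) = 1 - (u + w) := by ring
    have e' : ((a + b : ℕ) : ℝ) + (u + w) - (a + b : ℕ) = u + w := by ring
    rw [e, e']
    generalize g (a + b) = x at *
    generalize g (a + b + 1) = y at *
    generalize g (a + b + 2) = z at *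
    generalize G (a + b) = X at *
    generalize G (a + b + 1) = Y at *
    have huw : 4 * (u * w) ≤ u + w := by nlinarith [sq_nonneg (u - w)]
    have k1 : 0 ≤ (1 - (u + w)) * (X - x) := mul_nonneg (by linarith) (by linarith)
    have k2 : 0 ≤ (u + w - 4 * (u * w)) * (Y - y) :=
      mul_nonneg (by linarith) (by linarith)
    linarith
  · have hk : a + b + 1 + 1 < 2 * N + 1 := by omega
    rw [hs_cell (n := 2 * N + 1) G (k := a + b + 1) hk (by rw [hst]; push_cast; linarith)
      (by rw [hst]; push_cast; linarith)]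
    rw [hst, min_eq_right (by linarith : 1 - w ≤ u)]
    have e : ((a + b + 1 : ℕ) : ℝ) + 1 - ((a + b : ℕ) + (u + w)) = 2 - (u + w) := by
      push_cast; ring
    have e' : ((a + b : ℕ) : ℝ) + (u + w) - (a + b + 1 : ℕ) = u + w - 1 := by
      push_cast; ring
    rw [e, e']
    generalize g (a + b) = x at *
    generalize g (a + b + 1) = y at *
    generalize g (a + b + 2) = z at *
    generalize G (a + b + 1) = Y at *
    have : G (a + b + 1 + 1) = G (a + b + 2) := rfl
    rw [this]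
    generalize G (a + b + 2) = Z at *
    set p := 1 - u with hp
    set q := 1 - w with hq
    have hu' : u = 1 - p := by rw [hp]; ring
    have hw' : w = 1 - q := by rw [hq]; ring
    have hp0 : 0 ≤ p := by linarith
    have hq0 : 0 ≤ q := by linarith
    have hpq1 : p + q ≤ 1 := by linarith
    rw [hu', hw']
    have huw : 4 * (p * q) ≤ p + q := by nlinarith [sq_nonneg (p - q)]
    have k1 : 0 ≤ (1 - (p + q)) * (Z - z) := mul_nonneg (by linarith) (by linarith)
    have k2 : 0 ≤ (p + q - 4 * (p * q)) * (Y - y) :=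
      mul_nonneg (by linarith) (by linarith)
    linarith

/-- the cell of a point. -/
noncomputable def cc (N : ℕ) (x : ℝ) : ℕ := min ⌊(N:ℝ) * x⌋₊ (N - 1)

/-- the relative position in the cell (clipped). -/
noncomputable def uu (N : ℕ) (x : ℝ) : ℝ := max 0 (min 1 (N * x - cc N x))

/-- the indicator of a cell. -/
noncomputable def ph (N a : ℕ) (x : ℝ) : ℝ := if cc N x = a then 1 else 0

lemma cc_lt {N : ℕ} (hN : 1 ≤ N) (x : ℝ) : cc N x < N :=
  lt_of_le_of_lt (min_le_right _ _) (by omega)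

lemma cc_spec {N : ℕ} (hN : 1 ≤ N) {x : ℝ} (hx : x ∈ Set.Icc (0:ℝ) 1) :
    (cc N x : ℝ) ≤ N * x ∧ (N:ℝ) * x ≤ cc N x + 1 := by
  have hN0 : (0:ℝ) < N := by exact_mod_cast hN
  have h0 : 0 ≤ (N:ℝ) * x := mul_nonneg hN0.le hx.1
  have h1 : (N:ℝ) * x ≤ N := by nlinarith [hx.2]
  constructor
  · refine le_trans ?_ (Nat.floor_le h0)
    exact_mod_cast min_le_left _ _
  · unfold cc
    rcases le_total ⌊(N:ℝ) * x⌋₊ (N - 1) with h | h
    · rw [min_eq_left h]
      exact (Nat.lt_floor_add_one _).le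
    · rw [min_eq_right h]
      have : ((N - 1 : ℕ) : ℝ) = N - 1 := by
        rw [Nat.cast_sub hN]; simp
      rw [this]; linarith

lemma uu_mem (N : ℕ) (x : ℝ) : uu N x ∈ Set.Icc (0:ℝ) 1 :=
  ⟨le_max_left _ _, max_le (by norm_num) (min_le_left _ _)⟩

lemma uu_eq {N : ℕ} (hN : 1 ≤ N) {x : ℝ} (hx : x ∈ Set.Icc (0:ℝ) 1) :
    uu N x = N * x - cc N x := by
  have h := cc_spec hN hx
  unfold uu
  rw [min_eq_right (by linarith [h.2]), max_eq_right (by linarith [h.1])]

lemma measurable_cc (N : ℕ) : Measurable (cc N) := by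
  unfold cc
  exact (Nat.measurable_floor.comp (measurable_id.const_mul _)).min measurable_const

lemma measurable_uu (N : ℕ) : Measurable (uu N) := by
  unfold uu
  apply Measurable.max measurable_const
  apply Measurable.min measurable_const
  apply Measurable.sub (measurable_id.const_mul _)
  exact (measurable_of_countable (fun n : ℕ => (n:ℝ))).comp (measurable_cc N)

lemma measurable_ph (N a : ℕ) : Measurable (ph N a) := by
  unfold ph
  apply Measurable.ite _ measurable_const measurable_const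
  exact (measurable_cc N) (measurableSet_singleton a)

lemma ph_abs (N a : ℕ) (x : ℝ) : |ph N a x| ≤ 1 := by
  unfold ph; split_ifs <;> simp

lemma bb_abs {u w : ℝ} (hu : u ∈ Set.Icc (0:ℝ) 1) (hw : w ∈ Set.Icc (0:ℝ) 1) : |bb u w| ≤ 1 := by
  unfold bb
  have h1 : 0 ≤ u * w := mul_nonneg hu.1 hw.1
  have h2 : u * w ≤ 1 := mul_le_one₀ hu.2 hw.1 hw.2
  have h3 : 0 ≤ min u w := le_min hu.1 hw.1
  have h4 : min u w ≤ 1 := (min_le_left _ _).trans hu.2
  rw [abs_le]; constructor <;> linarith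

lemma bb_pos {u w : ℝ} (hu : u ∈ Set.Icc (0:ℝ) 1) (hw : w ∈ Set.Icc (0:ℝ) 1) : 0 ≤ bb u w := by
  unfold bb
  rcases le_total u w with h | h
  · rw [min_eq_left h]; nlinarith [hu.1, hw.2]
  · rw [min_eq_right h]; nlinarith [hu.2, hw.1]

lemma measurable_bb : Measurable (fun p : ℝ × ℝ => bb p.1 p.2) := by
  unfold bb
  exact (measurable_fst.min measurable_snd).sub (measurable_fst.mul measurable_snd)

/-- The discrete consequences: `m` is a probability vector on `N + 1` nodes satisfying all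
the bilinear inequalities. -/
def Good2 (N : ℕ) (M : ℝ) (m : ℕ → ℝ) : Prop :=
  (∀ i, 0 ≤ m i) ∧ (∑ i ∈ range (N + 1), m i = 1) ∧
  ∀ g G K κ cG cK : ℕ → ℝ,
    (∀ k ≤ 2 * N, 0 ≤ G k) → (∀ k ≤ 2 * N, g k ≤ G k) → (∀ k, 0 ≤ cG k) →
    (∀ k, k + 2 ≤ 2 * N → g k + 2 * g (k + 1) + g (k + 2) ≤ 4 * G (k + 1) + cG k) →
    (∀ k ≤ 2 * N, K k ≤ κ k) → (∀ k, 0 ≤ cK k) → cK (N - 1) = 0 →
    (∀ k, k + 2 ≤ 2 * N → k + 1 ≠ N → K k + 2 * K (k + 1) + K (k + 2) ≤ 4 * κ (k + 1) + cK k) →
    (∀ a < N, ∑ b ∈ range N, (cG (a + b) + (cK (a + (N - 1 - b)) + cK (b + (N - 1 - a)))) ≤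
      2 * (4 * κ N - (K (N - 1) + 2 * K N + K (N + 1)))) →
    ∑ i ∈ range (N + 1), ∑ j ∈ range (N + 1), (g (i + j) + 2 * K (i + (N - j))) * (m i * m j) ≤
      M * ((∑ k ∈ range (2 * N), (G k + G (k + 1))) / (2 * N)) + M +
        (∑ k ∈ range (2 * N), (κ k ^ 2 + κ k * κ (k + 1) + κ (k + 1) ^ 2)) / (3 * N)

section
variable {M : ℝ} {D : ℝ → ℝ≥0∞}

/-- mixed bridge energies. -/
noncomputable def be (μ : Measure ℝ) (N a b : ℕ) : ℝ :=
  ∫ p, ph N a p.1 * ph N b p.2 * bb (uu N p.1) (uu N p.2) ∂(μ.prod μ)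

noncomputable def ga (μ : Measure ℝ) (N a b : ℕ) : ℝ :=
  ∫ p, ph N a p.1 * ph N b p.2 * bb (uu N p.1) (1 - uu N p.2) ∂(μ.prod μ)

lemma be_cs (μ : Measure ℝ) [IsProbabilityMeasure μ] (N a b : ℕ) :
    2 * be μ N a b ≤ be μ N a a + be μ N b b :=
  bb_cs (measurable_ph N a) (measurable_ph N b) (measurable_uu N) (measurable_uu N)
    (ph_abs N a) (ph_abs N b) (uu_mem N) (uu_mem N)

lemma one_sub_mem {u : ℝ} (h : u ∈ Set.Icc (0:ℝ) 1) : 1 - u ∈ Set.Icc (0:ℝ) 1 :=
  ⟨by linarith [h.2], by linarith [h.1]⟩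

lemma ga_cs (μ : Measure ℝ) [IsProbabilityMeasure μ] (N a b : ℕ) :
    2 * ga μ N a b ≤ be μ N a a + be μ N b b := by
  have hv : Measurable (fun x => 1 - uu N x) := measurable_const.sub (measurable_uu N)
  have h := bb_cs (μ := μ) (v := fun x => 1 - uu N x) (measurable_ph N a) (measurable_ph N b)
    (measurable_uu N) hv
    (ph_abs N a) (ph_abs N b) (uu_mem N) (fun x => one_sub_mem (uu_mem N x))
  have e : ∀ p : ℝ × ℝ, ph N b p.1 * ph N b p.2 * bb (1 - uu N p.1) (1 - uu N p.2) =
      ph N b p.1 * ph N b p.2 * bb (uu N p.1) (uu N p.2) := by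
    intro p; rw [bb_reflect]
  have e2 : ∫ p, ph N b p.1 * ph N b p.2 * bb (1 - uu N p.1) (1 - uu N p.2) ∂(μ.prod μ) =
      be μ N b b := integral_congr_ae (Filter.Eventually.of_forall e)
  calc 2 * ga μ N a b ≤ be μ N a a +
        ∫ p, ph N b p.1 * ph N b p.2 * bb (1 - uu N p.1) (1 - uu N p.2) ∂(μ.prod μ) := h
    _ = _ := by rw [e2]

lemma be_nonneg (μ : Measure ℝ) [IsProbabilityMeasure μ] (N a b : ℕ) : 0 ≤ be μ N a b := by
  apply integral_nonneg
  intro p
  have h1 : 0 ≤ ph N a p.1 := by unfold ph; split_ifs <;> norm_num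
  have h2 : 0 ≤ ph N b p.2 := by unfold ph; split_ifs <;> norm_num
  exact mul_nonneg (mul_nonneg h1 h2) (bb_pos (uu_mem N _) (uu_mem N _))

lemma ga_nonneg (μ : Measure ℝ) [IsProbabilityMeasure μ] (N a b : ℕ) : 0 ≤ ga μ N a b := by
  apply integral_nonneg
  intro p
  have h1 : 0 ≤ ph N a p.1 := by unfold ph; split_ifs <;> norm_num
  have h2 : 0 ≤ ph N b p.2 := by unfold ph; split_ifs <;> norm_num
  exact mul_nonneg (mul_nonneg h1 h2) (bb_pos (uu_mem N _) (one_sub_mem (uu_mem N _)))

lemma be_int (μ : Measure ℝ) [IsProbabilityMeasure μ] (N a b : ℕ) :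
    Integrable (fun p : ℝ × ℝ => ph N a p.1 * ph N b p.2 * bb (uu N p.1) (uu N p.2))
      (μ.prod μ) := by
  apply Integrable.of_bound (C := 1)
  · apply Measurable.aestronglyMeasurable
    exact (((measurable_ph N a).comp measurable_fst).mul
      ((measurable_ph N b).comp measurable_snd)).mul
      (measurable_bb.comp (((measurable_uu N).comp measurable_fst).prodMk
        ((measurable_uu N).comp measurable_snd)))
  · apply Filter.Eventually.of_forall
    intro p
    rw [norm_mul, norm_mul, Real.norm_eq_abs, Real.norm_eq_abs, Real.norm_eq_abs]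
    have h1 := ph_abs N a p.1
    have h2 := ph_abs N b p.2
    have h3 := bb_abs (uu_mem N p.1) (uu_mem N p.2)
    have h4 : |ph N a p.1| * |ph N b p.2| ≤ 1 := mul_le_one₀ h1 (abs_nonneg _) h2
    exact mul_le_one₀ h4 (abs_nonneg _) h3

lemma ga_int (μ : Measure ℝ) [IsProbabilityMeasure μ] (N a b : ℕ) :
    Integrable (fun p : ℝ × ℝ => ph N a p.1 * ph N b p.2 * bb (uu N p.1) (1 - uu N p.2))
      (μ.prod μ) := by
  apply Integrable.of_bound (C := 1)
  · apply Measurable.aestronglyMeasurable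
    exact (((measurable_ph N a).comp measurable_fst).mul
      ((measurable_ph N b).comp measurable_snd)).mul
      (measurable_bb.comp (((measurable_uu N).comp measurable_fst).prodMk
        (measurable_const.sub ((measurable_uu N).comp measurable_snd))))
  · apply Filter.Eventually.of_forall
    intro p
    rw [norm_mul, norm_mul, Real.norm_eq_abs, Real.norm_eq_abs, Real.norm_eq_abs]
    have h1 := ph_abs N a p.1
    have h2 := ph_abs N b p.2
    have h3 := bb_abs (uu_mem N p.1) (one_sub_mem (uu_mem N p.2))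
    have h4 : |ph N a p.1| * |ph N b p.2| ≤ 1 := mul_le_one₀ h1 (abs_nonneg _) h2
    exact mul_le_one₀ h4 (abs_nonneg _) h3

lemma ph_sum {N : ℕ} (hN : 1 ≤ N) (F : ℕ → ℕ → ℝ) (x y : ℝ) :
    ∑ a ∈ range N, ∑ b ∈ range N, F a b * (ph N a x * ph N b y) = F (cc N x) (cc N y) := by
  have e1 : ∀ a, ∑ b ∈ range N, F a b * (ph N a x * ph N b y) = F a (cc N y) * ph N a x := by
    intro a
    rw [Finset.sum_eq_single (cc N y)]
    · simp [ph]
    · intro b _ hb
      simp [ph, Ne.symm hb]
    · intro h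
      exact absurd (Finset.mem_range.2 (cc_lt hN y)) h
  simp_rw [e1]
  rw [Finset.sum_eq_single (cc N x)]
  · simp [ph]
  · intro b _ hb
    simp [ph, Ne.symm hb]
  · intro h
    exact absurd (Finset.mem_range.2 (cc_lt hN x)) h

/-- the defect sum is nonnegative. -/
lemma defect_nonneg (μ : Measure ℝ) [IsProbabilityMeasure μ] {N : ℕ} (hN : 1 ≤ N)
    (eG eK cG cK : ℕ → ℝ)
    (h1 : ∀ k, 0 ≤ cG k) (h2 : ∀ k, k + 2 ≤ 2 * N → - cG k ≤ eG k)
    (h3 : ∀ k, 0 ≤ cK k) (h30 : cK (N - 1) = 0)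
    (h4 : ∀ k, k + 2 ≤ 2 * N → k + 1 ≠ N → - cK k ≤ eK k)
    (h5 : ∀ a < N, ∑ b ∈ range N, (cG (a + b) + (cK (a + (N - 1 - b)) + cK (b + (N - 1 - a)))) ≤
      2 * eK (N - 1)) :
    0 ≤ ∑ a ∈ range N, ∑ b ∈ range N,
      (eG (a + b) * ga μ N a b + 2 * eK (a + (N - 1 - b)) * be μ N a b) := by
  have step1 : ∀ a ∈ range N, ∀ b ∈ range N,
      (if a = b then 2 * eK (N - 1) * be μ N a a else 0) -
        (cG (a + b) / 2 * (be μ N a a + be μ N b b) +
          cK (a + (N - 1 - b)) * (be μ N a a + be μ N b b)) ≤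
      eG (a + b) * ga μ N a b + 2 * eK (a + (N - 1 - b)) * be μ N a b := by
    intro a ha b hb
    have ha' : a < N := by simpa using ha
    have hb' : b < N := by simpa using hb
    have g1 := ga_cs μ N a b
    have g2 := ga_nonneg μ N a b
    have g3 := be_cs μ N a b
    have g4 := be_nonneg μ N a b
    have g5 := h1 (a + b)
    have g6 := h2 (a + b) (by omega)
    have k1 : - (cG (a + b) / 2 * (be μ N a a + be μ N b b)) ≤ eG (a + b) * ga μ N a b := by
      nlinarith [mul_le_mul_of_nonneg_right g6 g2, mul_le_mul_of_nonneg_left g1 g5]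
    by_cases hab : a = b
    · subst hab
      have e1 : a + (N - 1 - a) = N - 1 := by omega
      rw [e1, h30, if_pos rfl]
      linarith
    · rw [if_neg hab]
      have g7 := h3 (a + (N - 1 - b))
      have g8 := h4 (a + (N - 1 - b)) (by omega) (by omega)
      have k2 : - (cK (a + (N - 1 - b)) * (be μ N a a + be μ N b b)) ≤
          2 * eK (a + (N - 1 - b)) * be μ N a b := by
        nlinarith [mul_le_mul_of_nonneg_right g8 g4, mul_le_mul_of_nonneg_left g3 g7]
      linarith
  refine le_trans ?_ (Finset.sum_le_sum fun a ha => Finset.sum_le_sum fun b hb => step1 a ha b hb)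
  have e2 : ∑ a ∈ range N, ∑ b ∈ range N,
      ((if a = b then 2 * eK (N - 1) * be μ N a a else 0) -
        (cG (a + b) / 2 * (be μ N a a + be μ N b b) +
          cK (a + (N - 1 - b)) * (be μ N a a + be μ N b b))) =
      ∑ a ∈ range N, be μ N a a * (2 * eK (N - 1) -
        ∑ b ∈ range N, (cG (a + b) + (cK (a + (N - 1 - b)) + cK (b + (N - 1 - a))))) := by
    have s1 : ∑ a ∈ range N, ∑ b ∈ range N, (if a = b then 2 * eK (N - 1) * be μ N a a else 0) =
        ∑ a ∈ range N, be μ N a a * (2 * eK (N - 1)) := by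
      refine Finset.sum_congr rfl fun a ha => ?_
      rw [Finset.sum_ite_eq, if_pos ha]; ring
    have s2 : ∑ a ∈ range N, ∑ b ∈ range N, cG (a + b) / 2 * (be μ N a a + be μ N b b) =
        ∑ a ∈ range N, ∑ b ∈ range N, cG (a + b) * be μ N a a := by
      have t1 : ∑ a ∈ range N, ∑ b ∈ range N, cG (a + b) / 2 * (be μ N a a + be μ N b b) =
          (∑ a ∈ range N, ∑ b ∈ range N, cG (a + b) / 2 * be μ N a a) +
          ∑ a ∈ range N, ∑ b ∈ range N, cG (a + b) / 2 * be μ N b b := by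
        rw [← Finset.sum_add_distrib]
        refine Finset.sum_congr rfl fun a _ => ?_
        rw [← Finset.sum_add_distrib]
        refine Finset.sum_congr rfl fun b _ => ?_
        ring
      have t2 : ∑ a ∈ range N, ∑ b ∈ range N, cG (a + b) / 2 * be μ N b b =
          ∑ a ∈ range N, ∑ b ∈ range N, cG (a + b) / 2 * be μ N a a := by
        rw [Finset.sum_comm]
        refine Finset.sum_congr rfl fun a _ => Finset.sum_congr rfl fun b _ => ?_
        rw [add_comm]
      rw [t1, t2, ← Finset.sum_add_distrib]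
      refine Finset.sum_congr rfl fun a _ => ?_
      rw [← Finset.sum_add_distrib]
      refine Finset.sum_congr rfl fun b _ => ?_
      ring
    have s3 : ∑ a ∈ range N, ∑ b ∈ range N, cK (a + (N - 1 - b)) * (be μ N a a + be μ N b b) =
        ∑ a ∈ range N, ∑ b ∈ range N,
          (cK (a + (N - 1 - b)) + cK (b + (N - 1 - a))) * be μ N a a := by
      have t1 : ∑ a ∈ range N, ∑ b ∈ range N,
          cK (a + (N - 1 - b)) * (be μ N a a + be μ N b b) =
          (∑ a ∈ range N, ∑ b ∈ range N, cK (a + (N - 1 - b)) * be μ N a a) +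
          ∑ a ∈ range N, ∑ b ∈ range N, cK (a + (N - 1 - b)) * be μ N b b := by
        rw [← Finset.sum_add_distrib]
        refine Finset.sum_congr rfl fun a _ => ?_
        rw [← Finset.sum_add_distrib]
        refine Finset.sum_congr rfl fun b _ => ?_
        ring
      have t2 : ∑ a ∈ range N, ∑ b ∈ range N, cK (a + (N - 1 - b)) * be μ N b b =
          ∑ a ∈ range N, ∑ b ∈ range N, cK (b + (N - 1 - a)) * be μ N a a := by
        rw [Finset.sum_comm]
      rw [t1, t2, ← Finset.sum_add_distrib]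
      refine Finset.sum_congr rfl fun a _ => ?_
      rw [← Finset.sum_add_distrib]
      refine Finset.sum_congr rfl fun b _ => ?_
      ring
    have s4 : ∀ A B C : ℕ → ℕ → ℝ, ∑ a ∈ range N, ∑ b ∈ range N, (A a b - (B a b + C a b)) =
        (∑ a ∈ range N, ∑ b ∈ range N, A a b) - ((∑ a ∈ range N, ∑ b ∈ range N, B a b) +
          ∑ a ∈ range N, ∑ b ∈ range N, C a b) := by
      intro A B C
      simp_rw [Finset.sum_sub_distrib, Finset.sum_add_distrib]
    rw [s4, s1, s2, s3, ← Finset.sum_add_distrib, ← Finset.sum_sub_distrib]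
    refine Finset.sum_congr rfl fun a _ => ?_
    rw [mul_sub, Finset.mul_sum, ← Finset.sum_add_distrib]
    congr 1
    refine Finset.sum_congr rfl fun b _ => ?_
    ring
  rw [e2]
  apply Finset.sum_nonneg
  intro a ha
  apply mul_nonneg (be_nonneg μ N a a)
  linarith [h5 a (by simpa using ha)]

end

end Pool.Agent.AutoConv
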