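import Pool.Agent.AutoConv.Disc

/-!
# Autoconvolutions: from the discrete statement to the constant
-/

open MeasureTheory Set
open scoped ENNReal

namespace Pool.Agent.AutoConv

theorem dens_of_density {f : ℝ → ℝ} (hf : IsUnitIntervalDensity f) {M : ℝ}
    (hM : ∀ᵐ x, autoconv f x ≤ M) : ∃ G : ℝ → ℝ≥0∞, Dens M G := by
  obtain ⟨f0, hf0m, hf0⟩ := hf.integrable.1
  set G : ℝ → ℝ≥0∞ := (Icc (0:ℝ) 1).indicator (fun x => ENNReal.ofReal (f0 x)) with hG
  have hGm : Measurable G :=
    (hf0m.measurable.ennreal_ofReal).indicator measurableSet_Icc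
  have hGf : ∀ᵐ x, G x = ENNReal.ofReal (f x) := by
    filter_upwards [hf0] with x hx
    rw [hG]
    by_cases h : x ∈ Icc (0:ℝ) 1
    · rw [indicator_of_mem h, hx]
    · rw [indicator_of_notMem h, hf.eq_zero x h, ENNReal.ofReal_zero]
  have hG1 : ∫⁻ x, G x = 1 := by
    rw [lintegral_congr_ae hGf, ← ofReal_integral_eq_lintegral_ofReal hf.integrable
      (Filter.Eventually.of_forall hf.nonneg), hf.integral_eq_one, ENNReal.ofReal_one]
  have hGc : ∀ x : ℝ, ∫⁻ t, G t * G (x - t) = ∫⁻ t, ENNReal.ofReal (f t * f (x - t)) := by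
    intro x
    apply lintegral_congr_ae
    have h2 : ∀ᵐ t, G (x - t) = ENNReal.ofReal (f (x - t)) :=
      (quasiMeasurePreserving_sub_left volume x).ae hGf
    filter_upwards [hGf, h2] with t h3 h4
    rw [h3, h4, ENNReal.ofReal_mul (hf.nonneg t)]
  have htot : ∫⁻ x, ∫⁻ t, G t * G (x - t) = 1 := by
    have := lint_sum hGm (Φ := fun _ => 1) measurable_const
    simp only [one_mul] at this
    rw [← this]
    have h5 : ∀ x, ∫⁻ y, G x * G y = G x := by
      intro x
      rw [lintegral_const_mul _ hGm, hG1, mul_one]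
    simp_rw [h5, hG1]
  have hmeas : Measurable (fun x : ℝ => ∫⁻ t, G t * G (x - t)) := by
    apply Measurable.lintegral_prod_right' (f := fun q : ℝ × ℝ => G q.2 * G (q.1 - q.2))
    fun_prop
  have hfin : ∀ᵐ x : ℝ, ∫⁻ t, G t * G (x - t) < ∞ :=
    ae_lt_top hmeas (by rw [htot]; simp)
  refine ⟨G, hGm, fun x hx => by rw [hG, indicator_of_notMem hx], hG1, ?_⟩
  filter_upwards [hM, hfin] with x hx hx2
  rw [hGc] at hx2 ⊢
  have hint : Integrable (fun t => f t * f (x - t)) := by
    constructor
    · apply AEStronglyMeasurable.mul hf.integrable.1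
      exact hf.integrable.1.comp_quasiMeasurePreserving (quasiMeasurePreserving_sub_left volume x)
    · rw [hasFiniteIntegral_iff_ofReal (Filter.Eventually.of_forall fun t =>
        mul_nonneg (hf.nonneg _) (hf.nonneg _))]
      exact hx2
  rw [← ofReal_integral_eq_lintegral_ofReal hint (Filter.Eventually.of_forall fun t =>
        mul_nonneg (hf.nonneg _) (hf.nonneg _))]
  exact ENNReal.ofReal_le_ofReal hx

theorem le_eLpNorm_of_no_good {N : ℕ} (hN : 1 ≤ N) {M : ℝ} (h : ∀ m, ¬ Good N M m)
    {f : ℝ → ℝ} (hf : IsUnitIntervalDensity f) :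
    ENNReal.ofReal M ≤ eLpNorm (autoconv f) ∞ volume := by
  by_contra hc
  push Not at hc
  have h1 : ∀ᵐ x, autoconv f x ≤ M := by
    rw [eLpNorm_exponent_top] at hc
    filter_upwards [ae_le_eLpNormEssSup (f := autoconv f) (μ := volume)] with x hx
    have h2 : ‖autoconv f x‖ₑ < ENNReal.ofReal M := lt_of_le_of_lt hx hc
    have h3 : ENNReal.ofReal (autoconv f x) ≤ ENNReal.ofReal M := by
      refine le_trans ?_ h2.le
      rw [← ofReal_norm]
      exact ENNReal.ofReal_le_ofReal (Real.le_norm_self _)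
    have h4 : 0 < M := by
      by_contra h5
      push Not at h5
      rw [ENNReal.ofReal_of_nonpos h5] at h2
      exact not_lt_zero h2
    exact (ENNReal.ofReal_le_ofReal_iff h4.le).1 h3
  obtain ⟨G, hG⟩ := dens_of_density hf h1
  exact h _ (good_of_dens hN hG)

theorem le_minNorm_of_no_good {N : ℕ} (hN : 1 ≤ N) {M : ℝ} (h : ∀ m, ¬ Good N M m) :
    ENNReal.ofReal M ≤ minNorm ∞ :=
  le_iInf₂ fun _ hf => le_eLpNorm_of_no_good hN h hf

/-- reflection. -/
theorem Good.reflect {N : ℕ} {M : ℝ} {m : ℕ → ℝ} (h : Good N M m) :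
    Good N M (fun i => m (N - i)) := by
  obtain ⟨h0, h1, h2⟩ := h
  refine ⟨fun i => h0 _, ?_, ?_⟩
  · rw [← h1, ← Finset.sum_range_reflect]
    refine Finset.sum_congr rfl fun i hi => ?_
    have : i ≤ N := by simpa [Nat.lt_succ_iff] using hi
    congr 1; omega
  · intro g G K κ a1 a2 a3 a4 a5
    have := h2 (fun k => g (2 * N - k)) (fun k => G (2 * N - k)) (fun k => K (2 * N - k))
      (fun k => κ (2 * N - k)) (fun k _ => a1 _ (by omega)) (fun k _ => a2 _ (by omega))
      (fun k hk => by
        have := a3 (2 * N - (k + 2)) (by omega)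
        have e1 : 2 * N - (k + 2) + 1 = 2 * N - (k + 1) := by omega
        have e2 : 2 * N - (k + 2) + 2 = 2 * N - k := by omega
        rw [e1, e2] at this
        linarith)
      (fun k _ => a4 _ (by omega))
      (fun k hk => by
        have := a5 (2 * N - (k + 2)) (by omega)
        have e1 : 2 * N - (k + 2) + 1 = 2 * N - (k + 1) := by omega
        have e2 : 2 * N - (k + 2) + 2 = 2 * N - k := by omega
        rw [e1, e2] at this
        linarith)
    have r1 : ∀ F : ℕ → ℝ, ∑ k ∈ Finset.range (2 * N), F (2 * N - 1 - k) =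
        ∑ k ∈ Finset.range (2 * N), F k := fun F => Finset.sum_range_reflect F (2 * N)
    have r2 : ∑ k ∈ Finset.range (2 * N), (G (2 * N - k) + G (2 * N - (k + 1))) =
        ∑ k ∈ Finset.range (2 * N), (G k + G (k + 1)) := by
      rw [← r1 (fun k => G k + G (k + 1))]
      refine Finset.sum_congr rfl fun k hk => ?_
      have : k < 2 * N := by simpa using hk
      have e1 : 2 * N - 1 - k = 2 * N - (k + 1) := by omega
      have e2 : 2 * N - (k + 1) + 1 = 2 * N - k := by omega
      rw [e1, e2]; ring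
    have r3 : ∑ k ∈ Finset.range (2 * N), (κ (2 * N - k) ^ 2 +
          κ (2 * N - k) * κ (2 * N - (k + 1)) + κ (2 * N - (k + 1)) ^ 2) =
        ∑ k ∈ Finset.range (2 * N), (κ k ^ 2 + κ k * κ (k + 1) + κ (k + 1) ^ 2) := by
      rw [← r1 (fun k => κ k ^ 2 + κ k * κ (k + 1) + κ (k + 1) ^ 2)]
      refine Finset.sum_congr rfl fun k hk => ?_
      have : k < 2 * N := by simpa using hk
      have e1 : 2 * N - 1 - k = 2 * N - (k + 1) := by omega
      have e2 : 2 * N - (k + 1) + 1 = 2 * N - k := by omega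
      rw [e1, e2]; ring
    rw [r2, r3] at this
    refine le_trans (le_of_eq ?_) this
    rw [← Finset.sum_range_reflect]
    refine Finset.sum_congr rfl fun i hi => ?_
    have hi' : i ≤ N := by simpa [Nat.lt_succ_iff] using hi
    rw [← Finset.sum_range_reflect]
    refine Finset.sum_congr rfl fun j hj => ?_
    have hj' : j ≤ N := by simpa [Nat.lt_succ_iff] using hj
    have e1 : N + 1 - 1 - i + (N + 1 - 1 - j) = 2 * N - (i + j) := by omega
    have e2 : N + 1 - 1 - i + (N - (N + 1 - 1 - j)) = 2 * N - (i + (N - j)) := by omega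
    have e3 : N - (N + 1 - 1 - i) = i := by omega
    have e5 : N + 1 - 1 - i + j = 2 * N - (i + (N - j)) := by omega
    have e4 : N - (N + 1 - 1 - j) = j := by omega
    simp only [e1, e3, e4, e5]

end Pool.Agent.AutoConv
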