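import Pool.Agent.AutoConv.Defs

/-!
# Autoconvolutions: sanity checks

The class of unit-interval densities is not empty, and `minNorm ∞ ≤ 1` (the uniform density).
-/

open MeasureTheory Set
open scoped ENNReal

namespace Pool.Agent.AutoConv

/-- the uniform density. -/
noncomputable def unif : ℝ → ℝ := (Icc (0:ℝ) 1).indicator (fun _ => 1)

lemma unif_density : IsUnitIntervalDensity unif where
  integrable := (integrable_indicator_iff measurableSet_Icc).2 (by simp)
  nonneg := fun x => indicator_nonneg (fun _ _ => zero_le_one) x
  eq_zero := fun x hx => indicator_of_notMem hx _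
  integral_eq_one := by
    unfold unif
    rw [integral_indicator measurableSet_Icc]
    simp

lemma autoconv_unif_le (x : ℝ) : ‖autoconv unif x‖ ≤ 1 := by
  unfold autoconv
  have h0 : ∀ y, 0 ≤ unif y := unif_density.nonneg
  have h1 : ∀ y, unif y ≤ 1 := fun y => by
    unfold unif; exact indicator_le' (fun _ _ => le_rfl) (fun _ _ => zero_le_one) y
  have h2 : ∫ t, unif t * unif (x - t) ≤ ∫ t, unif t := by
    apply integral_mono_of_nonneg
    · exact Filter.Eventually.of_forall fun t => mul_nonneg (h0 _) (h0 _)
    · exact unif_density.integrable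
    · exact Filter.Eventually.of_forall fun t => mul_le_of_le_one_right (h0 _) (h1 _)
  rw [Real.norm_eq_abs, abs_of_nonneg (integral_nonneg fun t => mul_nonneg (h0 _) (h0 _))]
  rw [unif_density.integral_eq_one] at h2
  exact h2

theorem minNorm_top_le_one : minNorm ∞ ≤ 1 := by
  refine (iInf₂_le unif unif_density).trans ?_
  rw [eLpNorm_exponent_top]
  refine eLpNormEssSup_le_of_ae_bound (C := 1) (Filter.Eventually.of_forall autoconv_unif_le)
    |>.trans ?_
  simp

end Pool.Agent.AutoConv
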