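import Pool.Agent.AutoConv.Check

/-!
# Autoconvolutions: soundness of the certificate checker
-/

open Finset

namespace Pool.Agent.AutoConv

/-- digit: `t` bits at position `s * j`. -/
def D (x t s j : ℕ) : ℕ := x / 2 ^ (s * j) % 2 ^ t

lemma D_lt (x t s j : ℕ) : D x t s j < 2 ^ t := Nat.mod_lt _ (by positivity)

lemma land_aux {t s : ℕ} (h : t ≤ s) (x M : ℕ) :
    x &&& (2 ^ s * M + (2 ^ t - 1)) = 2 ^ s * ((x / 2 ^ s) &&& M) + x % 2 ^ t := by
  have hlt1 : 2 ^ t - 1 < 2 ^ s := by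
    have : 2 ^ t ≤ 2 ^ s := Nat.pow_le_pow_right (by norm_num) h
    have : 0 < 2 ^ t := by positivity
    omega
  have hlt2 : x % 2 ^ t < 2 ^ s :=
    lt_of_lt_of_le (Nat.mod_lt _ (by positivity)) (Nat.pow_le_pow_right (by norm_num) h)
  apply Nat.eq_of_testBit_eq
  intro j
  rw [Nat.testBit_and, Nat.testBit_two_pow_mul_add _ hlt1, Nat.testBit_two_pow_mul_add _ hlt2]
  by_cases hj : j < s
  · simp only [hj, if_true]
    rw [Nat.testBit_two_pow_sub_one, Nat.testBit_mod_two_pow, Bool.and_comm]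
  · simp only [hj, if_false]
    rw [Nat.testBit_and, Nat.testBit_div_two_pow]
    congr 2
    omega

lemma mask_eq (t : ℕ) {s : ℕ} (n : ℕ) (hs : 1 ≤ s) :
    mask t s n = (2 ^ t - 1) * ∑ j ∈ range n, 2 ^ (s * j) := by
  have h1 : mask t s n = (2 ^ t - 1) * ((2 ^ (s * n) - 1) / (2 ^ s - 1)) := rfl
  rw [h1]
  congr 1
  have h2 : 2 ≤ 2 ^ s := by
    calc 2 = 2 ^ 1 := rfl
      _ ≤ 2 ^ s := Nat.pow_le_pow_right (by norm_num) hs
  have h3 := Nat.geomSum_eq h2 n
  simp_rw [pow_mul]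
  exact h3.symm

lemma mask_succ (t : ℕ) {s : ℕ} (n : ℕ) (hs : 1 ≤ s) :
    mask t s (n + 1) = 2 ^ s * mask t s n + (2 ^ t - 1) := by
  rw [mask_eq t _ hs, mask_eq t _ hs, Finset.sum_range_succ']
  have : ∀ j, 2 ^ (s * (j + 1)) = 2 ^ s * 2 ^ (s * j) := by
    intro j; rw [← pow_add]; congr 1; ring
  simp_rw [this]
  rw [← Finset.mul_sum]
  simp
  ring

lemma land_mask {t s : ℕ} (h : t ≤ s) (hs : 1 ≤ s) (n x : ℕ) :
    Nat.land x (mask t s n) = ∑ j ∈ range n, D x t s j * 2 ^ (s * j) := by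
  induction n generalizing x with
  | zero =>
    have : mask t s 0 = 0 := by rw [mask_eq t _ hs]; simp
    rw [this]
    exact Nat.and_zero x
  | succ n ih =>
    rw [mask_succ t n hs]
    have h1 : Nat.land x (2 ^ s * mask t s n + (2 ^ t - 1)) =
      x &&& (2 ^ s * mask t s n + (2 ^ t - 1)) := rfl
    rw [h1, land_aux h, Finset.sum_range_succ']
    have h2 : (x / 2 ^ s) &&& mask t s n = Nat.land (x / 2 ^ s) (mask t s n) := rfl
    rw [h2, ih, Finset.mul_sum]
    congr 1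
    · refine Finset.sum_congr rfl fun j _ => ?_
      have h3 : D (x / 2 ^ s) t s j = D x t s (j + 1) := by
        unfold D
        rw [Nat.div_div_eq_div_mul, ← pow_add]
        congr 3; ring
      rw [h3]
      have h4 : 2 ^ (s * (j + 1)) = 2 ^ s * 2 ^ (s * j) := by
        rw [← pow_add]; congr 1; ring
      rw [h4]; ring
    · simp [D]

lemma sum_digits_lt {w t : ℕ} (htw : t ≤ w) (d : ℕ → ℕ) (hd : ∀ j, d j < 2 ^ t) (n : ℕ) :
    ∑ j ∈ range n, d j * 2 ^ (w * j) < 2 ^ (w * n) := by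
  induction n with
  | zero => simp
  | succ n ih =>
    rw [Finset.sum_range_succ]
    have h1 : d n + 1 ≤ 2 ^ w := le_trans (hd n) (Nat.pow_le_pow_right (by norm_num) htw)
    calc _ < 2 ^ (w * n) + d n * 2 ^ (w * n) := by omega
      _ = (d n + 1) * 2 ^ (w * n) := by ring
      _ ≤ 2 ^ w * 2 ^ (w * n) := Nat.mul_le_mul_right _ h1
      _ = 2 ^ (w * (n + 1)) := by rw [← pow_add]; congr 1; ring

lemma comp_mod {w t : ℕ} (htw : t + 1 ≤ w) (d : ℕ → ℕ) (hd : ∀ j, d j < 2 ^ t) (n : ℕ)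
    (hn : 1 ≤ n) :
    (∑ j ∈ range (n + 1), d j * 2 ^ ((w * (n + 1)) * j)) % (2 ^ (w * (n + 1)) - 2 ^ w) =
      ∑ j ∈ range (n + 1), d j * 2 ^ (w * j) := by
  set s := w * (n + 1) with hs
  have hws : 2 ^ w ≤ 2 ^ s := Nat.pow_le_pow_right (by norm_num) (by rw [hs]; nlinarith)
  have hmod : 2 ^ s ≡ 2 ^ w [MOD (2 ^ s - 2 ^ w)] := by
    have h1 : 2 ^ s = (2 ^ s - 2 ^ w) + 2 ^ w := by omega
    have h2 : (2 ^ s - 2 ^ w) + 2 ^ w ≡ 2 ^ w [MOD (2 ^ s - 2 ^ w)] := by
      simp [Nat.ModEq]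
    rwa [← h1] at h2
  have hsum : ∀ N, ∑ j ∈ range N, d j * 2 ^ (s * j) ≡ ∑ j ∈ range N, d j * 2 ^ (w * j)
      [MOD (2 ^ s - 2 ^ w)] := by
    intro N
    induction N with
    | zero => exact Nat.ModEq.refl _
    | succ N ih =>
      rw [Finset.sum_range_succ, Finset.sum_range_succ]
      refine Nat.ModEq.add ih (Nat.ModEq.mul_left _ ?_)
      rw [pow_mul 2 s N, pow_mul 2 w N]
      exact hmod.pow N
  have hlt : ∑ j ∈ range (n + 1), d j * 2 ^ (w * j) < 2 ^ s - 2 ^ w := by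
    rw [Finset.sum_range_succ]
    have h1 := sum_digits_lt (show t ≤ w by omega) d hd n
    have h2 : ∑ j ∈ range n, d j * 2 ^ (w * j) + d n * 2 ^ (w * n) < 2 ^ (w * n + t) := by
      calc _ < 2 ^ (w * n) + d n * 2 ^ (w * n) := by omega
        _ = (d n + 1) * 2 ^ (w * n) := by ring
        _ ≤ 2 ^ t * 2 ^ (w * n) := Nat.mul_le_mul_right _ (hd n)
        _ = _ := by rw [← pow_add]; congr 1; ring
    have h3 : 2 ^ (w * n + t) ≤ 2 ^ (s - 1) := Nat.pow_le_pow_right (by norm_num) (by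
      rw [hs]; have : w * (n + 1) = w * n + w := by ring
      omega)
    have h4 : 2 ^ w ≤ 2 ^ (s - 1) := Nat.pow_le_pow_right (by norm_num) (by
      rw [hs]; have : w * (n + 1) = w * n + w := by ring
      have : w ≤ w * n := Nat.le_mul_of_pos_right w hn
      omega)
    have h5 : 2 ^ s = 2 ^ (s - 1) + 2 ^ (s - 1) := by
      have : s = (s - 1) + 1 := by
        have : w * (n + 1) = w * n + w := by ring
        omega
      conv_lhs => rw [this, pow_succ]
      ring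
    omega
  have := hsum (n + 1)
  rw [Nat.ModEq, Nat.mod_eq_of_lt hlt] at this
  exact this

/-- packing a vector. -/
def pk (s : ℕ) (y : ℕ → ℤ) : ℤ := ∑ i ∈ range 33, y i * 2 ^ (s * i)

/-- packing a matrix. -/
def pk2 (A : ℕ → ℕ → ℤ) : ℤ := ∑ j ∈ range 33, ∑ i ∈ range 33, A i j * (2 ^ (64 * i) * 2 ^ (2112 * j))

lemma pk_mul (y z : ℕ → ℤ) : pk 64 y * pk 2112 z = pk2 (fun i j => y i * z j) := by
  unfold pk pk2
  rw [Finset.sum_mul_sum, Finset.sum_comm]
  refine Finset.sum_congr rfl fun j _ => Finset.sum_congr rfl fun i _ => ?_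
  ring

lemma pk2_add (A B : ℕ → ℕ → ℤ) : pk2 A + pk2 B = pk2 (fun i j => A i j + B i j) := by
  unfold pk2
  rw [← Finset.sum_add_distrib]
  refine Finset.sum_congr rfl fun j _ => ?_
  rw [← Finset.sum_add_distrib]
  refine Finset.sum_congr rfl fun i _ => ?_
  ring

lemma pk2_sub (A B : ℕ → ℕ → ℤ) : pk2 A - pk2 B = pk2 (fun i j => A i j - B i j) := by
  unfold pk2
  rw [← Finset.sum_sub_distrib]
  refine Finset.sum_congr rfl fun j _ => ?_
  rw [← Finset.sum_sub_distrib]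
  refine Finset.sum_congr rfl fun i _ => ?_
  ring

lemma pk2_smul (c : ℤ) (A : ℕ → ℕ → ℤ) : c * pk2 A = pk2 (fun i j => c * A i j) := by
  unfold pk2
  rw [Finset.mul_sum]
  refine Finset.sum_congr rfl fun j _ => ?_
  rw [Finset.mul_sum]
  refine Finset.sum_congr rfl fun i _ => ?_
  ring

lemma pk_add (s : ℕ) (y z : ℕ → ℤ) : pk s y + pk s z = pk s (fun i => y i + z i) := by
  unfold pk
  rw [← Finset.sum_add_distrib]
  refine Finset.sum_congr rfl fun i _ => ?_
  ring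

lemma pk_sub (s : ℕ) (y z : ℕ → ℤ) : pk s y - pk s z = pk s (fun i => y i - z i) := by
  unfold pk
  rw [← Finset.sum_sub_distrib]
  refine Finset.sum_congr rfl fun i _ => ?_
  ring

lemma pk_smul (s : ℕ) (c : ℤ) (y : ℕ → ℤ) : c * pk s y = pk s (fun i => c * y i) := by
  unfold pk
  rw [Finset.mul_sum]
  refine Finset.sum_congr rfl fun i _ => ?_
  ring

lemma spaced_eq {t : ℕ} (ht : t ≤ 63) (Y : ℕ) :
    ((Nat.land Y (mask t 2112 33) : ℕ) : ℤ) = pk 2112 (fun i => (D Y t 2112 i : ℤ)) := by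
  rw [land_mask (by omega) (by norm_num)]
  unfold pk
  push_cast
  rfl

lemma dd_eq : dd = 2 ^ (64 * (32 + 1)) - 2 ^ 64 := by decide +kernel

lemma compact_eq {t : ℕ} (ht : t ≤ 63) (Y : ℕ) :
    ((Nat.mod (Nat.land Y (mask t 2112 33)) dd : ℕ) : ℤ) = pk 64 (fun i => (D Y t 2112 i : ℤ)) := by
  rw [land_mask (by omega) (by norm_num)]
  have h := comp_mod (w := 64) (t := t) (by omega) (fun j => D Y t 2112 j)
    (fun j => D_lt _ _ _ _) 32 (by norm_num)
  rw [← dd_eq] at h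
  have h2 : Nat.mod (∑ j ∈ range 33, D Y t 2112 j * 2 ^ (2112 * j)) dd =
      ∑ j ∈ range 33, D Y t 2112 j * 2 ^ (64 * j) := h
  rw [h2]
  unfold pk
  push_cast
  rfl

/-- the signed vector behind a column. -/
def bvec (Y : ℕ) (i : ℕ) : ℤ := 2 * (D Y 21 2112 i : ℤ) - (D Y 22 2112 i : ℤ)

lemma zB_eq (Y : ℕ) : zB Y = pk 2112 (bvec Y) := by
  have h : zB Y = 2 * ((Nat.land Y (mask 21 2112 33) : ℕ) : ℤ) -
    ((Nat.land Y (mask 22 2112 33) : ℕ) : ℤ) := rfl
  rw [h, spaced_eq (by norm_num), spaced_eq (by norm_num), pk_smul, pk_sub]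
  rfl

lemma xB_eq (Y : ℕ) : xB Y = pk 64 (bvec Y) := by
  have h : xB Y = 2 * ((Nat.mod (Nat.land Y (mask 21 2112 33)) dd : ℕ) : ℤ) -
    ((Nat.mod (Nat.land Y (mask 22 2112 33)) dd : ℕ) : ℤ) := rfl
  rw [h, compact_eq (by norm_num), compact_eq (by norm_num), pk_smul, pk_sub]
  rfl

def cvec (Y : ℕ) (i : ℕ) : ℤ := 2 * (D Y 9 2112 i : ℤ) - (D Y 10 2112 i : ℤ)

lemma zL_eq (Y : ℕ) : zL Y = pk 2112 (cvec Y) := by
  have h : zL Y = 2 * ((Nat.land Y (mask 9 2112 33) : ℕ) : ℤ) -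
    ((Nat.land Y (mask 10 2112 33) : ℕ) : ℤ) := rfl
  rw [h, spaced_eq (by norm_num), spaced_eq (by norm_num), pk_smul, pk_sub]
  rfl

lemma xL_eq (Y : ℕ) : xL Y = pk 64 (cvec Y) := by
  have h : xL Y = 2 * ((Nat.mod (Nat.land Y (mask 9 2112 33)) dd : ℕ) : ℤ) -
    ((Nat.mod (Nat.land Y (mask 10 2112 33)) dd : ℕ) : ℤ) := rfl
  rw [h, compact_eq (by norm_num), compact_eq (by norm_num), pk_smul, pk_sub]
  rfl

/-- the signed constraint vector. -/
def lvec (p : Bool × ℕ) (i : ℕ) : ℤ := match p.1 with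
  | true => cvec (Nat.mul p.2 c10) i
  | false => - cvec (Nat.mul p.2 c10) i

lemma pk_neg (s : ℕ) (y : ℕ → ℤ) : - pk s y = pk s (fun i => - y i) := by
  unfold pk
  rw [← Finset.sum_neg_distrib]
  refine Finset.sum_congr rfl fun i _ => ?_
  ring

lemma lx_eq (p : Bool × ℕ) : lx p = pk 64 (lvec p) := by
  rcases p with ⟨b, l⟩
  cases b
  · have : lx (false, l) = - xL (Nat.mul l c10) := rfl
    rw [this, xL_eq, pk_neg]; rfl
  · exact xL_eq _

lemma lz_eq (p : Bool × ℕ) : lz p = pk 2112 (lvec p) := by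
  rcases p with ⟨b, l⟩
  cases b
  · have : lz (false, l) = - zL (Nat.mul l c10) := rfl
    rw [this, zL_eq, pk_neg]; rfl
  · exact zL_eq _

lemma bvec_abs (Y i : ℕ) : |bvec Y i| ≤ 2 ^ 22 := by
  unfold bvec
  have h1 := D_lt Y 21 2112 i
  have h2 := D_lt Y 22 2112 i
  rw [abs_le]
  constructor
  · have : (D Y 22 2112 i : ℤ) < 2 ^ 22 := by exact_mod_cast h2
    linarith [Int.natCast_nonneg (D Y 21 2112 i)]
  · have : (D Y 21 2112 i : ℤ) < 2 ^ 21 := by exact_mod_cast h1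
    linarith [Int.natCast_nonneg (D Y 22 2112 i)]

lemma cvec_abs (Y i : ℕ) : |cvec Y i| ≤ 2 ^ 10 := by
  unfold cvec
  have h1 := D_lt Y 9 2112 i
  have h2 := D_lt Y 10 2112 i
  rw [abs_le]
  constructor
  · have : (D Y 10 2112 i : ℤ) < 2 ^ 10 := by exact_mod_cast h2
    linarith [Int.natCast_nonneg (D Y 9 2112 i)]
  · have : (D Y 9 2112 i : ℤ) < 2 ^ 9 := by exact_mod_cast h1
    linarith [Int.natCast_nonneg (D Y 10 2112 i)]

lemma lvec_abs (p : Bool × ℕ) (i : ℕ) : |lvec p i| ≤ 2 ^ 10 := by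
  rcases p with ⟨b, l⟩
  cases b
  · have : lvec (false, l) i = - cvec (Nat.mul l c10) i := rfl
    rw [this, abs_neg]; exact cvec_abs _ _
  · exact cvec_abs _ _

/-- value of the quadratic form. -/
def qf (A : ℕ → ℕ → ℤ) (m : ℕ → ℝ) : ℝ := ∑ i ∈ range 33, ∑ j ∈ range 33, (A i j : ℝ) * (m i * m j)

lemma qf_add (A B : ℕ → ℕ → ℤ) (m : ℕ → ℝ) : qf (fun i j => A i j + B i j) m = qf A m + qf B m := by
  unfold qf
  rw [← Finset.sum_add_distrib]
  refine Finset.sum_congr rfl fun j _ => ?_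
  rw [← Finset.sum_add_distrib]
  refine Finset.sum_congr rfl fun i _ => ?_
  push_cast; ring

lemma qf_mul (y z : ℕ → ℤ) (m : ℕ → ℝ) : qf (fun i j => y i * z j) m =
    (∑ i ∈ range 33, (y i : ℝ) * m i) * (∑ j ∈ range 33, (z j : ℝ) * m j) := by
  unfold qf
  rw [Finset.sum_mul_sum]
  refine Finset.sum_congr rfl fun i _ => Finset.sum_congr rfl fun j _ => ?_
  push_cast; ring

lemma colsum_spec (cs : List ℕ) (sh : ℕ) : ∃ A : ℕ → ℕ → ℤ, colsum cs sh = pk2 A ∧
    (∀ i j, |A i j| ≤ cs.length * 2 ^ 44) ∧ ∀ m : ℕ → ℝ, 0 ≤ qf A m := by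
  induction cs generalizing sh with
  | nil =>
    refine ⟨fun _ _ => 0, ?_, ?_, ?_⟩
    · have : colsum [] sh = 0 := rfl
      rw [this]; simp [pk2]
    · intro i j; simp
    · intro m; simp [qf]
  | cons c cs ih =>
    obtain ⟨A, h1, h2, h3⟩ := ih (Nat.shiftLeft sh 22)
    refine ⟨fun i j => bvec (Nat.mul c sh) i * bvec (Nat.mul c sh) j + A i j, ?_, ?_, ?_⟩
    · have : colsum (c :: cs) sh = xB (Nat.mul c sh) * zB (Nat.mul c sh) +
        colsum cs (Nat.shiftLeft sh 22) := rfl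
      rw [this, xB_eq, zB_eq, pk_mul, h1, pk2_add]
    · intro i j
      have e1 := bvec_abs (Nat.mul c sh) i
      have e2 := bvec_abs (Nat.mul c sh) j
      have e3 := h2 i j
      calc |bvec (Nat.mul c sh) i * bvec (Nat.mul c sh) j + A i j|
          ≤ |bvec (Nat.mul c sh) i * bvec (Nat.mul c sh) j| + |A i j| := abs_add_le _ _
        _ = |bvec (Nat.mul c sh) i| * |bvec (Nat.mul c sh) j| + |A i j| := by rw [abs_mul]
        _ ≤ 2 ^ 22 * 2 ^ 22 + cs.length * 2 ^ 44 := by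
            gcongr
        _ = _ := by push_cast [List.length_cons]; ring
    · intro m
      rw [qf_add, qf_mul]
      have := mul_self_nonneg (∑ i ∈ range 33, (bvec (Nat.mul c sh) i : ℝ) * m i)
      linarith [h3 m]

/-- the constraints of a path hold at `m`. -/
def Sat (path : List (Bool × ℕ)) (m : ℕ → ℝ) : Prop :=
  ∀ p ∈ path, 0 ≤ ∑ i ∈ range 33, (lvec p i : ℝ) * m i

lemma w_spec (ps : List (Bool × ℕ)) (w : ℕ) : ∃ y : ℕ → ℤ, wx ps w = pk 64 y ∧ wz ps w = pk 2112 y ∧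
    (∀ i, |y i| ≤ ps.length * 2 ^ 34) ∧
    ∀ m : ℕ → ℝ, Sat ps m → 0 ≤ ∑ i ∈ range 33, (y i : ℝ) * m i := by
  induction ps generalizing w with
  | nil =>
    refine ⟨fun _ => 0, ?_, ?_, ?_, ?_⟩
    · have : wx [] w = 0 := rfl
      rw [this]; simp [pk]
    · have : wz [] w = 0 := rfl
      rw [this]; simp [pk]
    · intro i; simp
    · intro m _; simp
  | cons p ps ih =>
    obtain ⟨y, h1, h2, h3, h4⟩ := ih (Nat.shiftRight w 24)
    refine ⟨fun i => ((Nat.mod w 16777216 : ℕ) : ℤ) * lvec p i + y i, ?_, ?_, ?_, ?_⟩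
    · have : wx (p :: ps) w = ((Nat.mod w 16777216 : ℕ) : ℤ) * lx p + wx ps (Nat.shiftRight w 24) := rfl
      rw [this, lx_eq, pk_smul, h1, pk_add]
    · have : wz (p :: ps) w = ((Nat.mod w 16777216 : ℕ) : ℤ) * lz p + wz ps (Nat.shiftRight w 24) := rfl
      rw [this, lz_eq, pk_smul, h2, pk_add]
    · intro i
      have e1 := lvec_abs p i
      have e2 : ((Nat.mod w 16777216 : ℕ) : ℤ) ≤ 2 ^ 24 := by
        have : Nat.mod w 16777216 < 16777216 := Nat.mod_lt _ (by norm_num)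
        have : ((Nat.mod w 16777216 : ℕ) : ℤ) < 16777216 := by exact_mod_cast this
        linarith
      have e3 := h3 i
      have e4 : (0:ℤ) ≤ ((Nat.mod w 16777216 : ℕ) : ℤ) := Int.natCast_nonneg _
      calc |((Nat.mod w 16777216 : ℕ) : ℤ) * lvec p i + y i|
          ≤ |((Nat.mod w 16777216 : ℕ) : ℤ) * lvec p i| + |y i| := abs_add_le _ _
        _ = ((Nat.mod w 16777216 : ℕ) : ℤ) * |lvec p i| + |y i| := by rw [abs_mul, abs_of_nonneg e4]
        _ ≤ 2 ^ 24 * 2 ^ 10 + ps.length * 2 ^ 34 := by gcongr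
        _ = _ := by push_cast [List.length_cons]; ring
    · intro m hm
      have e1 := hm p (by simp)
      have e2 := h4 m (fun q hq => hm q (by simp [hq]))
      have e3 : ∑ i ∈ range 33, ((((Nat.mod w 16777216 : ℕ) : ℤ) * lvec p i + y i : ℤ) : ℝ) * m i =
          ((Nat.mod w 16777216 : ℕ) : ℝ) * (∑ i ∈ range 33, (lvec p i : ℝ) * m i) +
          ∑ i ∈ range 33, (y i : ℝ) * m i := by
        rw [Finset.mul_sum, ← Finset.sum_add_distrib]
        refine Finset.sum_congr rfl fun i _ => ?_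
        push_cast; ring
      rw [e3]
      have e4 : (0:ℝ) ≤ ((Nat.mod w 16777216 : ℕ) : ℝ) := Nat.cast_nonneg _
      positivity

lemma abs_aux {a b c d e A B C E F : ℤ} (ha : |a| ≤ A) (hb : |b| ≤ B) (hc : |c| ≤ C)
    (hd : |d| ≤ E) (he : |e| ≤ F) : |a * b + c * d + e| ≤ A * B + C * E + F := by
  have hA : 0 ≤ A := (abs_nonneg _).trans ha
  have hC : 0 ≤ C := (abs_nonneg _).trans hc
  calc |a * b + c * d + e| ≤ |a * b + c * d| + |e| := abs_add_le _ _
    _ ≤ |a * b| + |c * d| + |e| := by gcongr; exact abs_add_le _ _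
    _ = |a| * |b| + |c| * |d| + |e| := by rw [abs_mul, abs_mul]
    _ ≤ _ := by gcongr

lemma ofNat_mul256 (x : ℕ) : Int.ofNat (Nat.mul 256 x) = 256 * (x : ℤ) := rfl

lemma int_add_def (a b : ℤ) : Int.add a b = a + b := rfl

lemma int_mul_def (a b : ℤ) : Int.mul a b = a * b := rfl

lemma consum_cons (p : Bool × ℕ) (ps : List (Bool × ℕ)) (uw : ℕ × ℕ) (us : List (ℕ × ℕ)) :
    consum (p :: ps) (uw :: us) =
      (lx p * (256 * ((Nat.land (Nat.mul uw.1 cu24) (mask 24 2112 33) : ℕ) : ℤ) +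
        wz (p :: ps) uw.2) +
      lz p * (256 * ((Nat.mod (Nat.land (Nat.mul uw.1 cu24) (mask 24 2112 33)) dd : ℕ) : ℤ) +
        wx (p :: ps) uw.2)) + consum ps us := by
  rw [consum, ofNat_mul256, ofNat_mul256, int_add_def, int_add_def, int_add_def, int_add_def,
    int_mul_def, int_mul_def, mu24]

lemma consum_spec (ps : List (Bool × ℕ)) (us : List (ℕ × ℕ)) (hl : ps.length ≤ 60) :
    ∃ A : ℕ → ℕ → ℤ, consum ps us = pk2 A ∧ (∀ i j, |A i j| ≤ ps.length * 2 ^ 51) ∧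
    ∀ m : ℕ → ℝ, (∀ i, 0 ≤ m i) → Sat ps m → 0 ≤ qf A m := by
  induction ps generalizing us with
  | nil =>
    refine ⟨fun _ _ => 0, ?_, ?_, ?_⟩
    · have : consum [] us = 0 := rfl
      rw [this]; simp [pk2]
    · intro i j; simp
    · intro m _ _; simp [qf]
  | cons p ps ih =>
    cases us with
    | nil =>
      refine ⟨fun _ _ => 0, ?_, ?_, ?_⟩
      · have : consum (p :: ps) [] = 0 := rfl
        rw [this]; simp [pk2]
      · intro i j; simp
      · intro m _ _; simp [qf]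
    | cons uw us =>
      obtain ⟨A, h1, h2, h3⟩ := ih us (by simp at hl; omega)
      obtain ⟨y, hy1, hy2, hy3, hy4⟩ := w_spec (p :: ps) uw.2
      obtain ⟨Y, hY⟩ : ∃ Y, Y = Nat.mul uw.1 cu24 := ⟨_, rfl⟩
      set z : ℕ → ℤ := fun i => 256 * (D Y 24 2112 i : ℤ) + y i with hz
      have hzabs : ∀ i, |z i| ≤ 2 ^ 40 := by
        intro i
        have e1 : (D Y 24 2112 i : ℤ) < 2 ^ 24 := by exact_mod_cast D_lt Y 24 2112 i
        have e2 : (0:ℤ) ≤ (D Y 24 2112 i : ℤ) := Int.natCast_nonneg _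
        have e3 := hy3 i
        have e4 : ((p :: ps).length : ℤ) ≤ 60 := by exact_mod_cast hl
        rw [abs_le] at e3 ⊢
        constructor <;> simp only [hz] <;> nlinarith [e3.1, e3.2]
      refine ⟨fun i j => lvec p i * z j + z i * lvec p j + A i j, ?_, ?_, ?_⟩
      · rw [consum_cons, ← hY, lx_eq, lz_eq, spaced_eq (by norm_num), compact_eq (by norm_num), hy1, hy2,
          pk_smul, pk_smul, pk_add, pk_add, pk_mul, mul_comm (pk 2112 _) (pk 64 _), pk_mul, h1,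
          pk2_add, pk2_add]
      · intro i j
        have f1 := lvec_abs p i
        have f2 := lvec_abs p j
        have f3 := hzabs i
        have f4 := hzabs j
        have f5 := h2 i j
        refine (abs_aux f1 f4 f3 f2 f5).trans (le_of_eq ?_)
        push_cast [List.length_cons]; ring
      · intro m hm hsat
        have e0 : qf (fun i j => lvec p i * z j + z i * lvec p j + A i j) m =
            qf (fun i j => lvec p i * z j) m + qf (fun i j => z i * lvec p j) m + qf A m := by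
          rw [← qf_add, ← qf_add]
        rw [e0, qf_mul, qf_mul]
        have e1 := hsat p (by simp)
        have e2 := h3 m hm (fun q hq => hsat q (by simp [hq]))
        have e3 : 0 ≤ ∑ i ∈ range 33, (z i : ℝ) * m i := by
          have e4 : ∑ i ∈ range 33, (z i : ℝ) * m i =
              256 * (∑ i ∈ range 33, (D Y 24 2112 i : ℝ) * m i) + ∑ i ∈ range 33, (y i : ℝ) * m i := by
            rw [Finset.mul_sum, ← Finset.sum_add_distrib]
            refine Finset.sum_congr rfl fun i _ => ?_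
            simp only [hz]; push_cast; ring
          rw [e4]
          have e5 : 0 ≤ ∑ i ∈ range 33, (D Y 24 2112 i : ℝ) * m i :=
            Finset.sum_nonneg fun i _ => mul_nonneg (Nat.cast_nonneg _) (hm i)
          have e6 := hy4 m hsat
          linarith
        have e7 := mul_nonneg e1 e3
        have e8 := mul_nonneg e3 e1
        linarith

end Pool.Agent.AutoConv
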