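import Pool.Agent.AutoConv.Sound

/-!
# Autoconvolutions: soundness of the certificate checker, second part
-/

open Finset

namespace Pool.Agent.AutoConv

lemma m63_def : m63 = mask 63 64 1089 := rfl
lemma e2_def : e2 = mask 1 64 1089 := rfl
lemma k24_def : k24 = mask 24 64 65 := rfl
lemma bn_def : bn = 2 ^ (64 * 33) := by decide +kernel

attribute [local irreducible] bn dd e2 m63 c22 cu24 mu24 m21 m22 m9 m10 c10 c24 m24 dd2 k24

lemma key1 (N : ℕ) (c : ℕ → ℤ) (hc : ∀ k < N, |c k| < 2 ^ 64)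
    (h : ∑ k ∈ range N, c k * 2 ^ (64 * k) = 0) : ∀ k < N, c k = 0 := by
  induction N generalizing c with
  | zero => intro k hk; omega
  | succ N ih =>
    rw [Finset.sum_range_succ'] at h
    have e1 : ∑ k ∈ range N, c (k + 1) * 2 ^ (64 * (k + 1)) =
        2 ^ 64 * ∑ k ∈ range N, c (k + 1) * 2 ^ (64 * k) := by
      rw [Finset.mul_sum]
      refine Finset.sum_congr rfl fun k _ => ?_
      ring
    rw [e1] at h
    simp only [Nat.mul_zero, pow_zero, mul_one] at h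
    have h0 : c 0 = 0 := by
      apply Int.eq_zero_of_abs_lt_dvd (m := 2 ^ 64)
      · exact ⟨- ∑ k ∈ range N, c (k + 1) * 2 ^ (64 * k), by linarith⟩
      · exact hc 0 (by omega)
    have h1 : ∑ k ∈ range N, c (k + 1) * 2 ^ (64 * k) = 0 := by
      rw [h0, add_zero] at h
      rcases mul_eq_zero.1 h with h2 | h2
      · norm_num at h2
      · exact h2
    have h2 := ih (fun k => c (k + 1)) (fun k hk => hc (k + 1) (by omega)) h1
    intro k hk
    rcases k with _ | k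
    · exact h0
    · exact h2 k (by omega)

lemma sum_dbl (f : ℕ → ℤ) (n m : ℕ) :
    ∑ k ∈ range (n * m), f k = ∑ j ∈ range m, ∑ i ∈ range n, f (i + n * j) := by
  induction m with
  | zero => simp
  | succ m ih =>
    rw [Nat.mul_succ, Finset.sum_range_add, Finset.sum_range_succ, ih]
    congr 1
    refine Finset.sum_congr rfl fun i _ => ?_
    congr 1; ring

lemma pk2_flat (A : ℕ → ℕ → ℤ) :
    pk2 A = ∑ k ∈ range (33 * 33), A (k % 33) (k / 33) * 2 ^ (64 * k) := by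
  rw [sum_dbl]
  unfold pk2
  refine Finset.sum_congr rfl fun j hj => Finset.sum_congr rfl fun i hi => ?_
  have hi' : i < 33 := by simpa using hi
  have e1 : (i + 33 * j) % 33 = i := by omega
  have e2 : (i + 33 * j) / 33 = j := by omega
  rw [e1, e2, ← pow_add]
  congr 2
  ring

lemma isOk_spec {X : ℤ} (h : isOk X = true) {A : ℕ → ℕ → ℤ} (hX : X = pk2 A)
    (hA : ∀ i < 33, ∀ j < 33, |A i j| < 2 ^ 62) : ∀ i < 33, ∀ j < 33, 0 ≤ A i j := by
  cases X with
  | negSucc a => simp [isOk] at h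
  | ofNat a =>
    have h1 : Nat.land a m63 = a := Nat.eq_of_beq_eq_true h
    have h2 : Nat.land a m63 = ∑ k ∈ range 1089, D a 63 64 k * 2 ^ (64 * k) := by
      rw [m63_def]
      exact land_mask (by norm_num) (by norm_num) _ _
    rw [h1] at h2
    have h3 : (Int.ofNat a : ℤ) = ∑ k ∈ range (33 * 33), (D a 63 64 k : ℤ) * 2 ^ (64 * k) := by
      have : (Int.ofNat a : ℤ) = (a : ℤ) := rfl
      rw [this]
      conv_lhs => rw [h2]
      push_cast
      rfl
    rw [pk2_flat, h3] at hX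
    have h4 := key1 (33 * 33) (fun k => A (k % 33) (k / 33) - (D a 63 64 k : ℤ)) (by
      intro k hk
      have e1 := hA (k % 33) (Nat.mod_lt _ (by norm_num)) (k / 33) (by omega)
      have e2 : (D a 63 64 k : ℤ) < 2 ^ 63 := by exact_mod_cast D_lt a 63 64 k
      have e3 : (0:ℤ) ≤ (D a 63 64 k : ℤ) := Int.natCast_nonneg _
      rw [abs_lt] at e1 ⊢
      constructor <;> linarith [e1.1, e1.2]) (by
      simp only [sub_mul]
      rw [Finset.sum_sub_distrib, ← hX, sub_self])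
    intro i hi j hj
    have h5 := h4 (i + 33 * j) (by nlinarith)
    have e1 : (i + 33 * j) % 33 = i := by omega
    have e2 : (i + 33 * j) / 33 = j := by omega
    simp only [e1, e2] at h5
    have e3 : (0:ℤ) ≤ (D a 63 64 (i + 33 * j) : ℤ) := Int.natCast_nonneg _
    linarith

lemma mod_digits (w n x : ℕ) :
    x % 2 ^ (w * n) = ∑ i ∈ range n, (x / 2 ^ (w * i) % 2 ^ w) * 2 ^ (w * i) := by
  induction n with
  | zero => simp [Nat.mod_one]
  | succ n ih =>
    rw [Finset.sum_range_succ, ← ih]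
    have : w * (n + 1) = w * n + w := by ring
    rw [this, pow_add, Nat.mod_mul]
    ring

lemma dg_eq (x k : ℕ) : dg x k = x / 2 ^ (64 * k) % 2 ^ 64 := by
  have : dg x k = (x >>> (64 * k)) % 18446744073709551616 := rfl
  have h64 : (18446744073709551616 : ℕ) = 2 ^ 64 := by norm_num
  rw [this, Nat.shiftRight_eq_div_pow, h64]

lemma row_eq (x j : ℕ) :
    Nat.mod (Nat.shiftRight x (Nat.mul 64 j)) bn = ∑ i ∈ range 33, dg x (i + j) * 2 ^ (64 * i) := by
  have e1 : Nat.mod (Nat.shiftRight x (Nat.mul 64 j)) bn = (x >>> (64 * j)) % bn := rfl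
  rw [e1, bn_def, mod_digits, Nat.shiftRight_eq_div_pow]
  refine Finset.sum_congr rfl fun i _ => ?_
  have e2 : 64 * j + 64 * i = 64 * (i + j) := by ring
  rw [dg_eq, Nat.div_div_eq_div_mul, ← pow_add, e2]

lemma rows_spec (gx kx n : ℕ) : ((rows gx kx n : ℕ) : ℤ) =
    ∑ j ∈ range n, ∑ i ∈ range 33, ((dg gx (i + j) : ℤ) + 2 * (dg kx (i + (32 - j)) : ℤ)) *
      (2 ^ (64 * i) * 2 ^ (2112 * j)) := by
  induction n with
  | zero => simp [rows]
  | succ n ih =>
    rw [Finset.sum_range_succ, ← ih]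
    have e1 : rows gx kx (n + 1) = rows gx kx n +
      (Nat.mod (Nat.shiftRight gx (Nat.mul 64 n)) bn +
        2 * Nat.mod (Nat.shiftRight kx (Nat.mul 64 (32 - n))) bn) <<< (2112 * n) := rfl
    rw [e1, row_eq, row_eq, Nat.shiftLeft_eq]
    push_cast
    rw [add_right_inj]
    rw [Finset.mul_sum, ← Finset.sum_add_distrib, Finset.sum_mul]
    refine Finset.sum_congr rfl fun i _ => ?_
    ring

lemma e2_spec : ((e2 : ℕ) : ℤ) = pk2 (fun _ _ => 1) := by
  rw [e2_def, mask_eq 1 1089 (by norm_num), pk2_flat]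
  push_cast
  simp

lemma dg_sum (d : ℕ → ℕ) (hd : ∀ k, d k < 2 ^ 64) (n j : ℕ) (hj : j < n) :
    dg (∑ k ∈ range n, d k * 2 ^ (64 * k)) j = d j := by
  rw [dg_eq]
  obtain ⟨r, rfl⟩ : ∃ r, n = j + 1 + r := ⟨n - (j + 1), by omega⟩
  rw [Finset.sum_range_add, Finset.sum_range_succ]
  have h1 := sum_digits_lt (le_refl 64) d hd j
  have h2 : ∑ x ∈ range r, d (j + 1 + x) * 2 ^ (64 * (j + 1 + x)) =
      2 ^ (64 * j) * (2 ^ 64 * ∑ x ∈ range r, d (j + 1 + x) * 2 ^ (64 * x)) := by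
    rw [Finset.mul_sum, Finset.mul_sum]
    refine Finset.sum_congr rfl fun x _ => ?_
    ring
  rw [h2]
  have h3 : (∑ k ∈ range j, d k * 2 ^ (64 * k)) + d j * 2 ^ (64 * j) +
      2 ^ (64 * j) * (2 ^ 64 * ∑ x ∈ range r, d (j + 1 + x) * 2 ^ (64 * x)) =
      (∑ k ∈ range j, d k * 2 ^ (64 * k)) +
      2 ^ (64 * j) * (d j + 2 ^ 64 * ∑ x ∈ range r, d (j + 1 + x) * 2 ^ (64 * x)) := by ring
  rw [h3, Nat.add_mul_div_left _ _ (by positivity), Nat.div_eq_of_lt h1, zero_add,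
    Nat.add_mul_mod_self_left, Nat.mod_eq_of_lt (hd j)]

lemma dg_exp24 (g k : ℕ) (hk : k < 65) : dg (exp24 g) k < 2 ^ 24 := by
  have h1 : ∃ y, exp24 g = Nat.land y (mask 24 64 65) := by
    rw [← k24_def]; exact ⟨_, rfl⟩
  obtain ⟨y, hy⟩ := h1
  rw [hy, land_mask (by norm_num) (by norm_num), dg_sum _ _ _ _ hk]
  · exact D_lt _ _ _ _
  · intro k
    exact lt_of_lt_of_le (D_lt _ _ _ _) (Nat.pow_le_pow_right (by norm_num) (by norm_num))

lemma sumF_eq (F : ℕ → ℕ) (n : ℕ) : sumF F n = ∑ k ∈ range n, F k := by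
  induction n with
  | zero => rfl
  | succ n ih =>
    rw [Finset.sum_range_succ, ← ih]; rfl

lemma allF_spec (F : ℕ → Bool) (n : ℕ) (h : allF F n = true) : ∀ k < n, F k = true := by
  induction n with
  | zero => intro k hk; omega
  | succ n ih =>
    have h1 : allF F (n + 1) = match F n with
      | true => allF F n
      | false => false := rfl
    rw [h1] at h
    cases hF : F n with
    | false => rw [hF] at h; simp at h
    | true =>
      rw [hF] at h
      intro k hk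
      rcases Nat.lt_succ_iff_lt_or_eq.1 hk with h2 | h2
      · exact ih h k h2
      · rw [h2]; exact hF

/-- a path is refuted. -/
def Refuted (M : ℝ) (path : List (Bool × ℕ)) : Prop :=
  ∀ m : ℕ → ℝ, Good 32 M m → Sat path m → False

lemma bound_A {a b x y : ℤ} {v : ℕ} (ha : |a| ≤ 2 ^ 50) (hb : |b| ≤ 2 ^ 57) (hx0 : 0 ≤ x)
    (hx : x < 2 ^ 24) (hy0 : 0 ≤ y) (hy : y < 2 ^ 24) (hv : v ≤ 16777216) :
    |262144 * (x + 2 * y) - 262144 * (((25165824 + v : ℕ) : ℤ) * 1) - a - b| < 2 ^ 62 := by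
  have e5 : (v : ℤ) ≤ 16777216 := by exact_mod_cast hv
  have e10 : (0:ℤ) ≤ (v : ℤ) := Int.natCast_nonneg _
  rw [abs_le] at ha hb
  rw [abs_lt]
  push_cast
  obtain ⟨a1, a2⟩ := ha
  obtain ⟨b1, b2⟩ := hb
  constructor <;> linarith

lemma matOk_spec {path : List (Bool × ℕ)} {B : List ℕ} {uw : List (ℕ × ℕ)} {gx kx v : ℕ}
    (hp : path.length ≤ 60) (hB : B.length ≤ 64) (hv : v ≤ 16777216)
    (hg : ∀ k < 65, dg gx k < 2 ^ 24) (hk : ∀ k < 65, dg kx k < 2 ^ 24)
    (h : matOk path B uw gx kx v = true) {m : ℕ → ℝ} (hm : ∀ i, 0 ≤ m i) (hs : Sat path m) :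
    0 ≤ ∑ i ∈ range 33, ∑ j ∈ range 33,
      ((dg gx (i + j) : ℝ) + 2 * (dg kx (i + (32 - j)) : ℝ) - 25165824 - v) * (m i * m j) := by
  obtain ⟨A1, a1, a2, a3⟩ := colsum_spec B c22
  obtain ⟨A2, b1, b2, b3⟩ := consum_spec path uw hp
  have e3 : (B.length : ℤ) ≤ 64 := by exact_mod_cast hB
  have e4 : (path.length : ℤ) ≤ 60 := by exact_mod_cast hp
  have hA1 : ∀ i j, |A1 i j| ≤ 2 ^ 50 := fun i j => (a2 i j).trans (by linarith)
  have hA2 : ∀ i j, |A2 i j| ≤ 2 ^ 57 := fun i j => (b2 i j).trans (by linarith)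
  have hg' : ∀ i < 33, ∀ j < 33, (dg gx (i + j) : ℤ) < 2 ^ 24 := by
    intro i hi j hj
    have := hg (i + j) (by omega)
    exact_mod_cast this
  have hk' : ∀ i < 33, ∀ j < 33, (dg kx (i + (32 - j)) : ℤ) < 2 ^ 24 := by
    intro i hi j hj
    have := hk (i + (32 - j)) (by omega)
    exact_mod_cast this
  have h1 : isOk (262144 * ((rows gx kx 33 : ℕ) : ℤ) - 262144 * ((25165824 + v : ℕ) * ((e2 : ℕ) : ℤ))
      - colsum B c22 - consum path uw) = true := h
  rw [rows_spec, e2_spec, a1, b1] at h1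
  have h2 : ∑ j ∈ range 33, ∑ i ∈ range 33, ((dg gx (i + j) : ℤ) + 2 * (dg kx (i + (32 - j)) : ℤ)) *
      (2 ^ (64 * i) * 2 ^ (2112 * j)) =
      pk2 (fun i j => (dg gx (i + j) : ℤ) + 2 * (dg kx (i + (32 - j)) : ℤ)) := rfl
  rw [h2, pk2_smul, pk2_smul, pk2_smul, pk2_sub, pk2_sub, pk2_sub] at h1
  have h3 := isOk_spec h1 rfl (by
    intro i hi j hj
    exact bound_A (hA1 i j) (hA2 i j) (Int.natCast_nonneg _) (hg' i hi j hj)
      (Int.natCast_nonneg _) (hk' i hi j hj) hv)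
  have h4 : 0 ≤ qf (fun i j => 262144 * ((dg gx (i + j) : ℤ) + 2 * (dg kx (i + (32 - j)) : ℤ)) -
      262144 * (((25165824 + v : ℕ) : ℤ) * 1) - A1 i j - A2 i j) m := by
    unfold qf
    apply Finset.sum_nonneg
    intro i hi
    apply Finset.sum_nonneg
    intro j hj
    apply mul_nonneg
    · exact_mod_cast h3 i (by simpa using hi) j (by simpa using hj)
    · exact mul_nonneg (hm i) (hm j)
  have h5 : qf (fun i j => 262144 * ((dg gx (i + j) : ℤ) + 2 * (dg kx (i + (32 - j)) : ℤ)) -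
      262144 * (((25165824 + v : ℕ) : ℤ) * 1) - A1 i j - A2 i j) m + qf A1 m + qf A2 m =
      262144 * ∑ i ∈ range 33, ∑ j ∈ range 33,
      ((dg gx (i + j) : ℝ) + 2 * (dg kx (i + (32 - j)) : ℝ) - 25165824 - v) * (m i * m j) := by
    rw [← qf_add, ← qf_add]
    unfold qf
    rw [Finset.mul_sum]
    refine Finset.sum_congr rfl fun i _ => ?_
    rw [Finset.mul_sum]
    refine Finset.sum_congr rfl fun j _ => ?_
    push_cast
    ring
  have h6 := a3 m
  have h7 := b3 m hm hs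
  linarith

attribute [local irreducible] exp24

lemma leafOk_parts {MN MD : ℕ} {path : List (Bool × ℕ)} {B : List ℕ}
    {uw : List (ℕ × ℕ)} {g k G κ v : ℕ} (h : leafOk MN MD path B uw g k G κ v = true) :
    v ≤ 16777216 ∧ path.length ≤ 60 ∧ B.length ≤ 64 ∧ objOk MN MD G κ v = true ∧
    vecOk (exp24 g) (exp24 k) G κ = true ∧ matOk path B uw (exp24 g) (exp24 k) v = true := by
  obtain ⟨c1, h⟩ := (Bool.and_eq_true_iff).1 h
  obtain ⟨c2, h⟩ := (Bool.and_eq_true_iff).1 h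
  obtain ⟨c3, h⟩ := (Bool.and_eq_true_iff).1 h
  obtain ⟨c4, h⟩ := (Bool.and_eq_true_iff).1 h
  obtain ⟨c5, h⟩ := (Bool.and_eq_true_iff).1 h
  exact ⟨Nat.le_of_ble_eq_true c1, Nat.le_of_ble_eq_true c2,
              Nat.le_of_ble_eq_true c3, c4, c5, h⟩

lemma vecOk_parts {gx kx G κ : ℕ} (h : vecOk gx kx G κ = true) :
    allF (cond1 gx G) 65 = true ∧ allF (cond0 G) 65 = true ∧ allF (cond2 gx G) 63 = true ∧
    allF (cond1 kx κ) 65 = true ∧ allF (cond2 kx κ) 63 = true := by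
  obtain ⟨c1, h⟩ := (Bool.and_eq_true_iff).1 h
  obtain ⟨c2, h⟩ := (Bool.and_eq_true_iff).1 h
  obtain ⟨c3, h⟩ := (Bool.and_eq_true_iff).1 h
  obtain ⟨c4, h⟩ := (Bool.and_eq_true_iff).1 h
  exact ⟨c1, c2, c3, c4, h⟩

theorem leafOk_sound {MN MD : ℕ} (hMD : 0 < MD) {path : List (Bool × ℕ)} {B : List ℕ}
    {uw : List (ℕ × ℕ)} {g k G κ v : ℕ} (h : leafOk MN MD path B uw g k G κ v = true) :
    Refuted ((MN : ℝ) / MD) path := by
  obtain ⟨c1, c2, c3, c4, c5, h⟩ := leafOk_parts h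
  have hg := dg_exp24 g
  have hk := dg_exp24 k
  obtain ⟨gx, hgx⟩ : ∃ gx, gx = exp24 g := ⟨_, rfl⟩
  obtain ⟨kx, hkx⟩ : ∃ kx, kx = exp24 k := ⟨_, rfl⟩
  rw [← hgx] at hg h c5
  rw [← hkx] at hk h c5
  clear hgx hkx
  intro m hgood hsat
  obtain ⟨hm0, hm1, hmain⟩ := hgood
  have hmat := matOk_spec c2 c3 c1 hg hk h hm0 hsat
  clear h
  -- vector conditions
  obtain ⟨d1, d2, d3, d4, c5⟩ := vecOk_parts c5
  have f1 : ∀ k < 65, dg gx k ≤ dc G k := fun k hk => Nat.le_of_ble_eq_true (allF_spec _ _ d1 k hk)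
  have f2 : ∀ k < 65, 8388608 ≤ dc G k := fun k hk => Nat.le_of_ble_eq_true (allF_spec _ _ d2 k hk)
  have f3 : ∀ k < 63, dg gx k + 2 * dg gx (k + 1) + dg gx (k + 2) ≤ 4 * dc G (k + 1) :=
    fun k hk => Nat.le_of_ble_eq_true (allF_spec _ _ d3 k hk)
  have f4 : ∀ k < 65, dg kx k ≤ dc κ k := fun k hk => Nat.le_of_ble_eq_true (allF_spec _ _ d4 k hk)
  have f5 : ∀ k < 63, dg kx k + 2 * dg kx (k + 1) + dg kx (k + 2) ≤ 4 * dc κ (k + 1) :=
    fun k hk => Nat.le_of_ble_eq_true (allF_spec _ _ c5 k hk)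
  have key := hmain (fun k => ((dg gx k : ℝ) - 8388608) / 262144)
    (fun k => ((dc G k : ℝ) - 8388608) / 262144)
    (fun k => ((dg kx k : ℝ) - 8388608) / 262144)
    (fun k => ((dc κ k : ℝ) - 8388608) / 262144)
    (by
      intro k hk
      have : (8388608 : ℝ) ≤ dc G k := by exact_mod_cast f2 k (by omega)
      apply div_nonneg <;> linarith)
    (by
      intro k hk
      have : (dg gx k : ℝ) ≤ dc G k := by exact_mod_cast f1 k (by omega)
      apply div_le_div_of_nonneg_right <;> linarith)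
    (by
      intro k hk
      have : (dg gx k : ℝ) + 2 * dg gx (k + 1) + dg gx (k + 2) ≤ 4 * dc G (k + 1) := by
        exact_mod_cast f3 k (by omega)
      linarith)
    (by
      intro k hk
      have : (dg kx k : ℝ) ≤ dc κ k := by exact_mod_cast f4 k (by omega)
      apply div_le_div_of_nonneg_right <;> linarith)
    (by
      intro k hk
      have : (dg kx k : ℝ) + 2 * dg kx (k + 1) + dg kx (k + 2) ≤ 4 * dc κ (k + 1) := by
        exact_mod_cast f5 k (by omega)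
      linarith)
  have hsum : ∑ i ∈ range 33, ∑ j ∈ range 33, m i * m j = 1 := by
    rw [← Finset.sum_mul_sum, hm1, one_mul]
  have e1 : ∑ i ∈ range 33, ∑ j ∈ range 33,
      ((dg gx (i + j) : ℝ) + 2 * (dg kx (i + (32 - j)) : ℝ) - 25165824 - v) * (m i * m j) =
      262144 * (∑ i ∈ range (32 + 1), ∑ j ∈ range (32 + 1),
        (((dg gx (i + j) : ℝ) - 8388608) / 262144 +
          2 * (((dg kx (i + (32 - j)) : ℝ) - 8388608) / 262144)) * (m i * m j)) -
      v * ∑ i ∈ range 33, ∑ j ∈ range 33, m i * m j := by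
    rw [Finset.mul_sum, Finset.mul_sum, ← Finset.sum_sub_distrib]
    refine Finset.sum_congr rfl fun i _ => ?_
    rw [Finset.mul_sum, Finset.mul_sum, ← Finset.sum_sub_distrib]
    refine Finset.sum_congr rfl fun j _ => ?_
    ring
  rw [hsum, mul_one] at e1
  rw [e1] at hmat
  -- objective
  have ho : (786432 * MN) * sumF (linf G) 64 + (192 * MN) * 68719476736 +
      (2 * MD) * (sumF (sqf κ) 64 + 13510798882111488) <
      (50331648 * MD) * v + (786432 * MN) * 1073741824 +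
      ((2 * MD) * 25165824) * sumF (linf κ) 64 := Nat.le_of_ble_eq_true c4
  rw [sumF_eq, sumF_eq, sumF_eq] at ho
  have ho' : ((786432 * MN) * (∑ k ∈ range 64, ((dc G k : ℝ) + dc G (k + 1))) +
      (192 * MN) * 68719476736 +
      (2 * MD) * ((∑ k ∈ range 64, ((dc κ k : ℝ) * dc κ k + dc κ k * dc κ (k + 1) +
        dc κ (k + 1) * dc κ (k + 1))) + 13510798882111488) : ℝ) <
      (50331648 * MD) * v + (786432 * MN) * 1073741824 +
      ((2 * MD) * 25165824) * (∑ k ∈ range 64, ((dc κ k : ℝ) + dc κ (k + 1))) := by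
    exact_mod_cast ho
  have s1 : ∑ k ∈ range (2 * 32), (((dc G k : ℝ) - 8388608) / 262144 +
      ((dc G (k + 1) : ℝ) - 8388608) / 262144) =
      ((∑ k ∈ range 64, ((dc G k : ℝ) + dc G (k + 1))) - 1073741824) / 262144 := by
    have : ∀ k, (((dc G k : ℝ) - 8388608) / 262144 + ((dc G (k + 1) : ℝ) - 8388608) / 262144) =
      ((dc G k : ℝ) + dc G (k + 1)) / 262144 - 64 := by intro k; ring
    simp_rw [this]
    rw [Finset.sum_sub_distrib, ← Finset.sum_div]
    simp
    ring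
  have s2 : ∑ k ∈ range (2 * 32), ((((dc κ k : ℝ) - 8388608) / 262144) ^ 2 +
      (((dc κ k : ℝ) - 8388608) / 262144) * (((dc κ (k + 1) : ℝ) - 8388608) / 262144) +
      (((dc κ (k + 1) : ℝ) - 8388608) / 262144) ^ 2) =
      ((∑ k ∈ range 64, ((dc κ k : ℝ) * dc κ k + dc κ k * dc κ (k + 1) +
        dc κ (k + 1) * dc κ (k + 1))) + 13510798882111488 -
        25165824 * (∑ k ∈ range 64, ((dc κ k : ℝ) + dc κ (k + 1)))) / 68719476736 := by
    have : ∀ k, ((((dc κ k : ℝ) - 8388608) / 262144) ^ 2 +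
      (((dc κ k : ℝ) - 8388608) / 262144) * (((dc κ (k + 1) : ℝ) - 8388608) / 262144) +
      (((dc κ (k + 1) : ℝ) - 8388608) / 262144) ^ 2) =
      ((dc κ k : ℝ) * dc κ k + dc κ k * dc κ (k + 1) +
        dc κ (k + 1) * dc κ (k + 1)) / 68719476736 -
        25165824 * ((dc κ k : ℝ) + dc κ (k + 1)) / 68719476736 + 3072 := by intro k; ring
    simp_rw [this]
    rw [Finset.sum_add_distrib, Finset.sum_sub_distrib, ← Finset.sum_div, ← Finset.sum_div,
      ← Finset.mul_sum]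
    simp
    ring
  rw [s1, s2] at key
  have hMD' : (0:ℝ) < MD := by exact_mod_cast hMD
  have key2 := le_trans (le_of_sub_nonneg hmat) (mul_le_mul_of_nonneg_left key (by norm_num))
  generalize ∑ k ∈ range 64, ((dc G k : ℝ) + dc G (k + 1)) = x1 at *
  generalize ∑ k ∈ range 64, ((dc κ k : ℝ) + dc κ (k + 1)) = x2 at *
  generalize ∑ k ∈ range 64, ((dc κ k : ℝ) * dc κ k + dc κ k * dc κ (k + 1) +
        dc κ (k + 1) * dc κ (k + 1)) = x3 at *
  push_cast at key2
  have key3 : (50331648 * (MD : ℝ)) * v ≤ 50331648 * MD * (262144 *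
      ((MN : ℝ) / MD * ((x1 - 1073741824) / 262144 / (2 * 32)) + (MN : ℝ) / MD +
        (x3 + 13510798882111488 - 25165824 * x2) / 68719476736 / (3 * 32))) := by
    apply mul_le_mul_of_nonneg_left key2
    positivity
  have key4 : 50331648 * (MD : ℝ) * (262144 *
      ((MN : ℝ) / MD * ((x1 - 1073741824) / 262144 / (2 * 32)) + (MN : ℝ) / MD +
        (x3 + 13510798882111488 - 25165824 * x2) / 68719476736 / (3 * 32))) =
      (786432 * MN) * (x1 - 1073741824) + (192 * MN) * 68719476736 +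
      (2 * MD) * (x3 + 13510798882111488 - 25165824 * x2) := by
    field_simp
    ring
  rw [key4] at key3
  linarith

end Pool.Agent.AutoConv
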