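import Pool.Agent.AutoConv.Check3

/-!
# Autoconvolutions: soundness of the refined certificate checker
-/

open Finset

namespace Pool.Agent.AutoConv

/-- packing of `m` digits. -/
def pkm (m : ℕ) (y : ℕ → ℤ) : ℤ := ∑ k ∈ range m, y k * 2 ^ (64 * k)

lemma pkm_add (m : ℕ) (y z : ℕ → ℤ) : pkm m y + pkm m z = pkm m (fun k => y k + z k) := by
  unfold pkm
  rw [← Finset.sum_add_distrib]
  exact Finset.sum_congr rfl fun i _ => by ring

lemma pkm_sub (m : ℕ) (y z : ℕ → ℤ) : pkm m y - pkm m z = pkm m (fun k => y k - z k) := by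
  unfold pkm
  rw [← Finset.sum_sub_distrib]
  exact Finset.sum_congr rfl fun i _ => by ring

lemma pkm_smul (m : ℕ) (c : ℤ) (y : ℕ → ℤ) : c * pkm m y = pkm m (fun k => c * y k) := by
  unfold pkm
  rw [Finset.mul_sum]
  exact Finset.sum_congr rfl fun i _ => by ring

lemma nnOk_spec {m : ℕ} {X : ℤ} (h : nnOk m X = true) {a : ℕ → ℤ} (hX : X = pkm m a)
    (hb : ∀ k < m, |a k| < 2 ^ 62) : ∀ k < m, 0 ≤ a k := by
  cases X with
  | negSucc a => simp [nnOk] at h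
  | ofNat x =>
    have h1 : Nat.land x (mask 63 64 m) = x := Nat.eq_of_beq_eq_true h
    have h2 : Nat.land x (mask 63 64 m) = ∑ k ∈ range m, D x 63 64 k * 2 ^ (64 * k) :=
      land_mask (by norm_num) (by norm_num) _ _
    rw [h1] at h2
    have h3 : (Int.ofNat x : ℤ) = ∑ k ∈ range m, (D x 63 64 k : ℤ) * 2 ^ (64 * k) := by
      have : (Int.ofNat x : ℤ) = (x : ℤ) := rfl
      rw [this]
      conv_lhs => rw [h2]
      push_cast
      rfl
    rw [h3] at hX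
    have h4 := key1 m (fun k => a k - (D x 63 64 k : ℤ)) (by
      intro k hk
      have e1 := hb k hk
      have e2 : (D x 63 64 k : ℤ) < 2 ^ 63 := by exact_mod_cast D_lt x 63 64 k
      have e3 : (0:ℤ) ≤ (D x 63 64 k : ℤ) := Int.natCast_nonneg _
      rw [abs_lt] at e1 ⊢
      constructor <;> linarith [e1.1, e1.2]) (by
      simp only [sub_mul]
      rw [Finset.sum_sub_distrib, hX]
      simp [pkm])
    intro k hk
    have h5 := h4 k hk
    have e3 : (0:ℤ) ≤ (D x 63 64 k : ℤ) := Int.natCast_nonneg _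
    linarith

lemma low_eq (x s m : ℕ) : ((low x s m : ℕ) : ℤ) = pkm m (fun k => (dg x (k + s) : ℤ)) := by
  have e1 : low x s m = (x >>> (64 * s)) % 2 ^ (64 * m) := rfl
  have e2 : low x s m = ∑ i ∈ range m, dg x (i + s) * 2 ^ (64 * i) := by
    rw [e1, mod_digits, Nat.shiftRight_eq_div_pow]
    refine Finset.sum_congr rfl fun i _ => ?_
    have e2 : 64 * s + 64 * i = 64 * (i + s) := by ring
    rw [dg_eq, Nat.div_div_eq_div_mul, ← pow_add, e2]
  rw [e2]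
  unfold pkm
  push_cast
  rfl

lemma ones_eq (m : ℕ) : ((mask 1 64 m : ℕ) : ℤ) = pkm m (fun _ => 1) := by
  rw [mask_eq 1 m (by norm_num)]
  unfold pkm
  push_cast
  simp

/-- a number which is a packed vector of 65 digits below `2 ^ 24`. -/
structure Vec (x : ℕ) (d : ℕ → ℕ) : Prop where
  eq : x = ∑ k ∈ range 65, d k * 2 ^ (64 * k)
  lt : ∀ k, d k < 2 ^ 24

lemma Vec.dg {x : ℕ} {d : ℕ → ℕ} (h : Vec x d) {k : ℕ} (hk : k < 65) : dg x k = d k := by
  rw [h.eq]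
  exact dg_sum d (fun k => lt_of_lt_of_le (h.lt k) (Nat.pow_le_pow_right (by norm_num)
    (by norm_num))) 65 k hk

lemma dd2_def : dd2 = 2 ^ (64 * (64 + 1)) - 2 ^ 64 := by decide +kernel

lemma m24_def : m24 = mask 24 4160 65 := rfl

lemma spc_eq (g : ℕ) : ∃ d : ℕ → ℕ, (∀ k, d k < 2 ^ 24) ∧
    spc g = ∑ j ∈ range 65, d j * 2 ^ (4160 * j) ∧ Vec (cmp g) d := by
  obtain ⟨Y, hY⟩ : ∃ Y, Y = Nat.mul g c24 := ⟨_, rfl⟩
  have h1 : spc g = ∑ j ∈ range 65, D Y 24 4160 j * 2 ^ (4160 * j) := by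
    rw [spc, ← hY, m24_def]
    exact land_mask (by norm_num) (by norm_num) _ _
  refine ⟨fun k => D Y 24 4160 k, fun k => D_lt _ _ _ _, h1, ?_, fun k => D_lt _ _ _ _⟩
  have h := comp_mod (w := 64) (t := 24) (by norm_num) (fun j => D Y 24 4160 j)
    (fun j => D_lt _ _ _ _) 64 (by norm_num)
  rw [← dd2_def] at h
  rw [cmp, h1]
  exact h

lemma mod_ones {w n : ℕ} (d : ℕ → ℕ) (h : ∑ k ∈ range n, d k < 2 ^ w - 1) :
    (∑ k ∈ range n, d k * 2 ^ (w * k)) % (2 ^ w - 1) = ∑ k ∈ range n, d k := by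
  have hmod : 2 ^ w ≡ 1 [MOD (2 ^ w - 1)] := by
    have h1 : 2 ^ w = (2 ^ w - 1) + 1 := by
      have : 0 < 2 ^ w := by positivity
      omega
    have h2 : (2 ^ w - 1) + 1 ≡ 1 [MOD (2 ^ w - 1)] := by simp [Nat.ModEq]
    rwa [← h1] at h2
  have hsum : ∀ N, ∑ j ∈ range N, d j * 2 ^ (w * j) ≡ ∑ j ∈ range N, d j [MOD (2 ^ w - 1)] := by
    intro N
    induction N with
    | zero => exact Nat.ModEq.refl _
    | succ N ih =>
      rw [Finset.sum_range_succ, Finset.sum_range_succ]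
      refine Nat.ModEq.add ih ?_
      have h3 := (hmod.pow N).mul_left (d N)
      rw [one_pow, mul_one, ← pow_mul] at h3
      exact h3
  have := hsum n
  rw [Nat.ModEq, Nat.mod_eq_of_lt h] at this
  exact this

lemma sumD_eq {x : ℕ} {d : ℕ → ℕ} (h : Vec x d) : sumD x = ∑ k ∈ range 65, d k := by
  have h1 : sumD x = x % (2 ^ 64 - 1) := by
    have : (18446744073709551615 : ℕ) = 2 ^ 64 - 1 := by norm_num
    rw [← this]; rfl
  rw [h1, h.eq]
  apply mod_ones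
  calc ∑ k ∈ range 65, d k ≤ ∑ k ∈ range 65, 2 ^ 24 := Finset.sum_le_sum fun k _ => (h.lt k).le
    _ < 2 ^ 64 - 1 := by simp

lemma sum_dblN (f : ℕ → ℕ) (n m : ℕ) :
    ∑ k ∈ range (n * m), f k = ∑ j ∈ range m, ∑ i ∈ range n, f (i + n * j) := by
  induction m with
  | zero => simp
  | succ m ih =>
    rw [Nat.mul_succ, Finset.sum_range_add, Finset.sum_range_succ, ih]
    congr 1
    refine Finset.sum_congr rfl fun i _ => ?_
    congr 1; ring

lemma prod_flat {x z : ℕ} {d : ℕ → ℕ} (h : Vec x d)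
    (hz : z = ∑ j ∈ range 65, d j * 2 ^ (4160 * j)) :
    x * z = ∑ k ∈ range (65 * 65), (d (k % 65) * d (k / 65)) * 2 ^ (64 * k) := by
  rw [sum_dblN, h.eq, hz, Finset.sum_mul_sum, Finset.sum_comm]
  refine Finset.sum_congr rfl fun j hj => Finset.sum_congr rfl fun i hi => ?_
  have hi' : i < 65 := by simpa using hi
  have e1 : (i + 65 * j) % 65 = i := by omega
  have e2 : (i + 65 * j) / 65 = j := by omega
  rw [e1, e2]
  have e3 : 64 * (i + 65 * j) = 64 * i + 4160 * j := by ring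
  rw [e3, pow_add]; ring

lemma dg_prod {x z : ℕ} {d : ℕ → ℕ} (h : Vec x d)
    (hz : z = ∑ j ∈ range 65, d j * 2 ^ (4160 * j)) {k : ℕ} (hk : k < 65 * 65) :
    dg (x * z) k = d (k % 65) * d (k / 65) := by
  rw [prod_flat h hz]
  apply dg_sum _ _ _ _ hk
  intro k
  calc d (k % 65) * d (k / 65) < 2 ^ 24 * 2 ^ 24 := by
        have h1 := h.lt (k % 65)
        have h2 := h.lt (k / 65)
        nlinarith
    _ ≤ 2 ^ 64 := by norm_num

lemma mul_bnd {a b : ℕ} (ha : a < 2 ^ 24) (hb : b < 2 ^ 24) : a * b ≤ 2 ^ 48 := by nlinarith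

lemma sum_bnd (f : ℕ → ℕ) (hf : ∀ k, f k ≤ 2 ^ 48) {n : ℕ} (hn : n ≤ 65) :
    ∑ k ∈ range n, f k < 2 ^ 64 := by
  have h1 : ∑ k ∈ range n, f k ≤ ∑ _k ∈ range n, 2 ^ 48 := Finset.sum_le_sum fun k _ => hf k
  rw [Finset.sum_const, Finset.card_range, smul_eq_mul] at h1
  nlinarith

lemma pow_bnd_aux (n : ℕ) (hn : 65 ≤ n) : 2 ^ 64 ≤ 2 ^ n - 1 := by
  have h1 : 2 ^ 65 ≤ 2 ^ n := Nat.pow_le_pow_right (by norm_num) hn
  omega

lemma mod_sum {w n : ℕ} (hw : 65 ≤ w) (hn : n ≤ 65) (f : ℕ → ℕ) (hf : ∀ k, f k ≤ 2 ^ 48) :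
    (∑ k ∈ range n, f k * 2 ^ (w * k)) % (2 ^ w - 1) = ∑ k ∈ range n, f k :=
  mod_ones f (lt_of_lt_of_le (sum_bnd f hf hn) (pow_bnd_aux w hw))

lemma pred_pow (n : ℕ) : Nat.sub (Nat.pow 2 n) 1 = 2 ^ n - 1 := rfl

lemma nat_mod_def (a b : ℕ) : Nat.mod a b = a % b := rfl

lemma nat_mul_def (a b : ℕ) : Nat.mul a b = a * b := rfl

lemma nat_shr_def (a b : ℕ) : Nat.shiftRight a b = a >>> b := rfl

lemma sumQ_aux {w : ℕ} (hw : w = 4224) {x z : ℕ} {d : ℕ → ℕ} (h : Vec x d)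
    (hz : z = ∑ j ∈ range 65, d j * 2 ^ (4160 * j)) :
    Nat.mod (Nat.land (Nat.mul x z) (mask 64 w 65)) (Nat.sub (Nat.pow 2 w) 1) =
      ∑ k ∈ range 65, d k * d k := by
  rw [pred_pow, nat_mod_def, nat_mul_def, land_mask (by omega) (by omega)]
  have e2 : ∀ j ∈ range 65, D (x * z) 64 w j * 2 ^ (w * j) = (d j * d j) * 2 ^ (w * j) := by
    intro j hj
    have hj' : j < 65 := by simpa using hj
    have e3 : D (x * z) 64 w j = dg (x * z) (66 * j) := by
      rw [dg_eq, D]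
      have : w * j = 64 * (66 * j) := by rw [hw]; ring
      rw [this]
    have e4 : (66 * j) % 65 = j := by omega
    have e5 : (66 * j) / 65 = j := by omega
    rw [e3, dg_prod h hz (by omega), e4, e5]
  rw [Finset.sum_congr rfl e2]
  exact mod_sum (by omega) (by norm_num) (fun k => d k * d k) (fun k => mul_bnd (h.lt k) (h.lt k))

lemma sumP_aux {w : ℕ} (hw : w = 4224) {x z : ℕ} {d : ℕ → ℕ} (h : Vec x d)
    (hz : z = ∑ j ∈ range 65, d j * 2 ^ (4160 * j)) :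
    Nat.mod (Nat.land (Nat.shiftRight (Nat.mul x z) 64) (mask 64 w 64))
      (Nat.sub (Nat.pow 2 w) 1) = ∑ k ∈ range 64, d (k + 1) * d k := by
  rw [pred_pow, nat_mod_def, nat_mul_def, nat_shr_def, land_mask (by omega) (by omega)]
  have e2 : ∀ j ∈ range 64, D ((x * z) >>> 64) 64 w j * 2 ^ (w * j) =
      (d (j + 1) * d j) * 2 ^ (w * j) := by
    intro j hj
    have hj' : j < 64 := by simpa using hj
    have e3 : D ((x * z) >>> 64) 64 w j = dg (x * z) (66 * j + 1) := by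
      rw [dg_eq, D, Nat.shiftRight_eq_div_pow, Nat.div_div_eq_div_mul, ← pow_add]
      have : 64 + w * j = 64 * (66 * j + 1) := by rw [hw]; ring
      rw [this]
    have e4 : (66 * j + 1) % 65 = j + 1 := by omega
    have e5 : (66 * j + 1) / 65 = j := by omega
    rw [e3, dg_prod h hz (by omega), e4, e5]
  rw [Finset.sum_congr rfl e2]
  exact mod_sum (by omega) (by norm_num) (fun k => d (k + 1) * d k)
    (fun k => mul_bnd (h.lt (k + 1)) (h.lt k))

lemma sumQ_eq {x z : ℕ} {d : ℕ → ℕ} (h : Vec x d)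
    (hz : z = ∑ j ∈ range 65, d j * 2 ^ (4160 * j)) :
    sumQ z x = ∑ k ∈ range 65, d k * d k := by
  rw [sumQ, sumQ_aux (w := 4224) rfl h hz]

lemma sumP_eq {x z : ℕ} {d : ℕ → ℕ} (h : Vec x d)
    (hz : z = ∑ j ∈ range 65, d j * 2 ^ (4160 * j)) :
    sumP z x = ∑ k ∈ range 64, d (k + 1) * d k := by
  rw [sumP, sumP_aux (w := 4224) rfl h hz]

lemma isub_eq (x y : ℕ) : isub x y = (x : ℤ) - (y : ℤ) := rfl

lemma leOk_spec {x X : ℕ} (h : leOk x X = true) (hx : ∀ k < 65, dg x k < 2 ^ 24)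
    (hX : ∀ k < 65, dg X k < 2 ^ 24) : ∀ k < 65, dg x k ≤ dg X k := by
  intro k hk
  have h2 := nnOk_spec h (a := fun k => (dg X (k + 0) : ℤ) - (dg x (k + 0) : ℤ)) (by
    rw [isub_eq, low_eq, low_eq, pkm_sub]) (by
    intro k hk
    have h3 := hx k hk
    have h4 := hX k hk
    rw [abs_lt]
    constructor <;> push_cast <;> simp only [Nat.add_zero] <;> omega) k hk
  simp only [Nat.add_zero] at h2
  omega

lemma posOk_spec {X : ℕ} (h : posOk X = true) (hX : ∀ k < 65, dg X k < 2 ^ 24) :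
    ∀ k < 65, 8388608 ≤ dg X k := by
  intro k hk
  have h2 := nnOk_spec h (a := fun k => (dg X (k + 0) : ℤ) - 8388608 * 1) (by
    have e : ∀ q : ℕ, ((Nat.mul 8388608 q : ℕ) : ℤ) = 8388608 * (q : ℤ) := fun q => rfl
    rw [isub_eq, low_eq, e, ones_eq, pkm_smul, pkm_sub]) (by
    intro k hk
    have h4 := hX k hk
    rw [abs_lt]
    constructor <;> push_cast <;> simp only [Nat.add_zero] <;> omega) k hk
  simp only [Nat.add_zero] at h2
  omega

lemma monoOk_spec {S : ℕ} (h : monoOk S = true) (hS : ∀ k < 65, dg S k < 2 ^ 24) :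
    ∀ k < 63, dg S k ≤ dg S (k + 1) := by
  intro k hk
  have h2 := nnOk_spec h (a := fun k => (dg S (k + 1) : ℤ) - (dg S (k + 0) : ℤ)) (by
    rw [isub_eq, low_eq, low_eq, pkm_sub]) (by
    intro k hk
    have h3 := hS k (by omega)
    have h4 := hS (k + 1) (by omega)
    rw [abs_lt]
    constructor <;> push_cast <;> simp only [Nat.add_zero] <;> omega) k hk
  simp only [Nat.add_zero] at h2
  omega

lemma d2Ok_spec {x X S big : ℕ} {bf : ℕ → ℤ} (hbig : ((big : ℕ) : ℤ) = pkm 63 bf)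
    (hbf : ∀ k, 0 ≤ bf k ∧ bf k ≤ 2 ^ 40)
    (h : d2Ok x X S big = true) (hx : ∀ k < 65, dg x k < 2 ^ 24)
    (hX : ∀ k < 65, dg X k < 2 ^ 24) (hS : ∀ k < 65, dg S k < 2 ^ 24) :
    ∀ k < 63, bf k = 0 →
      dg x k + 2 * dg x (k + 1) + dg x (k + 2) + dg S k ≤ 4 * dg X (k + 1) + dg S (k + 1) := by
  intro k hk hk0
  have h2 := nnOk_spec h (a := fun k => (4 * (dg X (k + 1) : ℤ) + (dg S (k + 1) : ℤ) + bf k) -
      ((dg x (k + 0) : ℤ) + 2 * (dg x (k + 1) : ℤ) + (dg x (k + 2) : ℤ) + (dg S (k + 0) : ℤ))) (by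
    have e1 : ((Nat.add (Nat.add (Nat.mul 4 (low X 1 63)) (low S 1 63)) big : ℕ) : ℤ) =
        4 * ((low X 1 63 : ℕ) : ℤ) + ((low S 1 63 : ℕ) : ℤ) + ((big : ℕ) : ℤ) := by
      have : Nat.add (Nat.add (Nat.mul 4 (low X 1 63)) (low S 1 63)) big =
        4 * (low X 1 63) + (low S 1 63) + big := rfl
      rw [this]; push_cast; rfl
    have e2 : ((Nat.add (Nat.add (Nat.add (low x 0 63) (Nat.mul 2 (low x 1 63))) (low x 2 63))
        (low S 0 63) : ℕ) : ℤ) = ((low x 0 63 : ℕ) : ℤ) + 2 * ((low x 1 63 : ℕ) : ℤ) +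
        ((low x 2 63 : ℕ) : ℤ) + ((low S 0 63 : ℕ) : ℤ) := by
      have : Nat.add (Nat.add (Nat.add (low x 0 63) (Nat.mul 2 (low x 1 63))) (low x 2 63))
        (low S 0 63) = (low x 0 63) + 2 * (low x 1 63) + (low x 2 63) + (low S 0 63) := rfl
      rw [this]; push_cast; rfl
    rw [isub_eq, e1, e2, low_eq, low_eq, low_eq, low_eq, low_eq, low_eq, hbig, pkm_smul,
      pkm_smul, pkm_add, pkm_add, pkm_add, pkm_add, pkm_add, pkm_sub]) (by
    intro k hk
    have h3 := hx k (by omega)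
    have h4 := hx (k + 1) (by omega)
    have h5 := hx (k + 2) (by omega)
    have h6 := hX (k + 1) (by omega)
    have h7 := hS k (by omega)
    have h8 := hS (k + 1) (by omega)
    have h9 := hbf k
    rw [abs_lt]
    simp only [Nat.add_zero]
    constructor <;> omega) k hk
  simp only [Nat.add_zero] at h2
  omega

lemma budOk_spec {x X SG SK : ℕ} (h : budOk x X SG SK = true) (hx : ∀ k < 65, dg x k < 2 ^ 24)
    (hX : ∀ k < 65, dg X k < 2 ^ 24) (hSG : ∀ k < 65, dg SG k < 2 ^ 24)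
    (hSK : ∀ k < 65, dg SK k < 2 ^ 24) :
    ∀ a < 32, 2 * dg x 31 + (4 * dg x 32 + 2 * dg x 33) + dg SG (a + 32) + 2 * dg SK (a + 32) ≤
      8 * dg X 32 + dg SG a + 2 * dg SK a := by
  intro a ha
  have b1 := hX 32 (by norm_num)
  have b2 := hx 31 (by norm_num)
  have b3 := hx 32 (by norm_num)
  have b4 := hx 33 (by norm_num)
  unfold budOk at h
  generalize dg X 32 = X32 at *
  generalize dg x 31 = x31 at *
  generalize dg x 32 = x32 at *
  generalize dg x 33 = x33 at *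
  have h2 := nnOk_spec h (a := fun k => (((8 * X32 : ℕ) : ℤ) * 1 + (dg SG (k + 0) : ℤ) +
      2 * (dg SK (k + 0) : ℤ)) - (((2 * x31 + (4 * x32 + 2 * x33) : ℕ) : ℤ) * 1 +
      (dg SG (k + 32) : ℤ) + 2 * (dg SK (k + 32) : ℤ))) (by
    have e1 : ((Nat.add (Nat.add (Nat.mul (Nat.mul 8 X32) (mask 1 64 32)) (low SG 0 32))
      (Nat.mul 2 (low SK 0 32)) : ℕ) : ℤ) = ((8 * X32 : ℕ) : ℤ) * ((mask 1 64 32 : ℕ) : ℤ) +
        ((low SG 0 32 : ℕ) : ℤ) + 2 * ((low SK 0 32 : ℕ) : ℤ) := by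
      have : Nat.add (Nat.add (Nat.mul (Nat.mul 8 X32) (mask 1 64 32)) (low SG 0 32))
        (Nat.mul 2 (low SK 0 32)) = (8 * X32) * (mask 1 64 32) + (low SG 0 32) +
        2 * (low SK 0 32) := rfl
      rw [this]; push_cast; rfl
    have e2 : ((Nat.add (Nat.add (Nat.mul (Nat.add (Nat.mul 2 x31) (Nat.add (Nat.mul 4 x32)
      (Nat.mul 2 x33))) (mask 1 64 32)) (low SG 32 32)) (Nat.mul 2 (low SK 32 32)) : ℕ) : ℤ) =
        ((2 * x31 + (4 * x32 + 2 * x33) : ℕ) : ℤ) * ((mask 1 64 32 : ℕ) : ℤ) +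
        ((low SG 32 32 : ℕ) : ℤ) + 2 * ((low SK 32 32 : ℕ) : ℤ) := by
      have : Nat.add (Nat.add (Nat.mul (Nat.add (Nat.mul 2 x31) (Nat.add (Nat.mul 4 x32)
        (Nat.mul 2 x33))) (mask 1 64 32)) (low SG 32 32)) (Nat.mul 2 (low SK 32 32)) =
        (2 * x31 + (4 * x32 + 2 * x33)) * (mask 1 64 32) + (low SG 32 32) +
        2 * (low SK 32 32) := rfl
      rw [this]; push_cast; rfl
    rw [isub_eq, e1, e2, low_eq, low_eq, low_eq, low_eq, ones_eq, pkm_smul,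
      pkm_smul, pkm_smul, pkm_smul, pkm_add, pkm_add, pkm_add, pkm_add, pkm_sub]) (by
    intro k hk
    have h3 := hSG k (by omega)
    have h4 := hSG (k + 32) (by omega)
    have h5 := hSK k (by omega)
    have h6 := hSK (k + 32) (by omega)
    rw [abs_lt]
    simp only [Nat.add_zero]
    push_cast
    constructor <;> omega) a ha
  simp only [Nat.add_zero] at h2
  push_cast at h2
  omega

/-- a path is refuted. -/
def Refuted2 (M : ℝ) (path : List (Bool × ℕ)) : Prop :=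
  ∀ m : ℕ → ℝ, Good2 32 M m → Sat path m → False

lemma and_true' {a b : Bool} (h : and a b = true) : a = true ∧ b = true :=
  (Bool.and_eq_true_iff).1 h

lemma big3_eq : ((big3 : ℕ) : ℤ) = pkm 63 (fun k => if k = 31 then 2 ^ 40 else 0) := by
  have h1 : big3 = 2 ^ 40 * 2 ^ (64 * 31) := by decide +kernel
  have h2 : ∀ n : ℕ, ((2 ^ 40 * 2 ^ n : ℕ) : ℤ) = 2 ^ 40 * 2 ^ n := by intro n; push_cast; rfl
  rw [h1, h2]
  unfold pkm
  simp only [ite_mul, zero_mul]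
  rw [Finset.sum_ite_eq', if_pos (Finset.mem_range.2 (by norm_num))]

end Pool.Agent.AutoConv
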