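import Pool.Agent.AutoConv.Sound3

/-!
# Autoconvolutions: soundness of the refined certificate checker, conclusion
-/

open Finset

namespace Pool.Agent.AutoConv

lemma cmp_lt (g : ℕ) : ∀ k < 65, dg (cmp g) k < 2 ^ 24 := by
  obtain ⟨d, h1, _, h3⟩ := spc_eq g
  intro k hk
  rw [h3.dg hk]; exact h1 k

lemma sumD_cmp (g : ℕ) : sumD (cmp g) = ∑ k ∈ range 65, dg (cmp g) k := by
  obtain ⟨d, _, _, h3⟩ := spc_eq g
  rw [sumD_eq h3]
  exact Finset.sum_congr rfl fun k hk => (h3.dg (by simpa using hk)).symm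

lemma sumQ_cmp (g : ℕ) : sumQ (spc g) (cmp g) = ∑ k ∈ range 65, dg (cmp g) k * dg (cmp g) k := by
  obtain ⟨d, _, h2, h3⟩ := spc_eq g
  rw [sumQ_eq h3 h2]
  exact Finset.sum_congr rfl fun k hk => by rw [h3.dg (by simpa using hk)]

lemma sumP_cmp (g : ℕ) :
    sumP (spc g) (cmp g) = ∑ k ∈ range 64, dg (cmp g) (k + 1) * dg (cmp g) k := by
  obtain ⟨d, _, h2, h3⟩ := spc_eq g
  rw [sumP_eq h3 h2]
  refine Finset.sum_congr rfl fun k hk => ?_
  have hk' : k < 64 := by simpa using hk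
  rw [h3.dg (by omega), h3.dg (by omega)]

lemma palOk_spec {S : ℕ} (h : palOk S = true) :
    (∀ k ≤ 63, dg S k + dg S (63 - k) = dg S 63) ∧ dg S 31 = dg S 32 := by
  obtain ⟨h1, h2⟩ := and_true' h
  have h3 : ∀ k < 32, dg S k + dg S (63 - k) = dg S 63 := fun k hk =>
    Nat.eq_of_beq_eq_true (allF_spec _ _ h1 k hk)
  refine ⟨?_, Nat.eq_of_beq_eq_true h2⟩
  intro k hk
  by_cases hk2 : k < 32
  · exact h3 k hk2
  · have h4 := h3 (63 - k) (by omega)
    have h5 : 63 - (63 - k) = k := by omega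
    rw [h5] at h4
    omega

/-- increments, as real numbers. -/
noncomputable def inc (S k : ℕ) : ℝ := if k < 63 then ((dg S (k + 1) : ℝ) - dg S k) / 262144 else 0

lemma inc_sum (S : ℕ) {a : ℕ} (n : ℕ) (hn : a + n ≤ 63) :
    ∑ b ∈ range n, inc S (a + b) = ((dg S (a + n) : ℝ) - dg S a) / 262144 := by
  induction n with
  | zero => simp
  | succ n ih =>
    rw [Finset.sum_range_succ, ih (by omega)]
    unfold inc
    rw [if_pos (by omega)]
    have : a + n + 1 = a + (n + 1) := by ring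
    rw [this]; ring

lemma big0_eq : (((0 : ℕ) : ℕ) : ℤ) = pkm 63 (fun _ => 0) := by
  unfold pkm; simp

/-- the vector part, in elementary terms. -/
structure VecOk (gx kx Gx κx SG SK : ℕ) : Prop where
  a1 : ∀ k < 65, dg gx k ≤ dg Gx k
  a2 : ∀ k < 65, 8388608 ≤ dg Gx k
  a3 : ∀ k < 63, dg SG k ≤ dg SG (k + 1)
  a4 : ∀ k < 63, dg gx k + 2 * dg gx (k + 1) + dg gx (k + 2) + dg SG k ≤
    4 * dg Gx (k + 1) + dg SG (k + 1)
  a5 : ∀ k < 65, dg kx k ≤ dg κx k
  a6 : ∀ k < 63, dg SK k ≤ dg SK (k + 1)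
  a7 : (∀ k ≤ 63, dg SK k + dg SK (63 - k) = dg SK 63) ∧ dg SK 31 = dg SK 32
  a8 : ∀ k < 63, k ≠ 31 → dg kx k + 2 * dg kx (k + 1) + dg kx (k + 2) + dg SK k ≤
    4 * dg κx (k + 1) + dg SK (k + 1)
  a9 : ∀ a < 32, 2 * dg kx 31 + (4 * dg kx 32 + 2 * dg kx 33) + dg SG (a + 32) +
    2 * dg SK (a + 32) ≤ 8 * dg κx 32 + dg SG a + 2 * dg SK a

lemma vec3_parts {MN MD gx kx Gx κz κx SG SK v : ℕ} (h : vec3 MN MD gx kx Gx κz κx SG SK v = true) :
    leOk gx Gx = true ∧ posOk Gx = true ∧ monoOk SG = true ∧ d2Ok gx Gx SG 0 = true ∧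
    leOk kx κx = true ∧ monoOk SK = true ∧ palOk SK = true ∧ d2Ok kx κx SK big3 = true ∧
    budOk kx κx SG SK = true ∧ obj3 MN MD Gx κz κx v = true := by
  obtain ⟨c1, h⟩ := and_true' h
  obtain ⟨c2, h⟩ := and_true' h
  obtain ⟨c3, h⟩ := and_true' h
  obtain ⟨c4, h⟩ := and_true' h
  obtain ⟨c5, h⟩ := and_true' h
  obtain ⟨c6, h⟩ := and_true' h
  obtain ⟨c7, h⟩ := and_true' h
  obtain ⟨c8, h⟩ := and_true' h
  obtain ⟨c9, h⟩ := and_true' h
  exact ⟨c1, c2, c3, c4, c5, c6, c7, c8, c9, h⟩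

lemma vecOk_of {MN MD gx kx Gx κz κx SG SK v : ℕ} (h : vec3 MN MD gx kx Gx κz κx SG SK v = true)
    (hg : ∀ k < 65, dg gx k < 2 ^ 24) (hk : ∀ k < 65, dg kx k < 2 ^ 24)
    (hG : ∀ k < 65, dg Gx k < 2 ^ 24) (hκ : ∀ k < 65, dg κx k < 2 ^ 24)
    (hSG : ∀ k < 65, dg SG k < 2 ^ 24) (hSK : ∀ k < 65, dg SK k < 2 ^ 24) :
    VecOk gx kx Gx κx SG SK ∧ obj3 MN MD Gx κz κx v = true := by
  obtain ⟨c1, c2, c3, c4, c5, c6, c7, c8, c9, c10⟩ := vec3_parts h
  refine ⟨?_, c10⟩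
  constructor
  · exact leOk_spec c1 hg hG
  · exact posOk_spec c2 hG
  · exact monoOk_spec c3 hSG
  · intro k hk
    exact d2Ok_spec big0_eq (fun _ => ⟨le_rfl, by norm_num⟩) c4 hg hG hSG k hk rfl
  · exact leOk_spec c5 hk hκ
  · exact monoOk_spec c6 hSK
  · exact palOk_spec c7
  · intro k hk1 hk2
    refine d2Ok_spec big3_eq (fun k => ?_) c8 hk hκ hSK k hk1 (if_neg hk2)
    split_ifs
    · exact ⟨by norm_num, le_rfl⟩
    · exact ⟨le_rfl, by norm_num⟩
  · exact budOk_spec c9 hk hκ hSG hSK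

lemma leaf3_parts {MN MD : ℕ} {path : List (Bool × ℕ)} {B : List ℕ} {uw : List (ℕ × ℕ)}
    {g k G κ SG SK v : ℕ} (h : leaf3 MN MD path B uw g k G κ SG SK v = true) :
    v ≤ 16777216 ∧ path.length ≤ 60 ∧ B.length ≤ 64 ∧
    vec3 MN MD (cmp g) (cmp k) (cmp G) (spc κ) (cmp κ) (cmp SG) (cmp SK) v = true ∧
    matOk path B uw (cmp g) (cmp k) v = true := by
  obtain ⟨c1, h⟩ := and_true' h
  obtain ⟨c2, h⟩ := and_true' h
  obtain ⟨c3, h⟩ := and_true' h
  obtain ⟨c4, h⟩ := and_true' h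
  exact ⟨Nat.le_of_ble_eq_true c1, Nat.le_of_ble_eq_true c2, Nat.le_of_ble_eq_true c3, c4, h⟩

/-- the conclusion of `Good2` for the data of a certificate. -/
lemma good2_apply {M : ℝ} {m : ℕ → ℝ} (hgood : Good2 32 M m) {gx kx Gx κx SG SK : ℕ}
    (h : VecOk gx kx Gx κx SG SK) :
    ∑ i ∈ range (32 + 1), ∑ j ∈ range (32 + 1),
        (((dg gx (i + j) : ℝ) - 8388608) / 262144 +
          2 * (((dg kx (i + (32 - j)) : ℝ) - 8388608) / 262144)) * (m i * m j) ≤
      M * ((∑ k ∈ range (2 * 32), (((dg Gx k : ℝ) - 8388608) / 262144 +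
        ((dg Gx (k + 1) : ℝ) - 8388608) / 262144)) / (2 * (32 : ℕ))) + M +
        (∑ k ∈ range (2 * 32), ((((dg κx k : ℝ) - 8388608) / 262144) ^ 2 +
          (((dg κx k : ℝ) - 8388608) / 262144) * (((dg κx (k + 1) : ℝ) - 8388608) / 262144) +
          (((dg κx (k + 1) : ℝ) - 8388608) / 262144) ^ 2)) / (3 * (32 : ℕ)) := by
  obtain ⟨_, _, hmain⟩ := hgood
  obtain ⟨a1, a2, a3, a4, a5, a6, ⟨a7, a7'⟩, a8, a9⟩ := h
  refine hmain (fun k => ((dg gx k : ℝ) - 8388608) / 262144)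
    (fun k => ((dg Gx k : ℝ) - 8388608) / 262144)
    (fun k => ((dg kx k : ℝ) - 8388608) / 262144)
    (fun k => ((dg κx k : ℝ) - 8388608) / 262144) (inc SG) (inc SK) ?_ ?_ ?_ ?_ ?_ ?_ ?_ ?_ ?_
  · intro k hk
    have : (8388608 : ℝ) ≤ dg Gx k := by exact_mod_cast a2 k (by omega)
    apply div_nonneg <;> linarith
  · intro k hk
    have : (dg gx k : ℝ) ≤ dg Gx k := by exact_mod_cast a1 k (by omega)
    apply div_le_div_of_nonneg_right <;> linarith
  · intro k
    unfold inc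
    split_ifs with hk
    · have : (dg SG k : ℝ) ≤ dg SG (k + 1) := by exact_mod_cast a3 k hk
      apply div_nonneg <;> linarith
    · exact le_rfl
  · intro k hk
    have : (dg gx k : ℝ) + 2 * dg gx (k + 1) + dg gx (k + 2) + dg SG k ≤
        4 * dg Gx (k + 1) + dg SG (k + 1) := by
      exact_mod_cast a4 k (by omega)
    unfold inc
    rw [if_pos (by omega)]
    linarith
  · intro k hk
    have : (dg kx k : ℝ) ≤ dg κx k := by exact_mod_cast a5 k (by omega)
    apply div_le_div_of_nonneg_right <;> linarith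
  · intro k
    unfold inc
    split_ifs with hk
    · have : (dg SK k : ℝ) ≤ dg SK (k + 1) := by exact_mod_cast a6 k hk
      apply div_nonneg <;> linarith
    · exact le_rfl
  · unfold inc
    rw [if_pos (by norm_num)]
    have : 32 - 1 + 1 = 32 := by norm_num
    rw [this]
    have : 32 - 1 = 31 := by norm_num
    rw [this, a7']; simp
  · intro k hk hk2
    have : (dg kx k : ℝ) + 2 * dg kx (k + 1) + dg kx (k + 2) + dg SK k ≤
        4 * dg κx (k + 1) + dg SK (k + 1) := by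
      exact_mod_cast a8 k (by omega) (by omega)
    unfold inc
    rw [if_pos (by omega)]
    linarith
  · intro a ha
    have b1 : ∑ b ∈ range 32, inc SG (a + b) = ((dg SG (a + 32) : ℝ) - dg SG a) / 262144 :=
      inc_sum SG 32 (by omega)
    have b2 : ∑ b ∈ range 32, inc SK (a + (32 - 1 - b)) =
        ((dg SK (a + 32) : ℝ) - dg SK a) / 262144 := by
      rw [Finset.sum_range_reflect (fun b => inc SK (a + b)) 32]
      exact inc_sum SK 32 (by omega)
    have b3 : ∑ b ∈ range 32, inc SK (b + (32 - 1 - a)) =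
        ((dg SK (a + 32) : ℝ) - dg SK a) / 262144 := by
      have e1 : ∀ b, b + (32 - 1 - a) = (31 - a) + b := by intro b; omega
      simp_rw [e1]
      rw [inc_sum SK 32 (by omega)]
      have e2 := a7 a (by omega)
      have e3 := a7 (a + 32) (by omega)
      have e4 : 31 - a + 32 = 63 - a := by omega
      have e5 : 63 - (a + 32) = 31 - a := by omega
      rw [e5] at e3
      rw [e4]
      have e2' : (dg SK a : ℝ) + dg SK (63 - a) = dg SK 63 := by exact_mod_cast e2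
      have e3' : (dg SK (a + 32) : ℝ) + dg SK (31 - a) = dg SK 63 := by exact_mod_cast e3
      have e6 : (dg SK (63 - a) : ℝ) - dg SK (31 - a) = dg SK (a + 32) - dg SK a := by linarith
      rw [e6]
    rw [Finset.sum_add_distrib, Finset.sum_add_distrib, b1, b2, b3]
    have e7 : 2 * (dg kx 31 : ℝ) + (4 * dg kx 32 + 2 * dg kx 33) + dg SG (a + 32) +
        2 * dg SK (a + 32) ≤ 8 * dg κx 32 + dg SG a + 2 * dg SK a := by
      exact_mod_cast a9 a ha
    have e8 : 32 - 1 = 31 := by norm_num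
    have e9 : 32 + 1 = 33 := by norm_num
    rw [e8, e9]
    linarith

lemma reorg_lin (f : ℕ → ℝ) : ∑ k ∈ range 64, (f k + f (k + 1)) =
    2 * (∑ k ∈ range 65, f k) - (f 0 + f 64) := by
  rw [Finset.sum_add_distrib]
  have h1 : ∑ k ∈ range 65, f k = ∑ k ∈ range 64, f k + f 64 := Finset.sum_range_succ f 64
  have h2 : ∑ k ∈ range 65, f k = ∑ k ∈ range 64, f (k + 1) + f 0 := Finset.sum_range_succ' f 64
  linarith

lemma reorg_quad (f : ℕ → ℝ) : ∑ k ∈ range 64, (f k * f k + f k * f (k + 1) + f (k + 1) * f (k + 1)) =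
    2 * (∑ k ∈ range 65, f k * f k) + (∑ k ∈ range 64, f (k + 1) * f k) -
      (f 0 * f 0 + f 64 * f 64) := by
  have h0 : ∑ k ∈ range 64, (f k * f k + f k * f (k + 1) + f (k + 1) * f (k + 1)) =
      ∑ k ∈ range 64, (f k * f k + f (k + 1) * f (k + 1)) + ∑ k ∈ range 64, f (k + 1) * f k := by
    rw [← Finset.sum_add_distrib]
    refine Finset.sum_congr rfl fun k _ => ?_
    ring
  rw [h0, reorg_lin (fun k => f k * f k)]
  ring

theorem leaf3_sound {MN MD : ℕ} (hMD : 0 < MD) {path : List (Bool × ℕ)} {B : List ℕ}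
    {uw : List (ℕ × ℕ)} {g k G κ SG SK v : ℕ}
    (h : leaf3 MN MD path B uw g k G κ SG SK v = true) :
    Refuted2 ((MN : ℝ) / MD) path := by
  obtain ⟨c1, c2, c3, c4, h⟩ := leaf3_parts h
  have hg := cmp_lt g
  have hk := cmp_lt k
  obtain ⟨hvec, hobj⟩ := vecOk_of c4 hg hk (cmp_lt G) (cmp_lt κ) (cmp_lt SG) (cmp_lt SK)
  clear c4
  have hs1 := sumD_cmp G
  have hs2 := sumD_cmp κ
  have hs3 := sumQ_cmp κ
  have hs4 := sumP_cmp κ
  generalize cmp g = gx at *
  generalize cmp k = kx at *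
  generalize cmp G = Gx at *
  generalize spc κ = κz at *
  generalize cmp κ = κx at *
  generalize cmp SG = SGx at *
  generalize cmp SK = SKx at *
  intro m hgood hsat
  have hmat := matOk_spec c2 c3 c1 hg hk h hgood.1 hsat
  clear h
  have key := good2_apply hgood hvec
  have hm1 := hgood.2.1
  have hsum : ∑ i ∈ range 33, ∑ j ∈ range 33, m i * m j = 1 := by
    rw [← Finset.sum_mul_sum, hm1, one_mul]
  have e1 : ∑ i ∈ range 33, ∑ j ∈ range 33,
      ((dg gx (i + j) : ℝ) + 2 * (dg kx (i + (32 - j)) : ℝ) - 25165824 - v) * (m i * m j) =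
      262144 * (∑ i ∈ range (32 + 1), ∑ j ∈ range (32 + 1),
        (((dg gx (i + j) : ℝ) - 8388608) / 262144 +
          2 * (((dg kx (i + (32 - j)) : ℝ) - 8388608) / 262144)) * (m i * m j)) -
      v * ∑ i ∈ range 33, ∑ j ∈ range 33, m i * m j := by
    rw [Finset.mul_sum, Finset.mul_sum, ← Finset.sum_sub_distrib]
    refine Finset.sum_congr rfl fun i _ => ?_
    rw [Finset.mul_sum, Finset.mul_sum, ← Finset.sum_sub_distrib]
    refine Finset.sum_congr rfl fun j _ => ?_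
    ring
  rw [hsum, mul_one] at e1
  rw [e1] at hmat
  -- objective
  have ho : (786432 * MN) * (2 * sumD Gx) + (192 * MN) * 68719476736 +
      (2 * MD) * (2 * sumQ κz κx + sumP κz κx + 13510798882111488) +
      ((2 * MD) * 25165824) * (dg κx 0 + dg κx 64) <
      (50331648 * MD) * v + (786432 * MN) * 1073741824 +
      ((2 * MD) * 25165824) * (2 * sumD κx) + (786432 * MN) * (dg Gx 0 + dg Gx 64) +
      (2 * MD) * (dg κx 0 * dg κx 0 + dg κx 64 * dg κx 64) := Nat.le_of_ble_eq_true hobj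
  rw [hs1, hs2, hs3, hs4] at ho
  have ho' : ((786432 * MN) * (2 * ∑ k ∈ range 65, (dg Gx k : ℝ)) +
      (192 * MN) * 68719476736 +
      (2 * MD) * (2 * (∑ k ∈ range 65, (dg κx k : ℝ) * dg κx k) +
        (∑ k ∈ range 64, (dg κx (k + 1) : ℝ) * dg κx k) + 13510798882111488) +
      ((2 * MD) * 25165824) * ((dg κx 0 : ℝ) + dg κx 64) : ℝ) <
      (50331648 * MD) * v + (786432 * MN) * 1073741824 +
      ((2 * MD) * 25165824) * (2 * ∑ k ∈ range 65, (dg κx k : ℝ)) +
      (786432 * MN) * ((dg Gx 0 : ℝ) + dg Gx 64) +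
      (2 * MD) * ((dg κx 0 : ℝ) * dg κx 0 + dg κx 64 * dg κx 64) := by
    exact_mod_cast ho
  have r1 := reorg_lin (fun k => (dg Gx k : ℝ))
  have r2 := reorg_lin (fun k => (dg κx k : ℝ))
  have r3 := reorg_quad (fun k => (dg κx k : ℝ))
  have s1 : ∑ k ∈ range (2 * 32), (((dg Gx k : ℝ) - 8388608) / 262144 +
      ((dg Gx (k + 1) : ℝ) - 8388608) / 262144) =
      ((∑ k ∈ range 64, ((dg Gx k : ℝ) + dg Gx (k + 1))) - 1073741824) / 262144 := by
    have : ∀ k, (((dg Gx k : ℝ) - 8388608) / 262144 + ((dg Gx (k + 1) : ℝ) - 8388608) / 262144) =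
      ((dg Gx k : ℝ) + dg Gx (k + 1)) / 262144 - 64 := by intro k; ring
    simp_rw [this]
    rw [Finset.sum_sub_distrib, ← Finset.sum_div]
    simp
    ring
  have s2 : ∑ k ∈ range (2 * 32), ((((dg κx k : ℝ) - 8388608) / 262144) ^ 2 +
      (((dg κx k : ℝ) - 8388608) / 262144) * (((dg κx (k + 1) : ℝ) - 8388608) / 262144) +
      (((dg κx (k + 1) : ℝ) - 8388608) / 262144) ^ 2) =
      ((∑ k ∈ range 64, ((dg κx k : ℝ) * dg κx k + dg κx k * dg κx (k + 1) +
        dg κx (k + 1) * dg κx (k + 1))) + 13510798882111488 -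
        25165824 * (∑ k ∈ range 64, ((dg κx k : ℝ) + dg κx (k + 1)))) / 68719476736 := by
    have : ∀ k, ((((dg κx k : ℝ) - 8388608) / 262144) ^ 2 +
      (((dg κx k : ℝ) - 8388608) / 262144) * (((dg κx (k + 1) : ℝ) - 8388608) / 262144) +
      (((dg κx (k + 1) : ℝ) - 8388608) / 262144) ^ 2) =
      ((dg κx k : ℝ) * dg κx k + dg κx k * dg κx (k + 1) +
        dg κx (k + 1) * dg κx (k + 1)) / 68719476736 -
        25165824 * ((dg κx k : ℝ) + dg κx (k + 1)) / 68719476736 + 3072 := by intro k; ring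
    simp_rw [this]
    rw [Finset.sum_add_distrib, Finset.sum_sub_distrib, ← Finset.sum_div, ← Finset.sum_div,
      ← Finset.mul_sum]
    simp
    ring
  rw [s1, s2, r1, r2, r3] at key
  clear s1 s2 r1 r2 r3 ho hs1 hs2 hs3 hs4
  have hMD' : (0:ℝ) < MD := by exact_mod_cast hMD
  have key2 := le_trans (le_of_sub_nonneg hmat) (mul_le_mul_of_nonneg_left key (by norm_num))
  generalize ∑ k ∈ range 65, (dg Gx k : ℝ) = x1 at *
  generalize ∑ k ∈ range 65, (dg κx k : ℝ) = x2 at *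
  generalize ∑ k ∈ range 65, (dg κx k : ℝ) * dg κx k = x3 at *
  generalize ∑ k ∈ range 64, (dg κx (k + 1) : ℝ) * dg κx k = x4 at *
  generalize (dg Gx 0 : ℝ) + dg Gx 64 = x5 at *
  generalize (dg κx 0 : ℝ) * dg κx 0 + dg κx 64 * dg κx 64 = x6 at *
  generalize (dg κx 0 : ℝ) + dg κx 64 = x7 at *
  push_cast at key2
  have key3 : (50331648 * (MD : ℝ)) * v ≤ 50331648 * MD * (262144 *
      ((MN : ℝ) / MD * ((2 * x1 - x5 - 1073741824) / 262144 / (2 * 32)) + (MN : ℝ) / MD +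
        (2 * x3 + x4 - x6 + 13510798882111488 - 25165824 * (2 * x2 - x7)) /
          68719476736 / (3 * 32))) := by
    apply mul_le_mul_of_nonneg_left key2
    positivity
  have key4 : 50331648 * (MD : ℝ) * (262144 *
      ((MN : ℝ) / MD * ((2 * x1 - x5 - 1073741824) / 262144 / (2 * 32)) + (MN : ℝ) / MD +
        (2 * x3 + x4 - x6 + 13510798882111488 - 25165824 * (2 * x2 - x7)) /
          68719476736 / (3 * 32))) =
      (786432 * MN) * (2 * x1 - x5 - 1073741824) + (192 * MN) * 68719476736 +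
      (2 * MD) * (2 * x3 + x4 - x6 + 13510798882111488 - 25165824 * (2 * x2 - x7)) := by
    field_simp
    ring
  rw [key4] at key3
  linarith

end Pool.Agent.AutoConv
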