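import Pool.Agent.AutoConv.Sound2

/-!
# Autoconvolutions: branching
-/

open Finset

namespace Pool.Agent.AutoConv

lemma lvec_false (l i : ℕ) : lvec (false, l) i = - lvec (true, l) i := rfl

theorem Refuted.split {M : ℝ} {path : List (Bool × ℕ)} (l : ℕ)
    (h1 : Refuted M ((true, l) :: path)) (h2 : Refuted M ((false, l) :: path)) :
    Refuted M path := by
  intro m hm hs
  rcases le_total 0 (∑ i ∈ range 33, (lvec (true, l) i : ℝ) * m i) with h | h
  · apply h1 m hm
    intro p hp
    rcases List.mem_cons.1 hp with h3 | h3
    · rw [h3]; exact h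
    · exact hs p h3
  · apply h2 m hm
    intro p hp
    rcases List.mem_cons.1 hp with h3 | h3
    · rw [h3]
      have : ∑ i ∈ range 33, (lvec (false, l) i : ℝ) * m i =
          - ∑ i ∈ range 33, (lvec (true, l) i : ℝ) * m i := by
        rw [← Finset.sum_neg_distrib]
        refine Finset.sum_congr rfl fun i _ => ?_
        rw [lvec_false]; push_cast; ring
      rw [this]; linarith
    · exact hs p h3

/-- antisymmetry test for a constraint vector. -/
def antiOk (l : ℕ) : Bool := allF (fun i => decide (lvec (true, l) (32 - i) = - lvec (true, l) i)) 33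

/-- the reflection reduces to one side of an antisymmetric functional. -/
theorem no_good_of_root {M : ℝ} (l : ℕ) (hl : antiOk l = true)
    (h : Refuted M [(true, l)]) : ∀ m, ¬ Good 32 M m := by
  have hanti : ∀ i < 33, lvec (true, l) (32 - i) = - lvec (true, l) i := by
    intro i hi
    exact of_decide_eq_true (allF_spec _ _ hl i hi)
  intro m hm
  rcases le_total 0 (∑ i ∈ range 33, (lvec (true, l) i : ℝ) * m i) with h1 | h1
  · apply h m hm
    intro p hp
    rw [List.mem_singleton.1 hp]; exact h1
  · apply h _ hm.reflect
    intro p hp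
    rw [List.mem_singleton.1 hp]
    have e1 : ∑ i ∈ range 33, (lvec (true, l) i : ℝ) * m (32 - i) =
        - ∑ i ∈ range 33, (lvec (true, l) i : ℝ) * m i := by
      rw [← Finset.sum_range_reflect, ← Finset.sum_neg_distrib]
      refine Finset.sum_congr rfl fun i hi => ?_
      have hi' : i < 33 := by simpa using hi
      have e2 : 33 - 1 - i = 32 - i := by omega
      have e3 : 32 - (32 - i) = i := by omega
      rw [e2, hanti i hi', e3]
      push_cast; ring
    rw [e1]; linarith

end Pool.Agent.AutoConv
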