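import Pool.Agent.AutoConv.Tree
import Pool.Agent.AutoConv.Sound4

/-!
# Autoconvolutions: branching for the refined discretisation
-/

open Finset MeasureTheory
open scoped ENNReal

namespace Pool.Agent.AutoConv

theorem Refuted2.split {M : ℝ} {path : List (Bool × ℕ)} (l : ℕ)
    (h1 : Refuted2 M ((true, l) :: path)) (h2 : Refuted2 M ((false, l) :: path)) :
    Refuted2 M path := by
  intro m hm hs
  rcases le_total 0 (∑ i ∈ range 33, (lvec (true, l) i : ℝ) * m i) with h | h
  · apply h1 m hm
    intro p hp
    rcases List.mem_cons.1 hp with h3 | h3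
    · rw [h3]; exact h
    · exact hs p h3
  · apply h2 m hm
    intro p hp
    rcases List.mem_cons.1 hp with h3 | h3
    · rw [h3]
      have : ∑ i ∈ range 33, (lvec (false, l) i : ℝ) * m i =
          - ∑ i ∈ range 33, (lvec (true, l) i : ℝ) * m i := by
        rw [← Finset.sum_neg_distrib]
        refine Finset.sum_congr rfl fun i _ => ?_
        rw [lvec_false]; push_cast; ring
      rw [this]; linarith
    · exact hs p h3

/-- reflection. -/
theorem Good2.reflect {N : ℕ} {M : ℝ} {m : ℕ → ℝ} (h : Good2 N M m) :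
    Good2 N M (fun i => m (N - i)) := by
  obtain ⟨h0, h1, h2⟩ := h
  refine ⟨fun i => h0 _, ?_, ?_⟩
  · rw [← h1, ← Finset.sum_range_reflect]
    refine Finset.sum_congr rfl fun i hi => ?_
    have : i ≤ N := by simpa [Nat.lt_succ_iff] using hi
    congr 1; omega
  · intro g G K κ cG cK a1 a2 a2' a3 a4 a4' a4'' a5 a6
    have := h2 (fun k => g (2 * N - k)) (fun k => G (2 * N - k)) (fun k => K (2 * N - k))
      (fun k => κ (2 * N - k)) (fun k => cG (2 * N - 2 - k)) (fun k => cK (2 * N - 2 - k))
      (fun k _ => a1 _ (by omega)) (fun k _ => a2 _ (by omega))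
      (fun k => a2' _)
      (fun k hk => by
        have := a3 (2 * N - (k + 2)) (by omega)
        have e1 : 2 * N - (k + 2) + 1 = 2 * N - (k + 1) := by omega
        have e2 : 2 * N - (k + 2) + 2 = 2 * N - k := by omega
        have e3 : 2 * N - (k + 2) = 2 * N - 2 - k := by omega
        rw [e1, e2, e3] at this
        simp only [e3]
        linarith)
      (fun k _ => a4 _ (by omega))
      (fun k => a4' _)
      (by
        have e1 : 2 * N - 2 - (N - 1) = N - 1 := by omega
        simp only [e1]; exact a4'')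
      (fun k hk hk2 => by
        have := a5 (2 * N - (k + 2)) (by omega) (by omega)
        have e1 : 2 * N - (k + 2) + 1 = 2 * N - (k + 1) := by omega
        have e2 : 2 * N - (k + 2) + 2 = 2 * N - k := by omega
        have e3 : 2 * N - (k + 2) = 2 * N - 2 - k := by omega
        rw [e1, e2, e3] at this
        simp only [e3]
        linarith)
      (fun a ha => by
        have h7 := a6 (N - 1 - a) (by omega)
        rw [← Finset.sum_range_reflect] at h7
        have e1 : 2 * N - N = N := by omega
        have e2 : 2 * N - (N - 1) = N + 1 := by omega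
        have e3 : 2 * N - (N + 1) = N - 1 := by omega
        simp only [e1, e2, e3]
        have e4 : ∑ b ∈ range N, (cG (N - 1 - a + (N - 1 - b)) +
            (cK (N - 1 - a + (N - 1 - (N - 1 - b))) + cK (N - 1 - b + (N - 1 - (N - 1 - a))))) =
            ∑ b ∈ range N, (cG (2 * N - 2 - (a + b)) +
              (cK (2 * N - 2 - (a + (N - 1 - b))) + cK (2 * N - 2 - (b + (N - 1 - a))))) := by
          refine Finset.sum_congr rfl fun b hb => ?_
          have hb' : b < N := by simpa using hb
          have f1 : N - 1 - a + (N - 1 - b) = 2 * N - 2 - (a + b) := by omega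
          have f2 : N - 1 - a + (N - 1 - (N - 1 - b)) = 2 * N - 2 - (a + (N - 1 - b)) := by omega
          have f3 : N - 1 - b + (N - 1 - (N - 1 - a)) = 2 * N - 2 - (b + (N - 1 - a)) := by omega
          rw [f1, f2, f3]
        rw [e4] at h7
        linarith)
    have r1 : ∀ F : ℕ → ℝ, ∑ k ∈ Finset.range (2 * N), F (2 * N - 1 - k) =
        ∑ k ∈ Finset.range (2 * N), F k := fun F => Finset.sum_range_reflect F (2 * N)
    have r2 : ∑ k ∈ Finset.range (2 * N), (G (2 * N - k) + G (2 * N - (k + 1))) =
        ∑ k ∈ Finset.range (2 * N), (G k + G (k + 1)) := by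
      rw [← r1 (fun k => G k + G (k + 1))]
      refine Finset.sum_congr rfl fun k hk => ?_
      have : k < 2 * N := by simpa using hk
      have e1 : 2 * N - 1 - k = 2 * N - (k + 1) := by omega
      have e2 : 2 * N - (k + 1) + 1 = 2 * N - k := by omega
      rw [e1, e2]; ring
    have r3 : ∑ k ∈ Finset.range (2 * N), (κ (2 * N - k) ^ 2 +
          κ (2 * N - k) * κ (2 * N - (k + 1)) + κ (2 * N - (k + 1)) ^ 2) =
        ∑ k ∈ Finset.range (2 * N), (κ k ^ 2 + κ k * κ (k + 1) + κ (k + 1) ^ 2) := by
      rw [← r1 (fun k => κ k ^ 2 + κ k * κ (k + 1) + κ (k + 1) ^ 2)]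
      refine Finset.sum_congr rfl fun k hk => ?_
      have : k < 2 * N := by simpa using hk
      have e1 : 2 * N - 1 - k = 2 * N - (k + 1) := by omega
      have e2 : 2 * N - (k + 1) + 1 = 2 * N - k := by omega
      rw [e1, e2]; ring
    rw [r2, r3] at this
    refine le_trans (le_of_eq ?_) this
    rw [← Finset.sum_range_reflect]
    refine Finset.sum_congr rfl fun i hi => ?_
    have hi' : i ≤ N := by simpa [Nat.lt_succ_iff] using hi
    rw [← Finset.sum_range_reflect]
    refine Finset.sum_congr rfl fun j hj => ?_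
    have hj' : j ≤ N := by simpa [Nat.lt_succ_iff] using hj
    have e1 : N + 1 - 1 - i + (N + 1 - 1 - j) = 2 * N - (i + j) := by omega
    have e3 : N - (N + 1 - 1 - i) = i := by omega
    have e5 : N + 1 - 1 - i + j = 2 * N - (i + (N - j)) := by omega
    have e4 : N - (N + 1 - 1 - j) = j := by omega
    simp only [e1, e3, e4, e5]

/-- the reflection reduces to one side of an antisymmetric functional. -/
theorem no_good2_of_root {M : ℝ} (l : ℕ) (hl : antiOk l = true)
    (h : Refuted2 M [(true, l)]) : ∀ m, ¬ Good2 32 M m := by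
  have hanti : ∀ i < 33, lvec (true, l) (32 - i) = - lvec (true, l) i := by
    intro i hi
    exact of_decide_eq_true (allF_spec _ _ hl i hi)
  intro m hm
  rcases le_total 0 (∑ i ∈ range 33, (lvec (true, l) i : ℝ) * m i) with h1 | h1
  · apply h m hm
    intro p hp
    rw [List.mem_singleton.1 hp]; exact h1
  · apply h _ hm.reflect
    intro p hp
    rw [List.mem_singleton.1 hp]
    have e1 : ∑ i ∈ range 33, (lvec (true, l) i : ℝ) * m (32 - i) =
        - ∑ i ∈ range 33, (lvec (true, l) i : ℝ) * m i := by
      rw [← Finset.sum_range_reflect, ← Finset.sum_neg_distrib]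
      refine Finset.sum_congr rfl fun i hi => ?_
      have hi' : i < 33 := by simpa using hi
      have e2 : 33 - 1 - i = 32 - i := by omega
      have e3 : 32 - (32 - i) = i := by omega
      rw [e2, hanti i hi', e3]
      push_cast; ring
    rw [e1]; linarith

theorem le_eLpNorm_of_no_good2 {N : ℕ} (hN : 1 ≤ N) {M : ℝ} (h : ∀ m, ¬ Good2 N M m)
    {f : ℝ → ℝ} (hf : IsUnitIntervalDensity f) :
    ENNReal.ofReal M ≤ eLpNorm (autoconv f) ∞ volume := by
  by_contra hc
  push Not at hc
  have h1 : ∀ᵐ x, autoconv f x ≤ M := by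
    rw [eLpNorm_exponent_top] at hc
    filter_upwards [ae_le_eLpNormEssSup (f := autoconv f) (μ := volume)] with x hx
    have h2 : ‖autoconv f x‖ₑ < ENNReal.ofReal M := lt_of_le_of_lt hx hc
    have h3 : ENNReal.ofReal (autoconv f x) ≤ ENNReal.ofReal M := by
      refine le_trans ?_ h2.le
      rw [← ofReal_norm]
      exact ENNReal.ofReal_le_ofReal (Real.le_norm_self _)
    have h4 : 0 < M := by
      by_contra h5
      push Not at h5
      rw [ENNReal.ofReal_of_nonpos h5] at h2
      exact not_lt_zero h2
    exact (ENNReal.ofReal_le_ofReal_iff h4.le).1 h3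
  obtain ⟨G, hG⟩ := dens_of_density hf h1
  exact h _ (good2_of_dens hN hG)

theorem le_minNorm_of_no_good2 {N : ℕ} (hN : 1 ≤ N) {M : ℝ} (h : ∀ m, ¬ Good2 N M m) :
    ENNReal.ofReal M ≤ minNorm ∞ :=
  le_iInf₂ fun _ hf => le_eLpNorm_of_no_good2 hN h hf

end Pool.Agent.AutoConv
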