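import Mathlib
import Pool.Agent.AutoConv.Defs

/-!
# Upper bounds for the minimal sup norm of autoconvolutions, from step functions
-/

open MeasureTheory Finset
open scoped ENNReal

namespace Pool.Agent.AutoConv.Upper

/-- the discrete autoconvolution -/
def dconv (a : ℕ → ℕ) (k : ℕ) : ℕ := ∑ p ∈ antidiagonal k, a p.1 * a p.2

/-- the step function with height `c * a i` on `[i/n, (i+1)/n)` -/
noncomputable def step (n : ℕ) (a : ℕ → ℕ) (c : ℝ) (x : ℝ) : ℝ :=
  if 0 ≤ x then c * (a ⌊(n : ℝ) * x⌋₊ : ℝ) else 0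

theorem step_of_neg {n : ℕ} {a : ℕ → ℕ} {c x : ℝ} (hx : x < 0) : step n a c x = 0 := by
  simp [step, not_le.mpr hx]

theorem step_of_nonneg {n : ℕ} {a : ℕ → ℕ} {c x : ℝ} (hx : 0 ≤ x) :
    step n a c x = c * (a ⌊(n : ℝ) * x⌋₊ : ℝ) := by
  simp [step, hx]

theorem step_nonneg {n : ℕ} {a : ℕ → ℕ} {c : ℝ} (hc : 0 ≤ c) (x : ℝ) : 0 ≤ step n a c x := by
  unfold step
  split_ifs
  · positivity
  · exact le_rfl

theorem step_eq_zero {n : ℕ} (hn : 0 < n) {a : ℕ → ℕ} (ha : ∀ i, n ≤ i → a i = 0) {c : ℝ} (x : ℝ)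
    (hx : x ∉ Set.Ico (0:ℝ) 1) : step n a c x = 0 := by
  by_cases h0 : 0 ≤ x
  · have h1 : 1 ≤ x := by
      by_contra h
      exact hx ⟨h0, not_le.mp h⟩
    rw [step_of_nonneg h0, ha]
    · simp
    · apply Nat.le_floor
      nlinarith [(Nat.cast_pos.mpr hn : (0:ℝ) < n)]
  · exact step_of_neg (not_le.mp h0)

theorem step_measurable (n : ℕ) (a : ℕ → ℕ) (c : ℝ) : Measurable (step n a c) := by
  unfold step
  apply Measurable.ite measurableSet_Ici
  · apply Measurable.const_mul
    have h1 : Measurable (fun x : ℝ => ⌊(n : ℝ) * x⌋₊) :=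
      Nat.measurable_floor.comp (measurable_const_mul _)
    exact (measurable_from_top (f := fun k : ℕ => (a k : ℝ))).comp h1
  · exact measurable_const

theorem step_bdd {n : ℕ} {a : ℕ → ℕ} (ha : ∀ i, n ≤ i → a i = 0) {c : ℝ} (hc : 0 ≤ c) :
    ∃ C : ℝ, ∀ x, ‖step n a c x‖ ≤ C := by
  refine ⟨c * (∑ i ∈ range n, a i : ℕ), fun x => ?_⟩
  rw [Real.norm_of_nonneg (step_nonneg hc x)]
  unfold step
  split_ifs with h
  · apply mul_le_mul_of_nonneg_left _ hc
    exact_mod_cast (by
      by_cases hk : ⌊(n : ℝ) * x⌋₊ < n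
      · exact Finset.single_le_sum (f := a) (fun i _ => Nat.zero_le _) (mem_range.mpr hk)
      · rw [ha _ (not_lt.mp hk)]; exact Nat.zero_le _ : a ⌊(n : ℝ) * x⌋₊ ≤ ∑ i ∈ range n, a i)
  · positivity

theorem integral_cells (n : ℕ) (hn : 0 < n) (g : ℝ → ℝ) (hg : Integrable g)
    (h0 : ∀ x, x ∉ Set.Ico (0:ℝ) 1 → g x = 0) :
    ∫ x, g x = ∫ s in (0:ℝ)..1, ∑ i ∈ range n, (1 / (n:ℝ)) * g ((s + i) / n) := by
  have hn' : (0:ℝ) < n := Nat.cast_pos.mpr hn
  have h1 : ∫ x, g x = ∫ x in (0:ℝ)..1, g x := by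
    rw [intervalIntegral.integral_of_le zero_le_one, ← integral_Icc_eq_integral_Ioc,
      integral_Icc_eq_integral_Ico]
    rw [setIntegral_eq_integral_of_forall_compl_eq_zero]
    intro x hx
    exact h0 x hx
  have hint : ∀ u v : ℝ, IntervalIntegrable g volume u v := fun u v => hg.intervalIntegrable
  have h2 := intervalIntegral.sum_integral_adjacent_intervals (μ := volume) (f := g)
    (a := fun i : ℕ => (i : ℝ) / n) (n := n) (fun k _ => hint _ _)
  have h3 : ((n : ℕ) : ℝ) / n = 1 := div_self hn'.ne'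
  simp only [Nat.cast_zero, zero_div, h3] at h2
  rw [h1, ← h2, intervalIntegral.integral_finsetSum]
  · apply Finset.sum_congr rfl
    intro i _
    rw [intervalIntegral.integral_const_mul]
    have h4 := intervalIntegral.integral_comp_div_add (f := g) (a := 0) (b := 1) hn'.ne' ((i:ℝ)/n)
    have h5 : (fun s : ℝ => g ((s + i) / n)) = fun s => g (s / n + i / n) := by
      funext s; congr 1; ring
    rw [h5, h4, smul_eq_mul]
    have e1 : (0:ℝ) / n + i / n = i / n := by ring
    have e2 : (1:ℝ) / n + i / n = ((i + 1 : ℕ) : ℝ) / n := by push_cast; ring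
    rw [e1, e2]
    field_simp
  · intro i _
    apply IntervalIntegrable.const_mul
    have h5 : (fun s : ℝ => g ((s + i) / n)) = fun s => g (s * (1 / n) + i / n) := by
      funext s; congr 1; ring
    rw [h5]
    have := (hg.comp_add_right ((i:ℝ)/n)).comp_mul_right' (R := (1:ℝ)/n) (by positivity)
    exact this.intervalIntegrable


/-- the pointwise bound behind everything -/
theorem sum_cells_le {n : ℕ} (hn : 0 < n) {a : ℕ → ℕ} {c : ℝ} (hc : 0 ≤ c) {M : ℕ}
    (hM : ∀ k, dconv a k ≤ M) (x : ℝ) (s : ℝ) (hs0 : 0 ≤ s) (hs1 : s < 1) :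
    ∑ i ∈ range n, step n a c ((s + i) / n) * step n a c (x - (s + i) / n) ≤ c ^ 2 * M := by
  have hn' : (0:ℝ) < n := Nat.cast_pos.mpr hn
  set k := ⌊(n:ℝ) * x - s⌋₊ with hk
  have h1 : ∀ i ∈ range n, step n a c ((s + i) / n) * step n a c (x - (s + i) / n) ≤
      if i ≤ k then c ^ 2 * ((a i : ℝ) * (a (k - i) : ℝ)) else 0 := by
    intro i _
    have e1 : step n a c ((s + i) / n) = c * a i := by
      rw [step_of_nonneg (by positivity)]
      congr 3
      have : (n:ℝ) * ((s + i) / n) = s + i := by field_simp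
      rw [this, Nat.floor_add_natCast hs0, Nat.floor_eq_zero.mpr hs1, zero_add]
    by_cases hx : 0 ≤ x - (s + i) / n
    · have e3 : (n:ℝ) * (x - (s + i) / n) = (n * x - s) - i := by field_simp; ring
      have e4 : (i:ℝ) ≤ n * x - s := by
        have : 0 ≤ (n:ℝ) * (x - (s + i) / n) := by positivity
        linarith
      have e5 : i ≤ k := Nat.le_floor e4
      have e2 : step n a c (x - (s + i) / n) = c * a (k - i) := by
        rw [step_of_nonneg hx, e3, Nat.floor_sub_natCast]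
      rw [if_pos e5, e1, e2]
      apply le_of_eq
      ring
    · rw [step_of_neg (not_le.mp hx), mul_zero]
      split_ifs <;> positivity
  calc ∑ i ∈ range n, step n a c ((s + i) / n) * step n a c (x - (s + i) / n)
      ≤ ∑ i ∈ range n, if i ≤ k then c ^ 2 * ((a i : ℝ) * (a (k - i) : ℝ)) else 0 :=
        sum_le_sum h1
    _ ≤ ∑ i ∈ range (k + 1), c ^ 2 * ((a i : ℝ) * (a (k - i) : ℝ)) := by
        rw [← sum_filter]
        apply sum_le_sum_of_subset_of_nonneg
        · intro i hi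
          simp only [mem_filter, mem_range] at hi ⊢
          omega
        · intro i _ _
          positivity
    _ = c ^ 2 * (dconv a k : ℕ) := by
        rw [← mul_sum, dconv, Finset.Nat.sum_antidiagonal_eq_sum_range_succ (fun i j => a i * a j)]
        push_cast
        rfl
    _ ≤ c ^ 2 * M := by
        apply mul_le_mul_of_nonneg_left _ (by positivity)
        exact_mod_cast hM k

theorem step_integrable {n : ℕ} (hn : 0 < n) {a : ℕ → ℕ} (ha : ∀ i, n ≤ i → a i = 0) {c : ℝ}
    (hc : 0 ≤ c) : Integrable (step n a c) := by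
  obtain ⟨C, hC⟩ := step_bdd (n := n) ha hc
  have h1 : IntegrableOn (step n a c) (Set.Ico (0:ℝ) 1) := by
    apply Measure.integrableOn_of_bounded (M := C)
    · simp
    · exact (step_measurable n a c).aestronglyMeasurable
    · exact Filter.Eventually.of_forall fun x => hC x
  rw [← integrableOn_univ]
  refine h1.of_forall_sdiff_eq_zero MeasurableSet.univ ?_
  intro x hx
  exact step_eq_zero hn ha x hx.2

theorem integral_step {n : ℕ} (hn : 0 < n) {a : ℕ → ℕ} (ha : ∀ i, n ≤ i → a i = 0) {c : ℝ}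
    (hc : 0 ≤ c) : ∫ x, step n a c x = c * (∑ i ∈ range n, a i : ℕ) / n := by
  have hn' : (0:ℝ) < n := Nat.cast_pos.mpr hn
  rw [integral_cells n hn _ (step_integrable hn ha hc) (fun x hx => step_eq_zero hn ha x hx)]
  have h1 : ∀ᵐ s : ℝ, s ∈ Set.uIoc (0:ℝ) 1 → ∑ i ∈ range n, (1 / (n:ℝ)) * step n a c ((s + i) / n)
      = c * (∑ i ∈ range n, a i : ℕ) / n := by
    have h2 : ∀ᵐ s : ℝ, s ≠ 1 := by
      rw [ae_iff]; simp
    filter_upwards [h2] with s hs1 hs
    rw [Set.uIoc_of_le zero_le_one] at hs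
    have hs2 : s < 1 := lt_of_le_of_ne hs.2 hs1
    have hs0 : 0 ≤ s := hs.1.le
    have h3 : ∀ i ∈ range n, (1 / (n:ℝ)) * step n a c ((s + i) / n) = (c / n) * a i := by
      intro i _
      rw [step_of_nonneg (by positivity)]
      have : (n:ℝ) * ((s + i) / n) = s + i := by field_simp
      rw [this, Nat.floor_add_natCast hs0, Nat.floor_eq_zero.mpr hs2, zero_add]
      ring
    rw [sum_congr rfl h3, ← mul_sum]
    push_cast
    ring
  rw [intervalIntegral.integral_congr_ae h1]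
  simp

theorem step_isDensity {n : ℕ} (hn : 0 < n) {a : ℕ → ℕ} (ha : ∀ i, n ≤ i → a i = 0)
    (hS : 0 < ∑ i ∈ range n, a i) :
    IsUnitIntervalDensity (step n a ((n:ℝ) / (∑ i ∈ range n, a i : ℕ))) := by
  have hn' : (0:ℝ) < n := Nat.cast_pos.mpr hn
  have hS' : (0:ℝ) < (∑ i ∈ range n, a i : ℕ) := Nat.cast_pos.mpr hS
  refine ⟨step_integrable hn ha (by positivity), step_nonneg (by positivity), ?_, ?_⟩
  · intro x hx
    apply step_eq_zero hn ha
    intro h
    exact hx ⟨h.1, h.2.le⟩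
  · rw [integral_step hn ha (by positivity)]
    field_simp

theorem autoconv_step_bound {n : ℕ} (hn : 0 < n) {a : ℕ → ℕ} (ha : ∀ i, n ≤ i → a i = 0)
    {c : ℝ} (hc : 0 ≤ c) {M : ℕ} (hM : ∀ k, dconv a k ≤ M) (x : ℝ) :
    ‖autoconv (step n a c) x‖ ≤ c ^ 2 * M / n := by
  have hn' : (0:ℝ) < n := Nat.cast_pos.mpr hn
  obtain ⟨C, hC⟩ := step_bdd (n := n) ha hc
  have hint := step_integrable hn ha hc
  have hg : Integrable (fun t => step n a c t * step n a c (x - t)) := by
    apply Integrable.mul_bdd hint (c := C)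
    · exact ((step_measurable n a c).comp (measurable_const.sub measurable_id)).aestronglyMeasurable
    · exact Filter.Eventually.of_forall fun t => hC (x - t)
  have h0 : ∀ t, t ∉ Set.Ico (0:ℝ) 1 → step n a c t * step n a c (x - t) = 0 := by
    intro t ht
    rw [step_eq_zero hn ha t ht, zero_mul]
  unfold autoconv
  rw [integral_cells n hn _ hg h0]
  have h1 : ∀ᵐ s : ℝ, s ∈ Set.uIoc (0:ℝ) 1 →
      ‖∑ i ∈ range n, (1 / (n:ℝ)) * (step n a c ((s + i) / n) * step n a c (x - (s + i) / n))‖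
        ≤ c ^ 2 * M / n := by
    have h2 : ∀ᵐ s : ℝ, s ≠ 1 := by
      rw [ae_iff]; simp
    filter_upwards [h2] with s hs1 hs
    rw [Set.uIoc_of_le zero_le_one] at hs
    have hs2 : s < 1 := lt_of_le_of_ne hs.2 hs1
    have hs0 : 0 ≤ s := hs.1.le
    rw [← mul_sum, Real.norm_of_nonneg]
    · have := sum_cells_le hn hc hM x s hs0 hs2
      calc 1 / (n:ℝ) * ∑ i ∈ range n, step n a c ((s + i) / n) * step n a c (x - (s + i) / n)
          ≤ 1 / (n:ℝ) * (c ^ 2 * M) := by gcongr
        _ = c ^ 2 * M / n := by ring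
    · apply mul_nonneg (by positivity)
      apply sum_nonneg
      intro i _
      exact mul_nonneg (step_nonneg hc _) (step_nonneg hc _)
  have := intervalIntegral.norm_integral_le_of_norm_le_const_ae h1
  simpa using this

/-- the upper bound from an integer step function -/
theorem minNorm_top_le {n : ℕ} (hn : 0 < n) {a : ℕ → ℕ} (ha : ∀ i, n ≤ i → a i = 0)
    (hS : 0 < ∑ i ∈ range n, a i) {M : ℕ} (hM : ∀ k, dconv a k ≤ M) :
    minNorm ∞ ≤ ENNReal.ofReal ((n : ℝ) * M / (∑ i ∈ range n, a i : ℕ) ^ 2) := by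
  have hn' : (0:ℝ) < n := Nat.cast_pos.mpr hn
  have hS' : (0:ℝ) < (∑ i ∈ range n, a i : ℕ) := Nat.cast_pos.mpr hS
  unfold minNorm
  refine iInf₂_le_of_le _ (step_isDensity hn ha hS) ?_
  rw [eLpNorm_exponent_top]
  have h := eLpNormEssSup_le_of_ae_bound (μ := volume)
    (Filter.Eventually.of_forall fun x =>
      autoconv_step_bound hn ha (c := (n:ℝ) / (∑ i ∈ range n, a i : ℕ)) (by positivity) hM x)
  refine h.trans (le_of_eq ?_)
  congr 1
  field_simp

end Pool.Agent.AutoConv.Upper
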