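import Pool.Agent.AutoConv.Upper

/-!
# Upper bounds for `c(∞)`: certificates by one big multiplication

The heights `a 0, a 1, …` of an integer step function are packed as the digits in base `2 ^ w` of
one natural number `A`; the discrete autoconvolution is then read off from `A * A`.
-/

open Finset
open scoped ENNReal

namespace Pool.Agent.AutoConv.Upper

/-- evaluate `n` first, then apply `f` (for the kernel) -/
def force {α : Type} (n : ℕ) (f : ℕ → α) : α := Nat.rec (f 0) (fun k _ => f (k + 1)) n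

theorem force_eq {α : Type} (n : ℕ) (f : ℕ → α) : force n f = f n := by
  cases n <;> rfl

/-- all `2 ^ d` digits of `N` in base `2 ^ w` are at most `M`, checked by binary splitting -/
def chk (w M : ℕ) : ℕ → ℕ → Bool
  | 0, N => Nat.ble N M
  | d + 1, N => force (N % 2 ^ (w * 2 ^ d)) fun lo => force (N / 2 ^ (w * 2 ^ d)) fun hi =>
      (chk w M d lo && chk w M d hi)

/-- the sum of the `2 ^ d` digits of `N` in base `2 ^ w` -/
def sm (w : ℕ) : ℕ → ℕ → ℕ
  | 0, N => N
  | d + 1, N => force (N % 2 ^ (w * 2 ^ d)) fun lo => force (N / 2 ^ (w * 2 ^ d)) fun hi =>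
      (sm w d lo + sm w d hi)

theorem mod_pow_div_pow_mod (B N j k : ℕ) (h : j < k) :
    N % B ^ k / B ^ j % B = N / B ^ j % B := by
  obtain ⟨m, rfl⟩ : ∃ m, k = j + (m + 1) := ⟨k - j - 1, by omega⟩
  rw [pow_add, Nat.mod_mul_right_div_self, Nat.mod_mod_of_dvd]
  exact dvd_pow_self B (by omega)

theorem div_pow_div_pow (B N j k : ℕ) : N / B ^ k / B ^ j = N / B ^ (k + j) := by
  rw [Nat.div_div_eq_div_mul, pow_add]

theorem two_pow_mul (w d : ℕ) : 2 ^ (w * 2 ^ d) = (2 ^ w) ^ (2 ^ d) := by rw [pow_mul]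

theorem chk_spec (w M : ℕ) : ∀ (d N : ℕ), chk w M d N = true →
    ∀ j < 2 ^ d, N / (2 ^ w) ^ j % 2 ^ w ≤ M := by
  intro d
  induction d with
  | zero =>
    intro N h j hj
    have hj0 : j = 0 := by simpa using hj
    subst hj0
    simp only [chk, Nat.ble_eq] at h
    simp only [pow_zero, Nat.div_one]
    exact (Nat.mod_le _ _).trans h
  | succ d ih =>
    intro N h j hj
    simp only [chk, force_eq, Bool.and_eq_true, two_pow_mul] at h
    by_cases hjd : j < 2 ^ d
    · rw [← mod_pow_div_pow_mod (2 ^ w) N j (2 ^ d) hjd]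
      exact ih _ h.1 j hjd
    · have h2 := ih _ h.2 (j - 2 ^ d) (by rw [pow_succ] at hj; omega)
      rw [div_pow_div_pow, Nat.add_sub_cancel' (not_lt.mp hjd)] at h2
      exact h2

theorem sm_spec (w : ℕ) : ∀ (d N : ℕ), N < (2 ^ w) ^ (2 ^ d) →
    sm w d N = ∑ i ∈ range (2 ^ d), N / (2 ^ w) ^ i % 2 ^ w := by
  intro d
  induction d with
  | zero =>
    intro N h
    simp only [pow_zero, pow_one] at h
    simp [sm, Nat.mod_eq_of_lt h]
  | succ d ih =>
    intro N h
    have hB : 0 < (2 ^ w) ^ (2 ^ d) := by positivity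
    have h1 : N % (2 ^ w) ^ (2 ^ d) < (2 ^ w) ^ (2 ^ d) := Nat.mod_lt _ hB
    have h2 : N / (2 ^ w) ^ (2 ^ d) < (2 ^ w) ^ (2 ^ d) := by
      rw [Nat.div_lt_iff_lt_mul hB, ← pow_add]
      have : 2 ^ d + 2 ^ d = 2 ^ (d + 1) := by rw [pow_succ]; ring
      rw [this]; exact h
    simp only [sm, force_eq, two_pow_mul]
    rw [ih _ h1, ih _ h2]
    have e : 2 ^ (d + 1) = 2 ^ d + 2 ^ d := by rw [pow_succ]; ring
    rw [e, sum_range_add]
    congr 1
    · apply sum_congr rfl
      intro i hi
      exact mod_pow_div_pow_mod _ _ _ _ (mem_range.mp hi)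
    · apply sum_congr rfl
      intro i _
      rw [div_pow_div_pow]

theorem digits_sum (B : ℕ) : ∀ (n A : ℕ), A < B ^ n → A = ∑ i ∈ range n, (A / B ^ i % B) * B ^ i := by
  intro n
  induction n with
  | zero => intro A h; simpa using h
  | succ n ih =>
    intro A h
    rw [sum_range_succ']
    have h1 : A / B < B ^ n := by
      rw [pow_succ] at h
      exact Nat.div_lt_of_lt_mul (by rw [mul_comm]; exact h)
    have h2 := ih (A / B) h1
    have h3 : ∑ i ∈ range n, (A / B ^ (i + 1) % B) * B ^ (i + 1) =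
        B * ∑ i ∈ range n, (A / B / B ^ i % B) * B ^ i := by
      rw [mul_sum]
      apply sum_congr rfl
      intro i _
      rw [Nat.div_div_eq_div_mul, ← pow_succ']
      ring
    rw [h3, ← h2]
    simp only [pow_zero, Nat.div_one, mul_one]
    exact (Nat.div_add_mod A B).symm

theorem digit_of_sum (B : ℕ) (hB : 0 < B) : ∀ (m j : ℕ) (c : ℕ → ℕ), (∀ k, c k < B) → j < m →
    (∑ k ∈ range m, c k * B ^ k) / B ^ j % B = c j := by
  intro m
  induction m with
  | zero => intro j c _ h; omega
  | succ m ih =>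
    intro j c hc hj
    have h3 : ∑ k ∈ range m, c (k + 1) * B ^ (k + 1) = B * ∑ k ∈ range m, c (k + 1) * B ^ k := by
      rw [mul_sum]
      apply sum_congr rfl
      intro i _
      ring
    rw [sum_range_succ', h3]
    simp only [pow_zero, mul_one]
    cases j with
    | zero =>
      simp only [pow_zero, Nat.div_one]
      rw [Nat.mul_add_mod, Nat.mod_eq_of_lt (hc 0)]
    | succ j =>
      rw [pow_succ', ← Nat.div_div_eq_div_mul, Nat.mul_add_div hB, Nat.div_eq_of_lt (hc 0), add_zero]
      exact ih j (fun k => c (k + 1)) (fun k => hc _) (by omega)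

theorem sq_eq (n : ℕ) (hn : 0 < n) (a : ℕ → ℕ) (ha : ∀ i, n ≤ i → a i = 0) (B : ℕ) :
    (∑ i ∈ range n, a i * B ^ i) * (∑ i ∈ range n, a i * B ^ i) =
      ∑ k ∈ range (2 * n), dconv a k * B ^ k := by
  set p : Polynomial ℕ := ∑ i ∈ range n, Polynomial.C (a i) * Polynomial.X ^ i with hp
  have hev : p.eval B = ∑ i ∈ range n, a i * B ^ i := by
    rw [hp, Polynomial.eval_finsetSum]
    simp
  have hco : ∀ i, p.coeff i = a i := by
    intro i
    rw [hp, Polynomial.finsetSum_coeff]
    simp only [Polynomial.coeff_C_mul, Polynomial.coeff_X_pow]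
    rw [sum_eq_single i]
    · simp
    · intro j _ hj
      simp [Ne.symm hj]
    · intro hi
      have : n ≤ i := by simpa using hi
      simp [ha i this]
  have hdeg : (p * p).natDegree < 2 * n := by
    have h1 : p.natDegree < n := by
      have h2 : p.natDegree ≤ n - 1 := by
        rw [Polynomial.natDegree_le_iff_coeff_eq_zero]
        intro m hm
        rw [hco, ha m (by omega)]
      omega
    have := Polynomial.natDegree_mul_le (p := p) (q := p)
    omega
  rw [← hev, ← Polynomial.eval_mul, Polynomial.eval_eq_sum_range' hdeg]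
  apply sum_congr rfl
  intro k _
  rw [Polynomial.coeff_mul, dconv]
  simp only [hco]

theorem dconv_le (n : ℕ) (a : ℕ → ℕ) (ha : ∀ i, n ≤ i → a i = 0) (m : ℕ) (hm : ∀ i, a i ≤ m)
    (k : ℕ) : dconv a k ≤ n * m ^ 2 := by
  rw [dconv, Finset.Nat.sum_antidiagonal_eq_sum_range_succ (fun i j => a i * a j)]
  have h1 : ∀ i ∈ range (k + 1), a i * a (k - i) ≤ if i < n then m ^ 2 else 0 := by
    intro i _
    split_ifs with h
    · rw [pow_two]; exact Nat.mul_le_mul (hm _) (hm _)
    · rw [ha i (not_lt.mp h), zero_mul]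
  refine (sum_le_sum h1).trans ?_
  rw [← sum_filter]
  calc ∑ _a ∈ filter (fun a => a < n) (range (k + 1)), m ^ 2
      ≤ ∑ _a ∈ range n, m ^ 2 := by
        apply sum_le_sum_of_subset
        intro i hi
        simp only [mem_filter, mem_range] at hi ⊢
        exact hi.2
    _ = n * m ^ 2 := by simp

/-- the certificate -/
theorem cert (w d n A M S m : ℕ) (hn : 0 < n) (hnd : n ≤ 2 ^ d) (hA : A < (2 ^ w) ^ n)
    (hS : sm w d A = S) (hS0 : 0 < S) (ha : chk w m d A = true) (hmw : n * m ^ 2 < 2 ^ w)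
    (hsq : chk w M (d + 1) (A * A) = true) :
    minNorm ∞ ≤ ENNReal.ofReal ((n : ℝ) * M / (S : ℝ) ^ 2) := by
  have hB : 0 < 2 ^ w := by positivity
  set a : ℕ → ℕ := fun i => A / (2 ^ w) ^ i % 2 ^ w with hadef
  have ha0 : ∀ i, n ≤ i → a i = 0 := by
    intro i hi
    have : A < (2 ^ w) ^ i := lt_of_lt_of_le hA (Nat.pow_le_pow_right hB hi)
    simp [hadef, Nat.div_eq_of_lt this]
  have ham : ∀ i, a i ≤ m := by
    intro i
    by_cases hi : i < 2 ^ d
    · exact chk_spec w m d A ha i hi
    · rw [ha0 i (hnd.trans (not_lt.mp hi))]; exact Nat.zero_le _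
  have hsum : S = ∑ i ∈ range n, a i := by
    rw [← hS, sm_spec w d A (lt_of_lt_of_le hA (Nat.pow_le_pow_right hB hnd))]
    symm
    apply sum_subset (range_mono hnd)
    intro i _ hi
    exact ha0 i (by simpa using hi)
  have hAe : A = ∑ i ∈ range n, a i * (2 ^ w) ^ i := digits_sum _ n A hA
  have hdl : ∀ k, dconv a k < 2 ^ w := fun k => lt_of_le_of_lt (dconv_le n a ha0 m ham k) hmw
  have hM : ∀ k, dconv a k ≤ M := by
    intro k
    by_cases hk : k < 2 * n
    · have h1 := digit_of_sum (2 ^ w) hB (2 * n) k (dconv a) hdl hk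
      rw [← sq_eq n hn a ha0, ← hAe] at h1
      rw [← h1]
      apply chk_spec w M (d + 1) (A * A) hsq k
      rw [pow_succ]; omega
    · have : dconv a k = 0 := by
        rw [dconv]
        apply sum_eq_zero
        intro p hp
        have hp' : p.1 + p.2 = k := by simpa using hp
        by_cases h1 : n ≤ p.1
        · rw [ha0 _ h1, zero_mul]
        · rw [ha0 p.2 (by omega), mul_zero]
      rw [this]; exact Nat.zero_le _
  have := minNorm_top_le hn ha0 (by rw [← hsum]; exact hS0) hM
  rw [← hsum] at this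
  exact this

end Pool.Agent.AutoConv.Upper
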